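import Mathlib
import Pool.Agent.Lib.MP_89bcae_ag.DefsFam45
import Pool.Agent.Lib.MP_89bcae_ag.DefsSup

/-!
# The set of possible exceptions
-/

open Polynomial

namespace Pool.Agent.Lib.MP_89bcae_ag.Superelliptic

open Pool.Agent.Lib.MP_89bcae_ag

universe u

/-- The elements `D` of the family of degree `n` such that, for every finite extension `K` of `k` of
degree less than `n`, the product of the quotients `D(g(c)) / D(c)`, `c ∈ K` (an element of `k`), is an
`ℓ`-th power in `k`. -/
def exceptional (ℓ : ℕ) {k : Type u} [Field k] (g : k[X]) (n : ℕ) : Set k[X] :=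
  {D | D ∈ family g n ∧ ∀ (K : Type) [Field K] [Fintype K] [Algebra k K],
    Module.finrank k K < n →
      ∃ a : k, algebraMap k K (a ^ ℓ) * ∏ c : K, aeval c D = ∏ c : K, aeval c (D.comp g)}

end Pool.Agent.Lib.MP_89bcae_ag.Superelliptic
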