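import Mathlib
import Pool.Agent.Lib.MP_89bcae_ag.Stepanov14

/-!
ROW T01. Norm form, proved with the resultant of `∑ h_r Y ^ r` and `f Y ^ ℓ - c`.
-/

open Polynomial Finset

namespace Pool.Agent.Lib.MP_89bcae_ag.Tw

/-- degree of a determinant, columnwise -/
theorem t01_natDegree_det_le {F : Type*} [Field F] {k : ℕ} (M : Matrix (Fin k) (Fin k) F[X])
    (d : Fin k → ℕ) (hM : ∀ i j, (M i j).natDegree ≤ d j) : M.det.natDegree ≤ ∑ j, d j := by
  rw [Matrix.det_apply']
  refine natDegree_sum_le_of_forall_le _ _ fun σ _ => ?_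
  refine natDegree_mul_le.trans ?_
  rw [natDegree_intCast, zero_add]
  refine (natDegree_prod_le _ _).trans ?_
  exact Finset.sum_le_sum fun j _ => hM _ _

/-- degree of the resultant -/
theorem t01_natDegree_resultant_le {F : Type*} [Field F] (a b : F[X][X]) (m n A B : ℕ)
    (ha : ∀ i, (a.coeff i).natDegree ≤ A) (hb : ∀ i, (b.coeff i).natDegree ≤ B) :
    (resultant a b m n).natDegree ≤ m * B + n * A := by
  have h := t01_natDegree_det_le (sylvester a b m n)
    (fun j => j.addCases (fun _ => B) (fun _ => A)) (by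
      intro i j
      refine Fin.addCases (fun j₁ => ?_) (fun j₁ => ?_) j
      · simp only [sylvester, Matrix.of_apply, Fin.addCases_left]
        split_ifs
        · exact hb _
        · simp
      · simp only [sylvester, Matrix.of_apply, Fin.addCases_right]
        split_ifs
        · exact ha _
        · simp)
  refine h.trans ?_
  rw [Fin.sum_univ_add]
  simp

theorem t01_no_root {F : Type*} [Field F] {ℓ : ℕ} (hℓ : ℓ ≠ 0) {f : F[X]} (hf0 : f ≠ 0)
    (hf : ¬ ∃ (c : F) (g : F[X]), f = C c * g ^ ℓ) {c : F} (hc : c ≠ 0)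
    (b : FractionRing F[X]) :
    b ^ ℓ ≠ algebraMap F[X] (FractionRing F[X]) (C c) / algebraMap F[X] (FractionRing F[X]) f := by
  intro hb
  obtain ⟨u, v, huv, hx⟩ := IsFractionRing.exists_reduced_fraction (A := F[X]) b
  rw [IsFractionRing.mk'_eq_div] at hx
  have hinj : Function.Injective (algebraMap F[X] (FractionRing F[X])) :=
    IsFractionRing.injective F[X] (FractionRing F[X])
  have hv0 : (v : F[X]) ≠ 0 := nonZeroDivisors.coe_ne_zero v
  have hv' : algebraMap F[X] (FractionRing F[X]) (v : F[X]) ≠ 0 := by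
    intro h
    apply hv0
    apply hinj
    rw [h, map_zero]
  have hf' : algebraMap F[X] (FractionRing F[X]) f ≠ 0 := by
    intro h
    apply hf0
    apply hinj
    rw [h, map_zero]
  rw [← hx, div_pow, div_eq_div_iff (pow_ne_zero _ hv') hf'] at hb
  have h1 : u ^ ℓ * f = C c * (v : F[X]) ^ ℓ := by
    apply hinj
    rw [map_mul, map_pow, map_mul, map_pow]
    exact hb
  have h2 : IsRelPrime (u ^ ℓ) ((v : F[X]) ^ ℓ) := huv.pow
  have h3 : u ^ ℓ ∣ C c * (v : F[X]) ^ ℓ := ⟨f, h1.symm⟩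
  have h4 : u ^ ℓ ∣ C c := h2.dvd_of_dvd_mul_right h3
  have h5 : IsUnit (u ^ ℓ) := isUnit_of_dvd_unit h4 (isUnit_C.2 (isUnit_iff_ne_zero.2 hc))
  have h6 : IsUnit u := (isUnit_pow_iff hℓ).1 h5
  obtain ⟨a, ha, rfl⟩ := Polynomial.isUnit_iff.1 h6
  apply hf
  refine ⟨(a ^ ℓ)⁻¹ * c, v, ?_⟩
  have ha0 : a ≠ 0 := ha.ne_zero
  have h7 : C (a ^ ℓ) * f = C c * (v : F[X]) ^ ℓ := by rw [C_pow]; exact h1
  rw [C_mul, mul_assoc, ← h7, ← mul_assoc, ← C_mul, inv_mul_cancel₀ (pow_ne_zero _ ha0), C_1,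
    one_mul]

theorem eq_zero_of_dvd {F : Type*} [Field F] {p : ℕ} [Fact p.Prime] [CharP F p] {ℓ n Qb : ℕ}
    (hℓ : ℓ.Prime) (hQ : p ^ n = ℓ * Qb + 1) {f : F[X]} (hf0 : f.eval 0 ≠ 0)
    (hf : ¬ ∃ (c : F) (g : F[X]), f = C c * g ^ ℓ) {h : ℕ → F[X]} {H : ℕ}
    (hh : ∀ r, (h r).natDegree ≤ H) (hdeg : ℓ * H + (ℓ - 1) * f.natDegree < p ^ n)
    (hdvd : X ^ p ^ n ∣ ∑ r ∈ range ℓ, h r * f ^ (r * Qb)) : ∀ r < ℓ, h r = 0 := by
  classical
  have hℓ2 : 2 ≤ ℓ := hℓ.two_le
  set c : F := (f.eval 0) ^ p ^ n with hc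
  have hc0 : c ≠ 0 := pow_ne_zero _ hf0
  have hfne : f ≠ 0 := by
    rintro rfl
    simp at hf0
  have h2 : X ^ p ^ n ∣ f ^ p ^ n - C c := by
    have e : f ^ p ^ n - C c = (f - C (f.eval 0)) ^ p ^ n := by
      rw [sub_pow_char_pow, hc, C_pow]
    rw [e]
    apply pow_dvd_pow_of_dvd
    have := X_sub_C_dvd_sub_C_eval (a := (0 : F)) (p := f)
    simpa using this
  set hY : F[X][X] := ∑ r ∈ range ℓ, C (h r) * X ^ r with hhY
  set G : F[X][X] := C f * X ^ ℓ - C (C c) with hG
  have hYcoeff : ∀ i, hY.coeff i = if i < ℓ then h i else 0 := by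
    intro i
    rw [hhY, finsetSum_coeff]
    simp only [coeff_C_mul, coeff_X_pow, mul_ite, mul_one, mul_zero]
    rw [Finset.sum_ite_eq (range ℓ) i]
    simp only [Finset.mem_range]
  have hGcoeff : ∀ i, (G.coeff i).natDegree ≤ f.natDegree := by
    intro i
    rw [hG, coeff_sub, coeff_C_mul, coeff_X_pow, coeff_C]
    refine (natDegree_sub_le _ _).trans (max_le ?_ ?_)
    · split_ifs
      · simp
      · simp
    · split_ifs
      · simp
      · simp
  have hYdeg : hY.natDegree ≤ ℓ - 1 := by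
    refine natDegree_le_iff_coeff_eq_zero.2 fun i hi => ?_
    rw [hYcoeff, if_neg (by omega)]
  have hGdeg : G.natDegree ≤ ℓ := by
    rw [hG]
    refine (natDegree_sub_le _ _).trans (max_le ?_ ?_)
    · exact natDegree_C_mul_X_pow_le _ _
    · rw [natDegree_C]; omega
  have hGlead : G.coeff ℓ = f := by
    rw [hG, coeff_sub, coeff_C_mul, coeff_X_pow, if_pos rfl, mul_one, coeff_C,
      if_neg (by omega), sub_zero]
  -- the resultant vanishes
  have hres : resultant hY G (ℓ - 1) ℓ = 0 := by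
    obtain ⟨a, b, -, -, hab⟩ := exists_mul_add_mul_eq_C_resultant (m := ℓ - 1) (n := ℓ) hY G
      hYdeg hGdeg (Or.inr (by omega))
    have e1 := congrArg (eval (f ^ Qb)) hab
    rw [eval_add, eval_mul, eval_mul, eval_C] at e1
    have e2 : eval (f ^ Qb) hY = ∑ r ∈ range ℓ, h r * f ^ (r * Qb) := by
      rw [hhY, eval_finsetSum]
      refine Finset.sum_congr rfl fun r _ => ?_
      rw [eval_mul, eval_C, eval_pow, eval_X, ← pow_mul, mul_comm Qb r]
    have e3 : eval (f ^ Qb) G = f ^ p ^ n - C c := by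
      rw [hG, eval_sub, eval_mul, eval_C, eval_pow, eval_X, eval_C, hQ]
      ring
    rw [e2, e3] at e1
    have h3 : X ^ p ^ n ∣ resultant hY G (ℓ - 1) ℓ := by
      rw [← e1]
      exact dvd_add (Dvd.dvd.mul_right hdvd _) (Dvd.dvd.mul_right h2 _)
    by_contra hne
    have h4 := natDegree_le_of_dvd h3 hne
    rw [natDegree_X_pow] at h4
    have h5 := t01_natDegree_resultant_le hY G (ℓ - 1) ℓ H f.natDegree (by
      intro i
      rw [hYcoeff]
      split_ifs
      · exact hh i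
      · simp) hGcoeff
    have h6 : (ℓ - 1) * f.natDegree + ℓ * H = ℓ * H + (ℓ - 1) * f.natDegree := by ring
    omega
  -- suppose hY ≠ 0
  by_cases hY0 : hY = 0
  · intro r hr
    have := hYcoeff r
    rw [hY0, coeff_zero, if_pos hr] at this
    exact this.symm
  exfalso
  set φ := algebraMap F[X] (FractionRing F[X]) with hφ
  have hinj : Function.Injective φ := IsFractionRing.injective F[X] (FractionRing F[X])
  have hYK0 : hY.map φ ≠ 0 := by
    rw [Ne, Polynomial.map_eq_zero_iff hinj]; exact hY0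
  have hYKdeg : (hY.map φ).natDegree = hY.natDegree := natDegree_map_eq_of_injective hinj _
  have hGKdeg : (G.map φ).natDegree = ℓ := by
    rw [natDegree_map_eq_of_injective hinj]
    apply le_antisymm hGdeg
    apply le_natDegree_of_ne_zero
    rw [hGlead]; exact hfne
  have hresK : resultant (hY.map φ) (G.map φ) (ℓ - 1) ℓ = 0 := by
    rw [resultant_map_map, hres, map_zero]
  have hresK2 : resultant (hY.map φ) (G.map φ) = 0 := by
    obtain ⟨k, hk⟩ : ∃ k, ℓ - 1 = hY.natDegree + k := ⟨ℓ - 1 - hY.natDegree, by omega⟩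
    rw [hk, ← hYKdeg, resultant_add_left_deg _ _ _ _ _ le_rfl] at hresK
    rw [hGKdeg]
    rcases mul_eq_zero.1 hresK with h7 | h7
    · exfalso
      rcases mul_eq_zero.1 h7 with h8 | h8
      · exact (pow_ne_zero _ (neg_ne_zero.2 one_ne_zero)) h8
      · rw [coeff_map, hGlead] at h8
        refine pow_ne_zero k (fun h9 => hfne (hinj ?_)) h8
        rw [h9, map_zero]
    · exact h7
  rw [resultant_eq_zero_iff] at hresK2
  have hGK : G.map φ = C (φ f) * (X ^ ℓ - C (φ (C c) / φ f)) := by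
    have hφf : φ f ≠ 0 := by
      intro h9
      apply hfne
      apply hinj
      rw [h9, map_zero]
    rw [hG, Polynomial.map_sub, Polynomial.map_mul, Polynomial.map_pow, map_X, map_C, map_C,
      mul_sub, ← C_mul, mul_div_cancel₀ _ hφf]
  have hφf : φ f ≠ 0 := by
    intro h9
    apply hfne
    apply hinj
    rw [h9, map_zero]
  have hirr : Irreducible (X ^ ℓ - C (φ (C c) / φ f) : (FractionRing F[X])[X]) :=
    X_pow_sub_C_irreducible_of_prime hℓ fun b => t01_no_root hℓ.ne_zero hfne hf hc0 b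
  apply hresK2.2
  rw [hGK, isCoprime_mul_unit_left_right (isUnit_C.2 (isUnit_iff_ne_zero.2 hφf))]
  apply IsCoprime.symm
  rw [hirr.coprime_iff_not_dvd]
  intro hd
  have h10 := natDegree_le_of_dvd hd hYK0
  rw [natDegree_X_pow_sub_C, hYKdeg] at h10
  omega

end Pool.Agent.Lib.MP_89bcae_ag.Tw
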