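import Mathlib
import Pool.Agent.Lib.MP_89bcae_ag.Tw.T01

/-!
Stepanov's count for the characters of order `ℓ`.
-/

open Polynomial Finset

namespace Pool.Agent.Lib.MP_89bcae_ag.Tw

open Stepanov14 (pol pol_sub pol_eq_zero natDegree_pol_le sum_zero)

/-- the auxiliary polynomial -/
noncomputable def t02_aux {F : Type*} [Field F] (p a Ma : ℕ) {ℓ : ℕ} (f : F[X]) (ω : F) {I H : ℕ}
    (c : Fin ℓ → Fin I → Fin H → F) : F[X] :=
  ∑ i : Fin I, (∑ r : Fin ℓ, C (ω ^ (r : ℕ)) * pol (c r i) ^ p ^ a *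
    f ^ ((ℓ - 1 - (r : ℕ)) * Ma)) * X ^ (i : ℕ)

theorem t02_aux_sub {F : Type*} [Field F] {p : ℕ} [Fact p.Prime] [CharP F p] (a Ma : ℕ) {ℓ : ℕ}
    (f : F[X]) (ω : F) {I H : ℕ} (c e : Fin ℓ → Fin I → Fin H → F) :
    t02_aux p a Ma f ω (c - e) = t02_aux p a Ma f ω c - t02_aux p a Ma f ω e := by
  unfold t02_aux
  rw [← sum_sub_distrib]
  refine sum_congr rfl fun i _ => ?_
  rw [← sub_mul, ← sum_sub_distrib]
  congr 1
  refine sum_congr rfl fun r _ => ?_
  rw [Pi.sub_apply, Pi.sub_apply, pol_sub, sub_pow_char_pow]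
  ring

theorem t02_aux_deg {F : Type*} [Field F] (p a Ma : ℕ) {ℓ : ℕ} (f : F[X]) (ω : F) {I H : ℕ}
    (hI : 0 < I) (c : Fin ℓ → Fin I → Fin H → F) :
    (t02_aux p a Ma f ω c).natDegree < p ^ a * (H - 1) + (ℓ - 1) * f.natDegree * Ma + I := by
  have : (t02_aux p a Ma f ω c).natDegree ≤
      p ^ a * (H - 1) + (ℓ - 1) * f.natDegree * Ma + (I - 1) := by
    apply natDegree_sum_le_of_forall_le
    intro i _
    have hi := i.2
    refine natDegree_mul_le.trans ?_
    rw [natDegree_X_pow]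
    have h1 : (∑ r : Fin ℓ, C (ω ^ (r : ℕ)) * pol (c r i) ^ p ^ a *
        f ^ ((ℓ - 1 - (r : ℕ)) * Ma)).natDegree ≤
        p ^ a * (H - 1) + (ℓ - 1) * f.natDegree * Ma := by
      apply natDegree_sum_le_of_forall_le
      intro r _
      refine natDegree_mul_le.trans (Nat.add_le_add ?_ ?_)
      · refine (natDegree_C_mul_le _ _).trans ?_
        exact natDegree_pow_le.trans (Nat.mul_le_mul_left _ (natDegree_pol_le _))
      · refine natDegree_pow_le.trans ?_
        calc (ℓ - 1 - (r : ℕ)) * Ma * f.natDegree ≤ (ℓ - 1) * Ma * f.natDegree :=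
              Nat.mul_le_mul_right _ (Nat.mul_le_mul_right _ (Nat.sub_le _ _))
          _ = (ℓ - 1) * f.natDegree * Ma := by ring
    omega
  omega

theorem count_le {F : Type*} [Field F] [Fintype F] [DecidableEq F] {p : ℕ} [Fact p.Prime]
    [CharP F p] {ℓ a b Ma Qb : ℕ} (hℓ : ℓ.Prime) (ha : p ^ a = ℓ * Ma + 1)
    (hb : p ^ b = ℓ * Qb + 1) (hcard : Fintype.card F = p ^ a * p ^ b) {f : F[X]}
    (hf0 : f.eval 0 ≠ 0) (hf : ¬ ∃ (c : F) (g : F[X]), f = C c * g ^ ℓ) {ω : F} (hω : ω ≠ 0)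
    {H I : ℕ} (hI : 0 < I) (hH : ℓ * (H - 1) + (ℓ - 1) * f.natDegree < p ^ b)
    (hPH : p ^ a * (H - 1) + (ℓ - 1) * f.natDegree * Ma + I < ℓ * I * H) :
    (univ.filter fun x : F => (f.eval x) ^ (p ^ a * Qb + Ma) = ω).card ≤
      (I - 1) * p ^ b + (H - 1) + (ℓ - 1) * f.natDegree * Qb := by
  have hp : 0 < p ^ b := by omega
  have hℓ2 : 2 ≤ ℓ := hℓ.two_le
  -- pigeonhole
  obtain ⟨c, e, hne, hΦ⟩ := Fintype.exists_ne_map_eq_of_card_lt
    (fun c : Fin ℓ → Fin I → Fin H → F =>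
      fun j : Fin (p ^ a * (H - 1) + (ℓ - 1) * f.natDegree * Ma + I) =>
        (t02_aux p a Ma f ω c).coeff j) (by
      simp only [Fintype.card_fun, Fintype.card_fin]
      rw [← pow_mul, ← pow_mul]
      apply Nat.pow_lt_pow_right Fintype.one_lt_card
      calc _ < ℓ * I * H := hPH
        _ = H * (I * ℓ) := by ring)
  have hS : t02_aux p a Ma f ω (c - e) = 0 := by
    have h1 := t02_aux_deg p a Ma f ω hI (c - e)
    rw [t02_aux_sub] at h1 ⊢
    ext j
    rw [coeff_zero]
    by_cases hj : j < p ^ a * (H - 1) + (ℓ - 1) * f.natDegree * Ma + I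
    · have := congrFun hΦ ⟨j, hj⟩
      simp only at this
      rw [coeff_sub, this, sub_self]
    · exact coeff_eq_zero_of_natDegree_lt (by omega)
  -- the polynomials
  obtain ⟨h, hhdef⟩ : ∃ h : ℕ → ℕ → F[X], ∀ r i, h r i =
      if hr : r < ℓ then if hi : i < I then pol ((c - e) ⟨r, hr⟩ ⟨i, hi⟩) else 0 else 0 :=
    ⟨_, fun _ _ => rfl⟩
  have hfin : ∀ (r : Fin ℓ) (i : Fin I), h r i = pol ((c - e) r i) := by
    intro r i
    rw [hhdef, dif_pos r.2, dif_pos i.2]
  have hh : ∀ r i, (h r i).natDegree ≤ H - 1 := by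
    intro r i
    rw [hhdef]
    split_ifs with hr hi
    · exact natDegree_pol_le _
    · simp
    · simp
  have hSeval : ∀ x : F, ∑ i ∈ range I, (∑ r ∈ range ℓ, ω ^ r * (h r i).eval x ^ p ^ a *
      f.eval x ^ ((ℓ - 1 - r) * Ma)) * x ^ i = 0 := by
    intro x
    have h1 := congrArg (eval x) hS
    rw [t02_aux, eval_finsetSum, eval_zero] at h1
    rw [← h1, ← Fin.sum_univ_eq_sum_range (fun i => (∑ r ∈ range ℓ, ω ^ r *
      (h r i).eval x ^ p ^ a * f.eval x ^ ((ℓ - 1 - r) * Ma)) * x ^ i)]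
    refine sum_congr rfl fun i _ => ?_
    rw [← Fin.sum_univ_eq_sum_range (fun r => ω ^ r *
      (h r i).eval x ^ p ^ a * f.eval x ^ ((ℓ - 1 - r) * Ma))]
    rw [eval_mul, eval_finsetSum, eval_pow, eval_X]
    congr 1
    refine sum_congr rfl fun r _ => ?_
    rw [hfin]
    simp only [eval_mul, eval_pow, eval_C]
  set R : F[X] := ∑ i ∈ range I, (∑ r ∈ range ℓ, h r i * f ^ (r * Qb)) * X ^ (i * p ^ b) with hR
  have hR0 : R ≠ 0 := by
    intro hR0
    have hz : ∀ i, X ^ p ^ b ∣ ∑ r ∈ range ℓ, h r i * f ^ (r * Qb) → ∀ r < ℓ, h r i = 0 := by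
      intro i hi
      exact eq_zero_of_dvd hℓ hb hf0 hf (h := fun r => h r i) (fun r => hh r i) hH hi
    have h1 := sum_zero I (fun i => ∑ r ∈ range ℓ, h r i * f ^ (r * Qb)) (fun i hi hd => by
      refine sum_eq_zero fun r hr => ?_
      rw [hz i hd r (mem_range.mp hr), zero_mul]) hR0
    have h2 : ∀ i < I, ∀ r < ℓ, h r i = 0 := fun i hi => hz i (by
      have := h1 i hi
      rw [this]; exact dvd_zero _)
    apply hne
    have h3 : c - e = 0 := by
      funext r i
      apply pol_eq_zero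
      rw [← hfin]
      exact h2 i i.2 r r.2
    exact sub_eq_zero.1 h3
  -- vanishing
  have hvan : ∀ x : F, (f.eval x) ^ (p ^ a * Qb + Ma) = ω → R.eval x = 0 := by
    intro x hx
    have hfx : f.eval x ≠ 0 := by
      intro h0
      rw [h0] at hx
      rcases Nat.eq_zero_or_pos (p ^ a * Qb + Ma) with h' | h'
      · have hQ0 : Qb = 0 := by
          have hpm : 0 < p ^ a := pow_pos (Nat.Prime.pos Fact.out) a
          by_contra hq
          have : 0 < p ^ a * Qb := Nat.mul_pos hpm (by omega)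
          omega
        have hH' : ℓ * (H - 1) + (ℓ - 1) * f.natDegree < 1 := by
          rw [hb, hQ0, mul_zero, zero_add] at hH
          exact hH
        have hfd : f.natDegree = 0 := by
          have h5 : (ℓ - 1) * f.natDegree = 0 := by omega
          rcases Nat.mul_eq_zero.mp h5 with h6 | h6
          · omega
          · exact h6
        exact hf ⟨f.coeff 0, 1, by
          rw [one_pow, mul_one]
          exact eq_C_of_natDegree_eq_zero hfd⟩
      · rw [zero_pow (by omega)] at hx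
        exact hω hx.symm
    have h1 : (f.eval x) ^ ((ℓ - 1) * Ma) * (iterateFrobenius F p a (R.eval x)) = 0 := by
      rw [← hSeval x, hR, eval_finsetSum, map_sum, mul_sum]
      refine sum_congr rfl fun i _ => ?_
      rw [eval_mul, map_mul, eval_finsetSum, map_sum, ← mul_assoc, mul_sum]
      have e1 : (iterateFrobenius F p a) (eval x (X ^ (i * p ^ b))) = x ^ i := by
        rw [eval_pow, eval_X, iterateFrobenius_def, ← pow_mul,
          show i * p ^ b * p ^ a = (p ^ a * p ^ b) * i by ring, pow_mul, ← hcard,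
          FiniteField.pow_card]
      rw [e1]
      congr 1
      refine sum_congr rfl fun r hr => ?_
      rw [mem_range] at hr
      have e2 : f.eval x ^ ((ℓ - 1) * Ma) * (f.eval x ^ (r * Qb)) ^ p ^ a =
          ω ^ r * f.eval x ^ ((ℓ - 1 - r) * Ma) := by
        rw [← hx, ← pow_mul, ← pow_add, ← pow_mul, ← pow_add]
        congr 1
        obtain ⟨s, hs⟩ : ∃ s, ℓ - 1 = r + s := ⟨ℓ - 1 - r, by omega⟩
        rw [hs, Nat.add_sub_cancel_left]
        ring
      rw [eval_mul, eval_pow, map_mul, iterateFrobenius_def, iterateFrobenius_def]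
      calc f.eval x ^ ((ℓ - 1) * Ma) * ((h r i).eval x ^ p ^ a * (f.eval x ^ (r * Qb)) ^ p ^ a)
          = (h r i).eval x ^ p ^ a *
            (f.eval x ^ ((ℓ - 1) * Ma) * (f.eval x ^ (r * Qb)) ^ p ^ a) := by ring
        _ = ω ^ r * (h r i).eval x ^ p ^ a * f.eval x ^ ((ℓ - 1 - r) * Ma) := by rw [e2]; ring
    rcases mul_eq_zero.1 h1 with h | h
    · exact absurd h (pow_ne_zero _ hfx)
    · rw [iterateFrobenius_def] at h
      exact pow_eq_zero_iff (pow_pos (Nat.Prime.pos Fact.out) a).ne' |>.1 h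
  -- count
  have hdeg : R.natDegree ≤ (I - 1) * p ^ b + (H - 1) + (ℓ - 1) * f.natDegree * Qb := by
    apply natDegree_sum_le_of_forall_le
    intro i hi
    rw [mem_range] at hi
    refine natDegree_mul_le.trans ?_
    rw [natDegree_X_pow]
    have h1 : (∑ r ∈ range ℓ, h r i * f ^ (r * Qb)).natDegree ≤
        (H - 1) + (ℓ - 1) * f.natDegree * Qb := by
      apply natDegree_sum_le_of_forall_le
      intro r hr
      rw [mem_range] at hr
      refine natDegree_mul_le.trans (Nat.add_le_add (hh r i) ?_)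
      refine natDegree_pow_le.trans ?_
      calc r * Qb * f.natDegree ≤ (ℓ - 1) * Qb * f.natDegree :=
            Nat.mul_le_mul_right _ (Nat.mul_le_mul_right _ (by omega))
        _ = (ℓ - 1) * f.natDegree * Qb := by ring
    have h2 : i * p ^ b ≤ (I - 1) * p ^ b := Nat.mul_le_mul_right _ (by omega)
    omega
  refine le_trans ?_ hdeg
  apply card_le_degree_of_subset_roots
  intro x hx
  rw [mem_val, mem_filter] at hx
  rw [mem_roots hR0]
  exact hvan x hx.2

end Pool.Agent.Lib.MP_89bcae_ag.Tw
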