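import Mathlib
import Pool.Agent.Lib.MP_89bcae_ag.Tw.T02

/-!
The bound `ℓ * count ≤ card + ℓ ^ 3 (deg f + 1) p ^ b`.
-/

open Polynomial Finset

namespace Pool.Agent.Lib.MP_89bcae_ag.Tw

/-- the inequality needed for the pigeonhole -/
theorem t03_arith {k Ma h d : ℕ} (hk : 1 ≤ k) (h1 : k * Ma ≤ (k + 1) * h) :
    ((k + 1) * Ma + 1) * h + k * d * Ma + (Ma + 1 + d) < (k + 1) * (Ma + 1 + d) * (h + 1) := by
  have h4 : d * (k * Ma) ≤ d * ((k + 1) * h) := Nat.mul_le_mul_left _ h1
  have h5 : 0 < k * (1 + d) := by positivity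
  have h6 : 0 ≤ k * h := Nat.zero_le _
  have h7 : 0 ≤ k * Ma := Nat.zero_le _
  have e : (k + 1) * (Ma + 1 + d) * (h + 1) + d * (k * Ma) =
      ((k + 1) * Ma + 1) * h + k * d * Ma + (Ma + 1 + d) + d * ((k + 1) * h) + k * h + k * Ma +
        k * (1 + d) := by ring
  omega

/-- the bound for `f(0) ≠ 0` -/
theorem t03_aux {F : Type*} [Field F] [Fintype F] [DecidableEq F] {p : ℕ} [Fact p.Prime]
    [CharP F p] {ℓ a b Ma Qb : ℕ} (hℓ : ℓ.Prime) (hab : a ≤ b) (ha : p ^ a = ℓ * Ma + 1)
    (hb : p ^ b = ℓ * Qb + 1) (hcard : Fintype.card F = p ^ a * p ^ b) {f : F[X]}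
    (hf0 : f.eval 0 ≠ 0)
    (hf : ¬ ∃ (c : F) (g : F[X]), f = C c * g ^ ℓ) {ω : F} (hω : ω ≠ 0) :
    ℓ * (univ.filter fun x : F => (f.eval x) ^ (p ^ a * Qb + Ma) = ω).card ≤
      Fintype.card F + ℓ ^ 3 * (f.natDegree + 1) * p ^ b := by
  have hpp : p.Prime := Fact.out
  have hmn : p ^ a ≤ p ^ b := Nat.pow_le_pow_right hpp.pos hab
  set d := f.natDegree with hd
  obtain ⟨k, rfl⟩ : ∃ k, ℓ = k + 1 := ⟨ℓ - 1, by have := hℓ.two_le; omega⟩
  have hk : 1 ≤ k := by have := hℓ.two_le; omega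
  have hNle : (univ.filter fun x : F => (f.eval x) ^ (p ^ a * Qb + Ma) = ω).card ≤
      Fintype.card F := Finset.card_le_univ _
  by_cases hbig : p ^ a < (k + 1) ^ 2 * (d + 1)
  · have h1 : (k + 1) * Fintype.card F ≤ (k + 1) ^ 3 * (d + 1) * p ^ b := by
      rw [hcard]
      calc (k + 1) * (p ^ a * p ^ b) = (k + 1) * p ^ a * p ^ b := by ring
        _ ≤ (k + 1) * ((k + 1) ^ 2 * (d + 1)) * p ^ b :=
            Nat.mul_le_mul_right _ (Nat.mul_le_mul_left _ hbig.le)
        _ = _ := by ring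
    have h2 := Nat.mul_le_mul_left (k + 1) hNle
    omega
  · rw [not_lt] at hbig
    -- lower bound for `Ma`
    have hMa : (k + 1) * (d + 1) ≤ Ma := by
      by_contra hc
      rw [not_le] at hc
      have h1 : (k + 1) * (Ma + 1) ≤ (k + 1) * ((k + 1) * (d + 1)) := Nat.mul_le_mul_left _ hc
      have h2 : (k + 1) * ((k + 1) * (d + 1)) = (k + 1) ^ 2 * (d + 1) := by ring
      have h3 : (k + 1) * (Ma + 1) = (k + 1) * Ma + k + 1 := by ring
      omega
    set h := (p ^ b - 1 - k * d) / (k + 1) with hh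
    have hkd : k * d + k ≤ Ma := by
      have : (k + 1) * (d + 1) = k * d + k + d + 1 := by ring
      omega
    have hMk : Ma ≤ (k + 1) * Ma := Nat.le_mul_of_pos_left _ (by omega)
    have hdiv1 : (k + 1) * h ≤ p ^ b - 1 - k * d := Nat.mul_div_le _ _
    have hdiv2 : p ^ b - 1 - k * d < (k + 1) * h + (k + 1) := by
      have := Nat.lt_mul_div_succ (p ^ b - 1 - k * d) (show 0 < k + 1 by omega)
      rw [← hh] at this
      have e : (k + 1) * (h + 1) = (k + 1) * h + (k + 1) := by ring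
      omega
    have hlow : k * Ma ≤ (k + 1) * h := by
      have e : (k + 1) * Ma = k * Ma + Ma := by ring
      omega
    have hcount := count_le (H := h + 1) (I := Ma + 1 + d) hℓ ha hb hcard hf0 hf hω
      (by omega) (by
        rw [← hd, Nat.add_sub_cancel, Nat.add_sub_cancel]
        omega) (by
        rw [← hd, Nat.add_sub_cancel, Nat.add_sub_cancel, ha]
        exact t03_arith hk hlow)
    rw [← hd, Nat.add_sub_cancel, Nat.add_sub_cancel,
      show Ma + 1 + d - 1 = Ma + d by omega] at hcount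
    have hm := Nat.mul_le_mul_left (k + 1) hcount
    refine hm.trans ?_
    rw [hcard]
    have e1 : (k + 1) * ((Ma + d) * p ^ b + h + k * d * Qb) =
        ((k + 1) * Ma) * p ^ b + ((k + 1) * d) * p ^ b + (k + 1) * h + (k * d) * ((k + 1) * Qb) := by
      ring
    have e2 : p ^ a * p ^ b = ((k + 1) * Ma) * p ^ b + p ^ b := by
      rw [ha]; ring
    have e3 : (k * d) * ((k + 1) * Qb) ≤ (k * d) * p ^ b := Nat.mul_le_mul_left _ (by omega)
    have e4 : ((k + 1) * d + k * d) * p ^ b ≤ (k + 1) ^ 3 * (d + 1) * p ^ b := by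
      refine Nat.mul_le_mul_right _ ?_
      have e5 : (k + 1) * d + k * d ≤ (k + 1) ^ 3 * d := by
        have e6 : (k + 1) * d + k * d = (2 * k + 1) * d := by ring
        rw [e6]
        refine Nat.mul_le_mul_right _ ?_
        have e7 : (k + 1) ^ 3 = k ^ 3 + 3 * k ^ 2 + 3 * k + 1 := by ring
        omega
      refine e5.trans (Nat.mul_le_mul_left _ (by omega))
    have e8 : ((k + 1) * d + k * d) * p ^ b = ((k + 1) * d) * p ^ b + (k * d) * p ^ b := by ring
    rw [e1, e2]
    omega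

theorem count_bound {F : Type*} [Field F] [Fintype F] [DecidableEq F] {p : ℕ} [Fact p.Prime]
    [CharP F p] {ℓ a b Ma Qb : ℕ} (hℓ : ℓ.Prime) (hab : a ≤ b) (ha : p ^ a = ℓ * Ma + 1)
    (hb : p ^ b = ℓ * Qb + 1) (hcard : Fintype.card F = p ^ a * p ^ b) {f : F[X]}
    (hf : ¬ ∃ (c : F) (g : F[X]), f = C c * g ^ ℓ) {ω : F} (hω : ω ≠ 0) :
    ℓ * (univ.filter fun x : F => (f.eval x) ^ (p ^ a * Qb + Ma) = ω).card ≤
      Fintype.card F + ℓ ^ 3 * (f.natDegree + 1) * p ^ b := by
  have hpp : p.Prime := Fact.out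
  by_cases hbig : ∃ x : F, f.eval x ≠ 0
  · obtain ⟨y, hy⟩ := hbig
    have h1 := t03_aux (f := f.comp (X + C y)) hℓ hab ha hb hcard (by simpa using hy) (by
      rintro ⟨c, g, hg⟩
      apply hf
      refine ⟨c, g.comp (X - C y), ?_⟩
      have h2 := congrArg (fun u => u.comp (X - C y)) hg
      simp only [comp_assoc, add_comp, X_comp, C_comp, sub_add_cancel, comp_X, mul_comp,
        pow_comp] at h2
      exact h2) hω
    rw [natDegree_comp, natDegree_X_add_C, mul_one] at h1
    have h3 : (univ.filter fun x : F =>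
        ((f.comp (X + C y)).eval x) ^ (p ^ a * Qb + Ma) = ω).card =
        (univ.filter fun x : F => (f.eval x) ^ (p ^ a * Qb + Ma) = ω).card := by
      refine Finset.card_equiv (Equiv.addRight y) ?_
      intro x
      simp only [mem_filter, mem_univ, true_and, eval_comp, eval_add, eval_X, eval_C,
        Equiv.coe_addRight]
    rw [h3] at h1
    exact h1
  · push Not at hbig
    have hexp : p ^ a * Qb + Ma ≠ 0 := by
      intro h0
      have h1 : Ma = 0 := by omega
      have h2 : p ^ a * Qb = 0 := by omega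
      have h3 : Qb = 0 := by
        rcases Nat.mul_eq_zero.1 h2 with h | h
        · exact absurd h (pow_pos hpp.pos a).ne'
        · exact h
      rw [h1] at ha
      rw [h3] at hb
      have h4 : Fintype.card F = 1 := by
        rw [hcard, ha, hb]
        simp
      have h5 : 1 < Fintype.card F := Fintype.one_lt_card
      omega
    have hempty : (univ.filter fun x : F => (f.eval x) ^ (p ^ a * Qb + Ma) = ω) = ∅ := by
      rw [Finset.filter_eq_empty_iff]
      intro x _
      rw [hbig x, zero_pow hexp]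
      exact hω.symm
    rw [hempty, Finset.card_empty, mul_zero]
    exact Nat.zero_le _

end Pool.Agent.Lib.MP_89bcae_ag.Tw
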