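import Mathlib

/-!
ROW T04. AVERAGING OVER THE LINEAR FORMS.
-/

open Finset

namespace Pool.Agent.Lib.MP_89bcae_ag.Tw

lemma t04_count {ι : Type*} [Fintype ι] [DecidableEq ι] {ℓ : ℕ} [Fact ℓ.Prime]
    (v : ι → ZMod ℓ) (hv : v ≠ 0) :
    ℓ * ((Finset.univ : Finset (ι → ZMod ℓ)).filter fun a => ∑ i, a i * v i = 0).card =
      ℓ ^ Fintype.card ι := by
  let φ : (ι → ZMod ℓ) →ₗ[ZMod ℓ] ZMod ℓ := ∑ i, (LinearMap.proj i).smulRight (v i)
  have hφ : ∀ a, φ a = ∑ i, a i * v i := by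
    intro a
    simp [φ, LinearMap.sum_apply]
  have hsurj : Function.Surjective φ := by
    obtain ⟨j, hj⟩ : ∃ j, v j ≠ 0 := by
      by_contra h
      push Not at h
      exact hv (funext h)
    intro c
    refine ⟨Pi.single j (c * (v j)⁻¹), ?_⟩
    rw [hφ, Finset.sum_eq_single j]
    · rw [Pi.single_eq_same, mul_assoc, inv_mul_cancel₀ hj, mul_one]
    · intro i _ hi
      rw [Pi.single_eq_of_ne hi, zero_mul]
    · intro h
      exact absurd (Finset.mem_univ j) h
  have h1 := Submodule.card_eq_card_quotient_mul_card (LinearMap.ker φ)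
  have h2 : Nat.card ((ι → ZMod ℓ) ⧸ LinearMap.ker φ) = ℓ := by
    rw [Nat.card_congr (φ.quotKerEquivOfSurjective hsurj).toEquiv, Nat.card_zmod]
  have h3 : Nat.card (ι → ZMod ℓ) = ℓ ^ Fintype.card ι := by
    rw [Nat.card_eq_fintype_card, Fintype.card_fun, ZMod.card]
  have h4 : Nat.card (LinearMap.ker φ) =
      ((Finset.univ : Finset (ι → ZMod ℓ)).filter fun a => ∑ i, a i * v i = 0).card := by
    have h5 : Nat.card (LinearMap.ker φ) = Nat.card {a : ι → ZMod ℓ // ∑ i, a i * v i = 0} := by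
      refine Nat.card_congr (Equiv.subtypeEquivRight fun a => ?_)
      rw [LinearMap.mem_ker, hφ]
    rw [h5, Nat.card_eq_fintype_card, Fintype.card_subtype]
  rw [← h3, ← h4, h1, h2]
  ring

theorem averaging {ι A : Type*} [Fintype ι] [DecidableEq ι] {ℓ : ℕ} (hℓ : ℓ.Prime) (T : Finset A)
    (w : A → ι → ZMod ℓ) {B : ℤ}
    (hB : ∀ a : ι → ZMod ℓ, a ≠ 0 →
      (ℓ : ℤ) * ((T.filter fun x => ∑ i, a i * w x i = 0).card : ℤ) ≤ B) :
    ((T.filter fun x => w x = 0).card : ℤ) * ((ℓ - 1) * ℓ ^ Fintype.card ι) +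
        (T.card : ℤ) * (ℓ ^ Fintype.card ι - ℓ) ≤ (ℓ ^ Fintype.card ι - 1) * B := by
  classical
  have : Fact ℓ.Prime := ⟨hℓ⟩
  set K := Fintype.card ι with hK
  -- double counting
  have hdc : ∑ a : ι → ZMod ℓ, ((T.filter fun x => ∑ i, a i * w x i = 0).card : ℤ) =
      ∑ x ∈ T, (((Finset.univ : Finset (ι → ZMod ℓ)).filter
        fun a => ∑ i, a i * w x i = 0).card : ℤ) := by
    simp only [Finset.card_filter, Nat.cast_sum]
    rw [Finset.sum_comm]
  have hx : ∀ x ∈ T, (ℓ : ℤ) * (((Finset.univ : Finset (ι → ZMod ℓ)).filter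
        fun a => ∑ i, a i * w x i = 0).card : ℤ) =
        (if w x = 0 then (ℓ : ℤ) ^ K * (ℓ - 1) else 0) + (ℓ : ℤ) ^ K := by
    intro x _
    by_cases h : w x = 0
    · rw [if_pos h]
      have h1 : (Finset.univ : Finset (ι → ZMod ℓ)).filter
        (fun a => ∑ i, a i * w x i = 0) = Finset.univ := by
        rw [Finset.filter_eq_self]
        intro a _
        simp [h]
      rw [h1, Finset.card_univ, Fintype.card_fun, ZMod.card, ← hK]
      push_cast
      ring
    · rw [if_neg h, zero_add]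
      exact_mod_cast t04_count (w x) h
  have hsum : (ℓ : ℤ) * ∑ a : ι → ZMod ℓ, ((T.filter fun x => ∑ i, a i * w x i = 0).card : ℤ) =
      ((T.filter fun x => w x = 0).card : ℤ) * ((ℓ : ℤ) ^ K * (ℓ - 1)) +
        (T.card : ℤ) * (ℓ : ℤ) ^ K := by
    rw [hdc, Finset.mul_sum, Finset.sum_congr rfl hx, Finset.sum_add_distrib, Finset.sum_const,
      nsmul_eq_mul, ← Finset.sum_filter, Finset.sum_const, nsmul_eq_mul]
  have hsplit : ∑ a : ι → ZMod ℓ, ((T.filter fun x => ∑ i, a i * w x i = 0).card : ℤ) =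
      (T.card : ℤ) + ∑ a ∈ (Finset.univ : Finset (ι → ZMod ℓ)).erase 0,
        ((T.filter fun x => ∑ i, a i * w x i = 0).card : ℤ) := by
    rw [← Finset.add_sum_erase _ _ (Finset.mem_univ (0 : ι → ZMod ℓ))]
    congr 2
    simp
  have hbound : (ℓ : ℤ) * ∑ a ∈ (Finset.univ : Finset (ι → ZMod ℓ)).erase 0,
        ((T.filter fun x => ∑ i, a i * w x i = 0).card : ℤ) ≤ ((ℓ : ℤ) ^ K - 1) * B := by
    rw [Finset.mul_sum]
    calc ∑ a ∈ (Finset.univ : Finset (ι → ZMod ℓ)).erase 0,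
          (ℓ : ℤ) * ((T.filter fun x => ∑ i, a i * w x i = 0).card : ℤ)
        ≤ ∑ _a ∈ (Finset.univ : Finset (ι → ZMod ℓ)).erase 0, B :=
          Finset.sum_le_sum fun a ha => hB a (Finset.ne_of_mem_erase ha)
      _ = ((ℓ : ℤ) ^ K - 1) * B := by
          rw [Finset.sum_const, nsmul_eq_mul, Finset.card_erase_of_mem (Finset.mem_univ _),
            Finset.card_univ, Fintype.card_fun, ZMod.card, ← hK,
            Nat.cast_sub (Nat.one_le_pow _ _ hℓ.pos)]
          push_cast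
          ring
  rw [hsplit, mul_add] at hsum
  linarith

end Pool.Agent.Lib.MP_89bcae_ag.Tw
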