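import Mathlib
import Pool.Agent.Lib.MP_89bcae_ag.Tw.T03
import Pool.Agent.Lib.MP_89bcae_ag.Tw.T04

/-!
ROW T05 (200-300 lines). COUNTING: THE NUMBER OF `α ∈ L` FOR WHICH ALL `h i (α)`, `i ∈ S`, ARE `ℓ`-TH POWERS. Compare
`Count14.count_squares`, `Count14.prod_not_const_sq` (file Count14.lean, the case `ℓ = 2`).

PROOF. `Q = card L = p ^ a * p ^ b`, `E = p ^ a * Qb + Ma`, so `ℓ * E = Q - 1` (`ℓ (p ^ a Qb + Ma) + 1 = p ^ a p ^ b`).
`Dg = ∑ i ∈ S, deg (h i)`. `T` = the `α` with all `h i (α) ≠ 0` (`card T ≥ Q - Dg`); the group `μ_ℓ(L)` is cyclic of order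
`ℓ` (`ℓ ∣ Q - 1`): let `ζ` be a generator (e.g. from `IsCyclic Lˣ`); `w α i : ZMod ℓ` with
`(h i (α)) ^ E = ζ ^ (w α i)`. If `h i (α) = u ^ ℓ ≠ 0` then `w α i = 0` (`u ^ (ℓ E) = 1`). For `a : S → ZMod ℓ`, `a ≠ 0`, the
condition `∑ a i * w α i = 0` is `f(α) ^ E = 1` for `f = (∏ i ∈ S, h i ^ (a i).val).map (algebraMap k L)`, of degree
`≤ (ℓ - 1) Dg`. `f` is not `C c * g ^ ℓ`: let `i` be the largest element of `S` with `a i ≠ 0`; the multiplicity of the
root `v i` (in `F`) in `f` is `(a i).val * rootMultiplicity (v i) (h i)` (`hvj`), not divisible by `ℓ`; whereas in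
`C c * g ^ ℓ` (nonzero) all multiplicities are divisible by `ℓ`. T03 with `ω = 1`:
`ℓ * #{α ∈ T | ..} ≤ Q + ℓ ^ 3 ((ℓ - 1) Dg + 1) p ^ b =: B`. T04 with `ι = S`, `K = card S`, `N₀`:
`N₀ (ℓ - 1) ℓ ^ K + (Q - Dg)(ℓ ^ K - ℓ) ≤ (ℓ ^ K - 1) B` hence
`N₀ (ℓ - 1) ℓ ^ K ≤ Q (ℓ - 1) + (ℓ ^ K - 1) ℓ ^ 3 ((ℓ - 1) Dg + 1) p ^ b + Dg ℓ ^ K`, and the number of `α ∈ A` is
`≤ N₀ + Dg`. Total: `ℓ ^ K * card A ≤ Q + ℓ ^ K (ℓ ^ 4 (Dg + 1) p ^ b)`.
-/

open Polynomial Finset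

namespace Pool.Agent.Lib.MP_89bcae_ag.Tw

/-- there is a primitive root of unity of order `ℓ` -/
theorem t05_prim {L : Type*} [Field L] [Fintype L] {ℓ E : ℕ} (hℓ : 0 < ℓ)
    (hE : Fintype.card L = ℓ * E + 1) : ∃ ζ : L, IsPrimitiveRoot ζ ℓ := by
  classical
  obtain ⟨γ, hγ⟩ := IsCyclic.exists_generator (α := Lˣ)
  have h1 : orderOf γ = ℓ * E := by
    rw [orderOf_eq_card_of_forall_mem_zpowers hγ, Nat.card_eq_fintype_card, Fintype.card_units, hE]
    omega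
  have h2 : IsPrimitiveRoot γ (ℓ * E) := by
    rw [← h1]
    exact IsPrimitiveRoot.orderOf γ
  have hE0 : 0 < E := by
    rcases Nat.eq_zero_or_pos E with h | h
    · have h3 := Fintype.one_lt_card (α := L)
      rw [hE, h] at h3
      omega
    · exact h
  have h3 : IsPrimitiveRoot (γ ^ E) ℓ := h2.pow (Nat.mul_pos hℓ hE0) (mul_comm ℓ E)
  refine ⟨((γ ^ E : Lˣ) : L), ?_⟩
  exact IsPrimitiveRoot.coe_units_iff.mpr h3

/-- a polynomial with a root of multiplicity prime to `ℓ` is not a constant times an `ℓ`-th power -/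
theorem t05_not_power {L F : Type*} [Field L] [Field F] [Algebra L F] {ℓ : ℕ} {H : L[X]} {v : F}
    (h : ¬ ℓ ∣ (H.map (algebraMap L F)).rootMultiplicity v) :
    ¬ ∃ (c : L) (g : L[X]), H = C c * g ^ ℓ := by
  classical
  rintro ⟨c, g, rfl⟩
  rcases eq_or_ne (C c * g ^ ℓ) 0 with h0 | h0
  · rw [h0] at h
    simp at h
  · have h1 : (C c * g ^ ℓ).map (algebraMap L F) ≠ 0 :=
      (Polynomial.map_ne_zero_iff (algebraMap L F).injective).2 h0
    rw [Polynomial.map_mul, map_C, Polynomial.map_pow] at h1 h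
    rw [rootMultiplicity_mul h1, rootMultiplicity_C, zero_add] at h
    have h2 := right_ne_zero_of_mul h1
    apply h
    rw [← count_roots, roots_pow, Multiset.count_nsmul]
    exact dvd_mul_right _ _

/-- the products are not constants times `ℓ`-th powers -/
theorem t05_prod {k L F : Type*} [Field k] [Field L] [Field F] [Algebra k L] [Algebra L F]
    [Algebra k F] [IsScalarTower k L F] {ℓ : ℕ} (hℓ : ℓ.Prime) {h : ℕ → k[X]} {v : ℕ → F}
    {S : Finset ℕ} (h0 : ∀ i ∈ S, h i ≠ 0)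
    (hv : ∀ i ∈ S, ¬ ℓ ∣ ((h i).map (algebraMap k F)).rootMultiplicity (v i))
    (hvj : ∀ i ∈ S, ∀ j ∈ S, j < i → ¬ ((h j).map (algebraMap k F)).IsRoot (v i))
    {e : ℕ → ℕ} (he : ∀ i ∈ S, e i < ℓ) (hne : ∃ i ∈ S, e i ≠ 0) :
    ¬ ∃ (c : L) (g : L[X]), (∏ i ∈ S, h i ^ e i).map (algebraMap k L) = C c * g ^ ℓ := by
  classical
  obtain ⟨J, hJ⟩ : ∃ J : Finset ℕ, J = S.filter (fun i => e i ≠ 0) := ⟨_, rfl⟩
  have hJm : ∀ i, i ∈ J ↔ i ∈ S ∧ e i ≠ 0 := by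
    intro i
    rw [hJ, mem_filter]
  have hJne : J.Nonempty := by
    obtain ⟨i, hi, hei⟩ := hne
    exact ⟨i, (hJm i).mpr ⟨hi, hei⟩⟩
  obtain ⟨i, hi⟩ : ∃ i : ℕ, i = J.max' hJne := ⟨_, rfl⟩
  have hiJ : i ∈ J := by rw [hi]; exact J.max'_mem hJne
  obtain ⟨hiS, hei⟩ := (hJm i).mp hiJ
  apply t05_not_power (F := F) (v := v i)
  rw [Polynomial.map_map, ← IsScalarTower.algebraMap_eq,
    ← mul_prod_erase S (fun i => h i ^ e i) hiS, Polynomial.map_mul]
  have hne1 : ∀ j ∈ S, h j ^ e j ≠ 0 := fun j hj => pow_ne_zero _ (h0 j hj)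
  have hne2 : ∏ j ∈ S.erase i, h j ^ e j ≠ 0 :=
    prod_ne_zero_iff.2 fun j hj => hne1 j (mem_of_mem_erase hj)
  have hne' : (h i ^ e i).map (algebraMap k F) *
      (∏ j ∈ S.erase i, h j ^ e j).map (algebraMap k F) ≠ 0 :=
    mul_ne_zero ((Polynomial.map_ne_zero_iff (algebraMap k F).injective).2 (hne1 i hiS))
      ((Polynomial.map_ne_zero_iff (algebraMap k F).injective).2 hne2)
  rw [rootMultiplicity_mul hne']
  have h2 : ((∏ j ∈ S.erase i, h j ^ e j).map (algebraMap k F)).rootMultiplicity (v i) = 0 := by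
    apply rootMultiplicity_eq_zero
    rw [Polynomial.map_prod, IsRoot.def, eval_prod]
    apply prod_ne_zero_iff.2
    intro j hj
    have hj' := mem_of_mem_erase hj
    rw [Polynomial.map_pow, eval_pow]
    by_cases hej : e j = 0
    · rw [hej, pow_zero]
      exact one_ne_zero
    · apply pow_ne_zero
      have hjJ : j ∈ J := (hJm j).mpr ⟨hj', hej⟩
      have hle : j ≤ i := by rw [hi]; exact J.le_max' j hjJ
      exact hvj i hiS j hj' (lt_of_le_of_ne hle (ne_of_mem_erase hj))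
  rw [h2, add_zero, Polynomial.map_pow, ← count_roots, roots_pow, Multiset.count_nsmul, count_roots]
  intro hdvd
  rcases hℓ.dvd_mul.mp hdvd with h3 | h3
  · exact hei (Nat.eq_zero_of_dvd_of_lt h3 (he i hiS))
  · exact hv i hiS h3

/-- the final computation -/
theorem t05_arith {ℓ X N Dg Q P T AA : ℤ} (hℓ : 2 ≤ ℓ) (hX : ℓ ≤ X) (hP : 1 ≤ P)
    (hDg : 0 ≤ Dg) (hT : Q - Dg ≤ T) (hAA : AA ≤ N + Dg)
    (h : N * ((ℓ - 1) * X) + T * (X - ℓ) ≤ (X - 1) * (Q + ℓ ^ 3 * ((ℓ - 1) * Dg + 1) * P)) :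
    X * AA ≤ Q + X * (ℓ ^ 4 * (Dg + 1) * P) := by
  have hX0 : 0 < X := by linarith
  have h1 : (Q - Dg) * (X - ℓ) ≤ T * (X - ℓ) := mul_le_mul_of_nonneg_right hT (by linarith)
  have hR : 0 ≤ ℓ ^ 3 * ((ℓ - 1) * Dg + 1) * P := by
    have : 0 ≤ (ℓ - 1) * Dg := mul_nonneg (by linarith) hDg
    positivity
  have h2 : N * ((ℓ - 1) * X) ≤ Q * (ℓ - 1) + X * (ℓ ^ 3 * ((ℓ - 1) * Dg + 1) * P) + Dg * X := by
    nlinarith
  have h3 : ℓ ^ 3 * ((ℓ - 1) * Dg + 1) * P + Dg + (ℓ - 1) * Dg ≤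
      (ℓ - 1) * (ℓ ^ 4 * (Dg + 1) * P) := by
    have e1 : (ℓ - 1) * (ℓ ^ 4 * (Dg + 1) * P) - ℓ ^ 3 * ((ℓ - 1) * Dg + 1) * P =
        ℓ ^ 3 * P * ((ℓ - 1) ^ 2 * Dg + (ℓ * (ℓ - 1) - 1)) := by ring
    have e2 : Dg ≤ (ℓ - 1) ^ 2 * Dg := by nlinarith [mul_nonneg hDg (by nlinarith : 0 ≤ (ℓ - 1) ^ 2 - 1)]
    have e3 : 0 ≤ ℓ * (ℓ - 1) - 1 := by nlinarith
    have e4 : ℓ ≤ ℓ ^ 3 * P := by
      have : ℓ ≤ ℓ ^ 3 := by nlinarith [sq_nonneg ℓ, sq_nonneg (ℓ - 1)]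
      nlinarith [pow_pos (by linarith : 0 < ℓ) 3]
    have e5 : ℓ * Dg ≤ ℓ ^ 3 * P * ((ℓ - 1) ^ 2 * Dg + (ℓ * (ℓ - 1) - 1)) := by
      calc ℓ * Dg ≤ ℓ * ((ℓ - 1) ^ 2 * Dg + (ℓ * (ℓ - 1) - 1)) :=
            mul_le_mul_of_nonneg_left (by linarith) (by linarith)
        _ ≤ _ := mul_le_mul_of_nonneg_right e4 (by nlinarith)
    linarith
  have h4 : (ℓ - 1) * (X * AA) ≤ (ℓ - 1) * (Q + X * (ℓ ^ 4 * (Dg + 1) * P)) := by
    have c1 : (ℓ - 1) * (X * AA) ≤ (ℓ - 1) * (X * (N + Dg)) :=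
      mul_le_mul_of_nonneg_left (mul_le_mul_of_nonneg_left hAA hX0.le) (by linarith)
    have c2 := mul_le_mul_of_nonneg_left h3 hX0.le
    nlinarith
  exact le_of_mul_le_mul_left h4 (by linarith)

theorem count_powers {k L F : Type*} [Field k] [Field L] [Field F] [Algebra k L] [Algebra L F]
    [Algebra k F] [IsScalarTower k L F] [Fintype L] {p : ℕ} [Fact p.Prime] [CharP L p]
    {ℓ a b Ma Qb : ℕ} (hℓ : ℓ.Prime) (hab : a ≤ b) (ha : p ^ a = ℓ * Ma + 1)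
    (hb : p ^ b = ℓ * Qb + 1) (hcard : Fintype.card L = p ^ a * p ^ b)
    {h : ℕ → k[X]} {v : ℕ → F} {S : Finset ℕ} (h0 : ∀ i ∈ S, h i ≠ 0)
    (hv : ∀ i ∈ S, ¬ ℓ ∣ ((h i).map (algebraMap k F)).rootMultiplicity (v i))
    (hvj : ∀ i ∈ S, ∀ j ∈ S, j < i → ¬ ((h j).map (algebraMap k F)).IsRoot (v i))
    {A : Finset L} (hA : ∀ α ∈ A, ∀ i ∈ S, ∃ u, u ^ ℓ = aeval α (h i)) :
    ℓ ^ S.card * A.card ≤ Fintype.card L +
      ℓ ^ S.card * (ℓ ^ 4 * ((∑ i ∈ S, (h i).natDegree) + 1) * p ^ b) := by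
  classical
  have hp : p.Prime := Fact.out
  have hℓ2 := hℓ.two_le
  have hne : NeZero ℓ := ⟨hℓ.ne_zero⟩
  have hpb : 1 ≤ p ^ b := Nat.one_le_pow _ _ hp.pos
  rcases S.eq_empty_or_nonempty with hSe | hSne
  · subst hSe
    have h1 : A.card ≤ Fintype.card L := card_le_univ A
    simp only [card_empty, pow_zero, one_mul]
    omega
  obtain ⟨E, hE⟩ : ∃ E : ℕ, E = p ^ a * Qb + Ma := ⟨_, rfl⟩
  have hQE : Fintype.card L = ℓ * E + 1 := by
    rw [hcard, hb, hE]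
    have : p ^ a * (ℓ * Qb + 1) = ℓ * (p ^ a * Qb) + p ^ a := by ring
    rw [this, ha]
    ring
  obtain ⟨Dg, hDg⟩ : ∃ Dg : ℕ, Dg = ∑ i ∈ S, (h i).natDegree := ⟨_, rfl⟩
  rw [← hDg]
  obtain ⟨ζ, hζ⟩ := t05_prim (L := L) hℓ.pos hQE
  -- the index of a nonzero element
  have hW : ∀ x : L, x ≠ 0 → ∃ w : ℕ, ζ ^ w = x ^ E := by
    intro x hx
    have h1 : (x ^ E) ^ ℓ = 1 := by
      rw [← pow_mul]
      have h2 := FiniteField.pow_card_sub_one_eq_one x hx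
      rw [hQE] at h2
      rw [mul_comm]
      exact h2
    obtain ⟨i, -, hi⟩ := hζ.eq_pow_of_pow_eq_one h1
    exact ⟨i, hi⟩
  choose! W hW using hW
  -- the elements where nothing vanishes
  obtain ⟨P, hP⟩ : ∃ P : L → Prop, ∀ α, P α ↔ ∀ i ∈ S, aeval α (h i) ≠ 0 :=
    ⟨fun α => ∀ i ∈ S, aeval α (h i) ≠ 0, fun _ => Iff.rfl⟩
  have hzero : ∀ B : Finset L, B.card ≤ (B.filter P).card + Dg := by
    intro B
    have h1 : B ⊆ B.filter P ∪ S.biUnion fun i => (univ.filter fun α : L => aeval α (h i) = 0) := by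
      intro α hα
      by_cases hz : ∀ i ∈ S, aeval α (h i) ≠ 0
      · exact mem_union_left _ (mem_filter.2 ⟨hα, (hP α).2 hz⟩)
      · push Not at hz
        obtain ⟨i, hi, hz⟩ := hz
        exact mem_union_right _ (mem_biUnion.2 ⟨i, hi, mem_filter.2 ⟨mem_univ _, hz⟩⟩)
    refine (card_le_card h1).trans ((card_union_le _ _).trans (Nat.add_le_add_left ?_ _))
    rw [hDg]
    refine card_biUnion_le.trans (sum_le_sum fun i hi => ?_)
    have h2 : ((h i).map (algebraMap k L)).natDegree = (h i).natDegree := natDegree_map _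
    rw [← h2]
    apply card_le_degree_of_subset_roots
    intro α hα
    rw [mem_val, mem_filter] at hα
    rw [mem_roots ((Polynomial.map_ne_zero_iff (algebraMap k L).injective).2 (h0 i hi)), IsRoot.def,
      eval_map_algebraMap]
    exact hα.2
  obtain ⟨T, hT⟩ : ∃ T : Finset L, T = univ.filter P := ⟨_, rfl⟩
  have hTm : ∀ α, α ∈ T ↔ ∀ i ∈ S, aeval α (h i) ≠ 0 := by
    intro α
    rw [hT, mem_filter, hP]
    simp
  have hTcard : Fintype.card L ≤ T.card + Dg := by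
    rw [hT, ← card_univ]
    exact hzero univ
  -- the characters
  obtain ⟨w, hw⟩ : ∃ w : L → S → ZMod ℓ, w = fun α (i : S) => ((W (aeval α (h (i : ℕ))) : ℕ) : ZMod ℓ) :=
    ⟨_, rfl⟩
  have key := averaging (ι := S) hℓ T w
    (B := ((Fintype.card L + ℓ ^ 3 * ((ℓ - 1) * Dg + 1) * p ^ b : ℕ) : ℤ)) (by
      intro c hc
      obtain ⟨e, he⟩ : ∃ e : ℕ → ℕ, e = fun i => if hi : i ∈ S then (c ⟨i, hi⟩).val else 0 :=
        ⟨_, rfl⟩
      have he1 : ∀ i : S, e i = (c i).val := by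
        intro i
        rw [he]
        simp
      have he2 : ∀ i ∈ S, e i < ℓ := by
        intro i hi
        rw [he1 ⟨i, hi⟩]
        exact ZMod.val_lt _
      have he3 : ∃ i ∈ S, e i ≠ 0 := by
        by_contra hcon
        push Not at hcon
        apply hc
        funext i
        have h1 := hcon i i.2
        rw [he1 i] at h1
        exact (ZMod.val_eq_zero _).mp h1
      have hf := t05_prod (L := L) hℓ h0 hv hvj he2 he3
      obtain ⟨f, hfd⟩ : ∃ f : L[X], f = (∏ i ∈ S, h i ^ e i).map (algebraMap k L) := ⟨_, rfl⟩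
      rw [← hfd] at hf
      have hdeg : f.natDegree ≤ (ℓ - 1) * Dg := by
        rw [hfd, natDegree_map, hDg, mul_sum]
        refine (natDegree_prod_le _ _).trans (sum_le_sum fun i hi => ?_)
        refine natDegree_pow_le.trans (Nat.mul_le_mul_right _ ?_)
        have := he2 i hi
        omega
      have hcb := count_bound hℓ hab ha hb hcard hf (one_ne_zero (α := L))
      rw [← hE] at hcb
      have hsub : (T.filter fun x => ∑ i, c i * w x i = 0) ⊆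
          univ.filter fun x : L => (f.eval x) ^ E = 1 := by
        intro α hα
        rw [mem_filter] at hα
        obtain ⟨hαT, hα0⟩ := hα
        rw [hTm] at hαT
        rw [mem_filter]
        refine ⟨mem_univ _, ?_⟩
        have h1 : f.eval α = ∏ i ∈ S, (aeval α (h i)) ^ e i := by
          rw [hfd, Polynomial.map_prod, eval_prod]
          refine prod_congr rfl fun i _ => ?_
          rw [Polynomial.map_pow, eval_pow, eval_map_algebraMap]
        have h2 : (f.eval α) ^ E = ζ ^ (∑ i ∈ S, e i * W (aeval α (h i))) := by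
          rw [h1, ← prod_pow, ← prod_pow_eq_pow_sum]
          refine prod_congr rfl fun i hi => ?_
          rw [mul_comm (e i), pow_mul, hW _ (hαT i hi), ← pow_mul, ← pow_mul, mul_comm]
        have h3 : ℓ ∣ ∑ i ∈ S, e i * W (aeval α (h i)) := by
          rw [← ZMod.natCast_eq_zero_iff, ← sum_coe_sort S (fun i => e i * W (aeval α (h i))),
            ← hα0]
          push_cast
          refine sum_congr rfl fun i _ => ?_
          rw [hw, he1 i, ZMod.natCast_zmod_val]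
        rw [h2]
        exact (hζ.pow_eq_one_iff_dvd _).mpr h3
      have h4 : ℓ * (T.filter fun x => ∑ i, c i * w x i = 0).card ≤
          Fintype.card L + ℓ ^ 3 * ((ℓ - 1) * Dg + 1) * p ^ b := by
        refine (Nat.mul_le_mul_left _ (card_le_card hsub)).trans (hcb.trans ?_)
        refine Nat.add_le_add_left (Nat.mul_le_mul_right _ (Nat.mul_le_mul_left _ ?_)) _
        omega
      exact_mod_cast h4)
  rw [Fintype.card_coe] at key
  -- the members of `A`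
  have hAle : A.card ≤ (T.filter fun x => w x = 0).card + Dg := by
    refine (hzero A).trans (Nat.add_le_add_right (card_le_card ?_) _)
    intro α hα
    rw [mem_filter, hP] at hα
    rw [mem_filter, hTm]
    refine ⟨hα.2, ?_⟩
    funext i
    obtain ⟨u, hu⟩ := hA α hα.1 i i.2
    have h1 : aeval α (h i) ≠ 0 := hα.2 i i.2
    have h2 : ζ ^ W (aeval α (h i)) = 1 := by
      rw [hW _ h1, ← hu, ← pow_mul]
      have hu0 : u ≠ 0 := by
        rintro rfl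
        rw [zero_pow hℓ.ne_zero] at hu
        exact h1 hu.symm
      have h3 := FiniteField.pow_card_sub_one_eq_one u hu0
      rw [hQE] at h3
      exact h3
    rw [hw]
    show ((W (aeval α (h i)) : ℕ) : ZMod ℓ) = 0
    rw [ZMod.natCast_eq_zero_iff]
    exact (hζ.pow_eq_one_iff_dvd _).mp h2
  have hcast1 : ((ℓ - 1 : ℕ) : ℤ) = (ℓ : ℤ) - 1 := by
    rw [Nat.cast_sub (by omega)]
    norm_num
  have hXge : (ℓ : ℤ) ≤ (ℓ : ℤ) ^ S.card := by
    have h1 : ℓ ^ 1 ≤ ℓ ^ S.card := Nat.pow_le_pow_right (by omega) hSne.card_pos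
    rw [pow_one] at h1
    exact_mod_cast h1
  have hfin := t05_arith (ℓ := (ℓ : ℤ)) (X := (ℓ : ℤ) ^ S.card)
    (N := ((T.filter fun x => w x = 0).card : ℤ)) (Dg := (Dg : ℤ)) (Q := (Fintype.card L : ℤ))
    (P := (p : ℤ) ^ b) (T := (T.card : ℤ)) (AA := (A.card : ℤ)) (by exact_mod_cast hℓ2) hXge
    (by exact_mod_cast hpb) (Nat.cast_nonneg _) (by
      have : (Fintype.card L : ℤ) ≤ T.card + Dg := by exact_mod_cast hTcard
      linarith) (by exact_mod_cast hAle) (by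
      push_cast at key
      rw [hcast1] at key
      exact key)
  exact_mod_cast hfin

end Pool.Agent.Lib.MP_89bcae_ag.Tw
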