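import Mathlib
import Pool.Agent.Lib.MP_89bcae_ag.Frob14

open Polynomial Finset

namespace Pool.Agent.Lib.MP_89bcae_ag.Tw

open Pool.Agent.Lib.MP_89bcae_ag.Frob14

/-- the polynomial of the row over `F` -/
noncomputable def t06_HF {k : Type*} (F : Type*) [Field k] [Fintype k] [Field F] [Algebra k F]
    (ℓ : ℕ) (g : k[X]) (i : ℕ) : F[X] :=
  ∏ c ∈ fixS k F i, ((X - C (aeval c g)) * (X - C c) ^ (ℓ - 1))

theorem t06_HF_map_frob {k F : Type*} [Field k] [Fintype k] [Field F] [Algebra k F]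
    (ℓ : ℕ) (g : k[X]) {i : ℕ} (hi : 0 < i) :
    (t06_HF F ℓ g i).map (FiniteField.frobeniusAlgHom k F : F →+* F) = t06_HF F ℓ g i := by
  classical
  unfold t06_HF
  rw [Polynomial.map_prod]
  refine prod_bij (fun c _ => c ^ Fintype.card k) ?_ ?_ ?_ ?_
  · intro c hc
    rw [mem_fixS hi] at hc ⊢
    rw [← pow_mul, mul_comm, pow_mul, hc]
  · intro c _ c' _ h
    exact frob_injective (k := k) h
  · intro c hc
    have hinj : Set.InjOn (fun y : F => y ^ Fintype.card k) (fixS k F i : Set F) :=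
      (frob_injective (k := k)).injOn
    have hmaps : Set.MapsTo (fun y : F => y ^ Fintype.card k) (fixS k F i : Set F) (fixS k F i) := by
      intro y hy
      rw [mem_coe, mem_fixS hi] at hy ⊢
      simp only
      rw [← pow_mul, mul_comm, pow_mul, hy]
    obtain ⟨y, hy, hyc⟩ := (Finset.surjOn_of_injOn_of_card_le _ hmaps hinj le_rfl) hc
    exact ⟨y, hy, hyc⟩
  · intro c _
    have h1 := aeval_pow_q (F := F) g c 1
    rw [pow_one] at h1
    rw [Polynomial.map_mul, Polynomial.map_pow, Polynomial.map_sub, Polynomial.map_sub, map_X,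
      map_C, map_C, h1]
    simp

theorem t06_HF_monic {k F : Type*} [Field k] [Fintype k] [Field F] [Algebra k F]
    (ℓ : ℕ) (g : k[X]) (i : ℕ) : (t06_HF F ℓ g i).Monic := by
  apply monic_prod_of_monic
  intro c _
  exact (monic_X_sub_C _).mul ((monic_X_sub_C _).pow _)

theorem t06_HF_natDegree {k F : Type*} [Field k] [Fintype k] [Field F] [Algebra k F]
    [IsAlgClosed F] {ℓ : ℕ} (hℓ : 2 ≤ ℓ) (g : k[X]) {i : ℕ} (hi : 0 < i) :
    (t06_HF F ℓ g i).natDegree = ℓ * Fintype.card k ^ i := by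
  unfold t06_HF
  rw [natDegree_prod_of_monic _ _ fun c _ => (monic_X_sub_C _).mul ((monic_X_sub_C _).pow _)]
  rw [sum_congr rfl (g := fun _ => ℓ) fun c _ => by
    rw [(monic_X_sub_C _).natDegree_mul ((monic_X_sub_C _).pow _), (monic_X_sub_C _).natDegree_pow,
      natDegree_X_sub_C, natDegree_X_sub_C]
    omega]
  rw [sum_const, card_fixS hi, smul_eq_mul, mul_comm]

theorem t06_exists {k F : Type*} [Field k] [Fintype k] [Field F] [Algebra k F]
    (ℓ : ℕ) (g : k[X]) {i : ℕ} (hi : 0 < i) :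
    ∃ h : k[X], h.map (algebraMap k F) = t06_HF F ℓ g i := by
  have : t06_HF F ℓ g i ∈ lifts (algebraMap k F) := by
    rw [lifts_iff_coeff_lifts]
    intro n
    have h1 := congrArg (fun P : F[X] => P.coeff n) (t06_HF_map_frob (F := F) ℓ g hi)
    simp only [coeff_map] at h1
    have h2 : (t06_HF F ℓ g i).coeff n ^ Fintype.card k = (t06_HF F ℓ g i).coeff n := by
      simpa using h1
    exact mem_range_of_pow_eq h2
  exact (mem_lifts _).1 this

theorem t06_HF_root {k F : Type*} [Field k] [Fintype k] [Field F] [Algebra k F]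
    {ℓ : ℕ} {g : k[X]} {j : ℕ} (hj : 0 < j) {v : F} (hv : (t06_HF F ℓ g j).IsRoot v) :
    v ^ (Fintype.card k ^ j) = v := by
  rw [IsRoot.def, t06_HF, eval_prod, prod_eq_zero_iff] at hv
  obtain ⟨c, hc, h⟩ := hv
  rw [mem_fixS hj] at hc
  rw [eval_mul, mul_eq_zero] at h
  rcases h with h | h
  · simp only [eval_sub, eval_X, eval_C, sub_eq_zero] at h
    rw [h, ← aeval_pow_q, hc]
  · rw [eval_pow] at h
    have h3 : eval v (X - C c) = 0 := eq_zero_of_pow_eq_zero h
    simp only [eval_sub, eval_X, eval_C, sub_eq_zero] at h3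
    rw [h3, hc]

theorem t06_HF_rootMultiplicity {k F : Type*} [Field k] [Fintype k] [Field F] [Algebra k F]
    {ℓ : ℕ} {g : k[X]} {i : ℕ} (hi : 0 < i) {v : F}
    (hv : v ^ (Fintype.card k ^ i) = v)
    (hmiss : ∀ x : F, x ^ (Fintype.card k ^ i) = x → aeval x g ≠ v) :
    (t06_HF F ℓ g i).rootMultiplicity v = ℓ - 1 := by
  classical
  have hvS : v ∈ fixS k F i := (mem_fixS hi).2 hv
  have h0 := (t06_HF_monic (F := F) ℓ g i).ne_zero
  have e : t06_HF F ℓ g i = (X - C v) ^ (ℓ - 1) * ((X - C (aeval v g)) *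
      ∏ c ∈ (fixS k F i).erase v, ((X - C (aeval c g)) * (X - C c) ^ (ℓ - 1))) := by
    rw [t06_HF, ← mul_prod_erase _ _ hvS]
    ring
  rw [e] at h0 ⊢
  rw [rootMultiplicity_mul h0, rootMultiplicity_X_sub_C_pow]
  rw [rootMultiplicity_eq_zero, add_zero]
  rw [IsRoot.def, eval_mul, eval_prod]
  apply mul_ne_zero
  · simp only [eval_sub, eval_X, eval_C]
    exact sub_ne_zero.2 (hmiss v hv).symm
  · apply prod_ne_zero_iff.2
    intro c hc
    rw [mem_erase, mem_fixS hi] at hc
    rw [eval_mul, eval_pow]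
    apply mul_ne_zero
    · simp only [eval_sub, eval_X, eval_C]
      exact sub_ne_zero.2 (hmiss c hc.2).symm
    · apply pow_ne_zero
      simp only [eval_sub, eval_X, eval_C]
      exact sub_ne_zero.2 (Ne.symm hc.1)

theorem exists_H {k : Type*} (F : Type*) [Field k] [Fintype k] [Field F] [Algebra k F]
    [IsAlgClosed F] {ℓ : ℕ} (hℓ : 2 ≤ ℓ) (g : k[X]) :
    ∃ h : ℕ → k[X], ∀ i, 0 < i → (h i) ≠ 0 ∧ (h i).natDegree = ℓ * Fintype.card k ^ i ∧
      (∀ α : F, aeval α (h i) = ∏ c ∈ fixS k F i, ((α - aeval c g) * (α - c) ^ (ℓ - 1))) ∧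
      (∀ v : F, ((h i).map (algebraMap k F)).IsRoot v → v ^ (Fintype.card k ^ i) = v) ∧
      ∀ v : F, v ^ (Fintype.card k ^ i) = v →
        (∀ x : F, x ^ (Fintype.card k ^ i) = x → aeval x g ≠ v) →
        ((h i).map (algebraMap k F)).rootMultiplicity v = ℓ - 1 := by
  classical
  refine ⟨fun i => if hi : 0 < i then (t06_exists (F := F) ℓ g hi).choose else 1, ?_⟩
  intro i hi
  simp only [dif_pos hi]
  have hmap := (t06_exists (F := F) ℓ g hi).choose_spec
  set h := (t06_exists (F := F) ℓ g hi).choose with hh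
  refine ⟨?_, ?_, ?_, ?_, ?_⟩
  · intro h0
    rw [h0, Polynomial.map_zero] at hmap
    exact (t06_HF_monic (F := F) ℓ g i).ne_zero hmap.symm
  · rw [← natDegree_map (algebraMap k F), hmap, t06_HF_natDegree hℓ g hi]
  · intro α
    rw [← eval_map_algebraMap, hmap, t06_HF, eval_prod]
    simp
  · intro v hv
    rw [hmap] at hv
    exact t06_HF_root hi hv
  · intro v hv hmiss
    rw [hmap]
    exact t06_HF_rootMultiplicity hi hv hmiss

end Pool.Agent.Lib.MP_89bcae_ag.Tw
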