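import Mathlib
import Pool.Agent.Lib.MP_89bcae_ag.Dens14

/-!
An element of exact degree `s` which is not a value of `g` (Hermite).
-/

open Polynomial Finset

namespace Pool.Agent.Lib.MP_89bcae_ag.Tw

open Pool.Agent.Lib.MP_89bcae_ag.Frob14

section t07

variable {k F : Type*} [Field k] [Fintype k] [Field F] [Algebra k F] [IsAlgClosed F]

theorem t07_sum_pow_lt {s : ℕ} (hs : 0 < s) {i : ℕ} (hi : i < Fintype.card k ^ s - 1) :
    ∑ x ∈ fixS k F s, x ^ i = 0 := by
  have hfin := finite_fixI (k := k) (F := F) hs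
  let _ : Fintype (fixI k F s) := Fintype.ofFinite _
  have hcard : Fintype.card (fixI k F s) = Fintype.card k ^ s := by
    rw [← Nat.card_eq_fintype_card, natCard_fixI hs]
  have h1 := FiniteField.sum_pow_lt_card_sub_one (fixI k F s) i (by rw [hcard]; exact hi)
  have h2 := congrArg (fun z : fixI k F s => (z : F)) h1
  have h3 : ∑ x ∈ fixS k F s, x ^ i = ∑ z : fixI k F s, (z : F) ^ i := by
    symm
    refine Finset.sum_bij (fun z _ => (z : F)) ?_ ?_ ?_ ?_
    · intro z _
      exact (mem_fixS hs).2 (mem_fixI.1 z.2)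
    · intro a _ b _ h
      exact Subtype.ext h
    · intro b hb
      exact ⟨⟨b, mem_fixI.2 ((mem_fixS hs).1 hb)⟩, mem_univ _, rfl⟩
    · intro z _
      rfl
  rw [h3]
  simpa using h2

theorem t07_sum_pow_eq {s : ℕ} (hs : 0 < s) :
    ∑ x ∈ fixS k F s, x ^ (Fintype.card k ^ s - 1) = (-1 : F) := by
  classical
  have hQ : 1 < Fintype.card k ^ s := one_lt_q_pow hs
  have h0 : (0 : F) ∈ fixS k F s := by
    rw [mem_fixS hs, zero_pow (by omega)]
  have hz : (0 : F) ^ (Fintype.card k ^ s - 1) = 0 := zero_pow (by omega)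
  rw [← Finset.add_sum_erase _ _ h0, hz, zero_add]
  have h1 : ∀ x ∈ (fixS k F s).erase 0, x ^ (Fintype.card k ^ s - 1) = (1 : F) := by
    intro x hx
    rw [mem_erase, mem_fixS hs] at hx
    have h2 : x * x ^ (Fintype.card k ^ s - 1) = x * 1 := by
      rw [← pow_succ', Nat.sub_add_cancel hQ.le, hx.2, mul_one]
    exact mul_left_cancel₀ hx.1 h2
  rw [Finset.sum_congr rfl h1, Finset.sum_const, Finset.card_erase_of_mem h0, card_fixS hs,
    nsmul_eq_mul, mul_one, Nat.cast_sub hQ.le, Nat.cast_one, Nat.cast_pow]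
  have h3 : (Fintype.card k : F) = 0 := by
    have h4 : (Fintype.card k : k) = 0 := FiniteField.cast_card_eq_zero k
    rw [← map_natCast (algebraMap k F), h4, map_zero]
  rw [h3, zero_pow hs.ne', zero_sub]

theorem t07_sum_eval {s : ℕ} (hs : 0 < s) {ψ : F[X]} (hψ : ψ.natDegree < Fintype.card k ^ s) :
    ∑ x ∈ fixS k F s, ψ.eval x = -(ψ.coeff (Fintype.card k ^ s - 1)) := by
  have hQ : 1 < Fintype.card k ^ s := one_lt_q_pow hs
  have h1 : ∀ x ∈ fixS k F s, ψ.eval x =
      ∑ i ∈ range (Fintype.card k ^ s), ψ.coeff i * x ^ i := fun x _ =>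
    eval_eq_sum_range' hψ x
  rw [Finset.sum_congr rfl h1, Finset.sum_comm]
  have h2 : Fintype.card k ^ s = (Fintype.card k ^ s - 1) + 1 := by omega
  rw [h2, Finset.sum_range_succ, Finset.sum_eq_zero, zero_add, ← Finset.mul_sum, Nat.add_sub_cancel,
    t07_sum_pow_eq hs, mul_neg, mul_one]
  intro i hi
  rw [mem_range] at hi
  rw [← Finset.mul_sum, t07_sum_pow_lt hs hi, mul_zero]

end t07

theorem exists_special {k F : Type*} [Field k] [Fintype k] [Field F] [Algebra k F] [IsAlgClosed F]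
    {g : k[X]} {m : ℕ} (hg : g.Monic) (hdeg : g.natDegree = m) (hm : 2 ≤ m) {s : ℕ} (hs : 0 < s)
    (hdvd : m ∣ Fintype.card k ^ s - 1)
    (hbig : m * ∑ d ∈ Icc 1 (s / 2), Fintype.card k ^ d ≤ Fintype.card k ^ s - 1) :
    ∃ v : F, v ^ (Fintype.card k ^ s) = v ∧
      (∀ x : F, x ^ (Fintype.card k ^ s) = x → aeval x g ≠ v) ∧
      ∀ j, 0 < j → j < s → v ^ (Fintype.card k ^ j) ≠ v := by
  classical
  by_contra hcon
  push Not at hcon
  have hQ : 1 < Fintype.card k ^ s := one_lt_q_pow hs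
  set Q := Fintype.card k ^ s with hQdef
  set B : Finset F := {v ∈ fixS k F s | ∃ j, 0 < j ∧ j < s ∧ v ^ (Fintype.card k ^ j) = v} with hB
  set M : Finset F := fixS k F s \ B with hM
  have hBsub : B ⊆ fixS k F s := filter_subset _ _
  have hBcard : B.card ≤ ∑ d ∈ Icc 1 (s / 2), Fintype.card k ^ d := small_card s hs
  set e := (Q - 1) / m with he
  have hem : e * m = Q - 1 := Nat.div_mul_cancel hdvd
  have hBe : B.card ≤ e := by
    rw [he, Nat.le_div_iff_mul_le (by omega), mul_comm]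
    exact (Nat.mul_le_mul_left m hBcard).trans hbig
  have helt : e < Q - 1 := Nat.div_lt_self (by omega) (by omega)
  -- the map `g` on `B` and `M`
  have hgB : ∀ b ∈ B, aeval b g ∈ B := by
    intro b hb
    rw [hB, mem_filter, mem_fixS hs] at hb ⊢
    obtain ⟨h1, j, h2, h3, h4⟩ := hb
    refine ⟨?_, j, h2, h3, ?_⟩
    · rw [← aeval_pow_q, h1]
    · rw [← aeval_pow_q, h4]
  have hMsub : M ⊆ M.image (fun x => aeval x g) := by
    intro v hv
    rw [hM, mem_sdiff] at hv
    obtain ⟨hv1, hv2⟩ := hv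
    have hv1' := (mem_fixS hs).1 hv1
    have h3 : ∃ x : F, x ^ Q = x ∧ aeval x g = v := by
      by_contra h
      push Not at h
      obtain ⟨j, h4, h5, h6⟩ := hcon v hv1' h
      exact hv2 (by rw [hB, mem_filter]; exact ⟨hv1, j, h4, h5, h6⟩)
    obtain ⟨x, hx, hxv⟩ := h3
    rw [mem_image]
    refine ⟨x, ?_, hxv⟩
    rw [hM, mem_sdiff]
    refine ⟨(mem_fixS hs).2 hx, fun hxB => hv2 ?_⟩
    rw [← hxv]
    exact hgB x hxB
  have himg : M = M.image (fun x => aeval x g) :=
    eq_of_subset_of_card_le hMsub card_image_le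
  have hinj : Set.InjOn (fun x : F => aeval x g) (M : Set F) := by
    rw [← card_image_iff, ← himg]
  -- the polynomial
  set φ : F[X] := X ^ (e - B.card) * ∏ b ∈ B, (X - C b) with hφ
  have hprod : (∏ b ∈ B, (X - C b) : F[X]).Monic := monic_prod_of_monic _ _ fun b _ =>
    monic_X_sub_C b
  have hφm : φ.Monic := (monic_X_pow _).mul hprod
  have hφd : φ.natDegree = e := by
    rw [hφ, (monic_X_pow _).natDegree_mul hprod, natDegree_X_pow,
      natDegree_prod_of_monic _ _ fun b _ => monic_X_sub_C b]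
    simp only [natDegree_X_sub_C, sum_const, smul_eq_mul, mul_one]
    omega
  have hφB : ∀ b ∈ B, φ.eval b = 0 := by
    intro b hb
    rw [hφ, eval_mul, eval_prod, prod_eq_zero hb, mul_zero]
    rw [eval_sub, eval_X, eval_C, sub_self]
  have hsplit : ∀ f : F → F, ∑ x ∈ fixS k F s, f x = ∑ x ∈ M, f x + ∑ x ∈ B, f x := by
    intro f
    rw [hM, Finset.sum_sdiff hBsub]
  have hgm : (g.map (algebraMap k F)).Monic := hg.map _
  have hgd : (g.map (algebraMap k F)).natDegree = m := by rw [natDegree_map, hdeg]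
  set ψ : F[X] := φ.comp (g.map (algebraMap k F)) with hψ
  have hψm : ψ.Monic := hφm.comp hgm (by rw [hgd]; omega)
  have hψd : ψ.natDegree = Q - 1 := by rw [hψ, natDegree_comp, hφd, hgd, hem]
  have hψe : ∀ x : F, ψ.eval x = φ.eval (aeval x g) := by
    intro x
    rw [hψ, eval_comp, eval_map_algebraMap]
  have h1 : ∑ x ∈ fixS k F s, ψ.eval x = -1 := by
    rw [t07_sum_eval hs (by omega), ← hQdef, ← hψd, hψm.coeff_natDegree]
  have h2 : ∑ x ∈ fixS k F s, φ.eval x = 0 := by
    rw [t07_sum_eval hs (by omega), ← hQdef, coeff_eq_zero_of_natDegree_lt (by omega), neg_zero]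
  have h3 : ∑ x ∈ fixS k F s, ψ.eval x = ∑ x ∈ fixS k F s, φ.eval x := by
    rw [hsplit, hsplit, Finset.sum_eq_zero (s := B) (fun b hb => hφB b hb),
      Finset.sum_eq_zero (s := B) (fun b hb => by rw [hψe]; exact hφB _ (hgB b hb)), add_zero,
      add_zero]
    conv_rhs => rw [himg]
    rw [Finset.sum_image hinj]
    exact Finset.sum_congr rfl fun x _ => hψe x
  rw [h1, h2] at h3
  exact neg_ne_zero.mpr one_ne_zero h3

end Pool.Agent.Lib.MP_89bcae_ag.Tw
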