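import Mathlib
import Pool.Agent.Lib.MP_89bcae_ag.OrbP8

/-!
The orbit of a root of `D ∘ g` under an automorphism.
-/

open Polynomial IntermediateField

namespace Pool.Agent.Lib.MP_89bcae_ag.Tw

open Pool.Agent.Lib.MP_89bcae_ag

variable {k F : Type*} [Field k] [Field F] [Algebra k F]

/-- The roots of the polynomial `D ∘ g` form an orbit of length `m n` of the automorphism `φ`, `α` is
a root of `D` and `β` one of `g - α`. -/
structure Orb (φ : F ≃ₐ[k] F) (g D : k[X]) (m n : ℕ) (α β : F) : Prop where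
  monic : g.Monic
  deg : g.natDegree = m
  mpos : 0 < m
  pos : 0 < n
  degD : D.natDegree = n
  gβ : aeval β g = α
  Dα : aeval α D = 0
  orb : ∀ γ : F, aeval γ (D.comp g) = 0 → ∃ i : ℕ, γ = (φ ^ i) β
  beta_iff : ∀ i : ℕ, (φ ^ i) β = β ↔ m * n ∣ i

/-- The points of the orbit. -/
noncomputable def ee (φ : F ≃ₐ[k] F) {N : ℕ} (β : F) (u : ZMod N) : F := (φ ^ u.val) β

namespace Orb

variable {φ : F ≃ₐ[k] F} {g D : k[X]} {m n : ℕ} {α β : F}

lemma t08_mn (h : Orb φ g D m n α β) : 0 < m * n := Nat.mul_pos h.mpos h.pos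

lemma root (h : Orb φ g D m n α β) : aeval β (D.comp g) = 0 := by
  rw [aeval_comp, h.gβ, h.Dα]

lemma ne_zero (h : Orb φ g D m n α β) : D ≠ 0 := by
  rintro rfl
  have h1 := h.degD
  have := h.pos
  rw [natDegree_zero] at h1
  omega

lemma natDegree_comp (h : Orb φ g D m n α β) : (D.comp g).natDegree = m * n := by
  rw [Polynomial.natDegree_comp, h.deg, h.degD, mul_comm]

lemma comp_ne (h : Orb φ g D m n α β) : D.comp g ≠ 0 := by
  intro h0
  have h1 := h.natDegree_comp
  rw [h0, natDegree_zero] at h1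
  have := h.t08_mn
  omega

lemma ee_natCast (h : Orb φ g D m n α β) (i : ℕ) : ee φ β (i : ZMod (m * n)) = (φ ^ i) β := by
  have : NeZero (m * n) := ⟨h.t08_mn.ne'⟩
  rw [ee, ZMod.val_natCast, autP_pow_mod φ _ ((h.beta_iff _).mpr dvd_rfl)]

lemma ee_add_natCast (h : Orb φ g D m n α β) (u : ZMod (m * n)) (i : ℕ) :
    ee φ β (u + (i : ZMod (m * n))) = (φ ^ i) (ee φ β u) := by
  have : NeZero (m * n) := ⟨h.t08_mn.ne'⟩
  have h1 : u + (i : ZMod (m * n)) = ((i + u.val : ℕ) : ZMod (m * n)) := by
    rw [Nat.cast_add, ZMod.natCast_zmod_val, add_comm]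
  rw [h1, h.ee_natCast, pow_add, AlgEquiv.mul_apply, ee]

lemma ee_add (h : Orb φ g D m n α β) (u v : ZMod (m * n)) :
    ee φ β (u + v) = (φ ^ v.val) (ee φ β u) := by
  have : NeZero (m * n) := ⟨h.t08_mn.ne'⟩
  have h1 : u + v = ((v.val + u.val : ℕ) : ZMod (m * n)) := by
    rw [Nat.cast_add, ZMod.natCast_zmod_val, ZMod.natCast_zmod_val, add_comm]
  rw [h1, h.ee_natCast, pow_add, AlgEquiv.mul_apply, ee]

lemma ee_zero (φ : F ≃ₐ[k] F) (N : ℕ) (β : F) : ee φ β (0 : ZMod N) = β := by
  rw [ee, ZMod.val_zero, pow_zero, AlgEquiv.one_apply]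

lemma ee_injective (h : Orb φ g D m n α β) :
    Function.Injective (ee φ β : ZMod (m * n) → F) := by
  have : NeZero (m * n) := ⟨h.t08_mn.ne'⟩
  intro u v huv
  rw [ee, ee, autP_pow_inj φ h.beta_iff] at huv
  apply ZMod.val_injective
  rw [Nat.ModEq, Nat.mod_eq_of_lt (ZMod.val_lt u), Nat.mod_eq_of_lt (ZMod.val_lt v)] at huv
  exact huv

lemma ee_root (h : Orb φ g D m n α β) (u : ZMod (m * n)) : aeval (ee φ β u) (D.comp g) = 0 := by
  rw [ee, aeval_autP, h.root, map_zero]

lemma ee_surj (h : Orb φ g D m n α β) {γ : F} (hγ : aeval γ (D.comp g) = 0) :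
    ∃ u : ZMod (m * n), ee φ β u = γ := by
  obtain ⟨i, rfl⟩ := h.orb γ hγ
  exact ⟨i, h.ee_natCast i⟩

lemma pow_ee (h : Orb φ g D m n α β) (u : ZMod (m * n)) :
    (φ ^ (m * n)) (ee φ β u) = ee φ β u := by
  rw [← h.ee_add_natCast, ZMod.natCast_self, add_zero]

/-- The roots of `D ∘ g` are distinct. -/
lemma separable (h : Orb φ g D m n α β) : (D.comp g).Separable := by
  classical
  have : NeZero (m * n) := ⟨h.t08_mn.ne'⟩
  have h0 := h.comp_ne
  have h0' : (D.comp g).map (algebraMap k F) ≠ 0 := (Polynomial.map_ne_zero h0)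
  have hcard : (Finset.univ.image (ee φ β : ZMod (m * n) → F)).card = m * n := by
    rw [Finset.card_image_of_injective _ h.ee_injective, Finset.card_univ, ZMod.card]
  have hsub : (Finset.univ.image (ee φ β : ZMod (m * n) → F)).val ≤
      ((D.comp g).map (algebraMap k F)).roots := by
    rw [Finset.val_le_iff_val_subset]
    intro y hy
    have hy' : y ∈ Finset.univ.image (ee φ β : ZMod (m * n) → F) := hy
    rw [Finset.mem_image] at hy'
    obtain ⟨u, -, rfl⟩ := hy'
    rw [mem_roots h0', IsRoot.def, eval_map_algebraMap]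
    exact h.ee_root u
  have hdeg : ((D.comp g).map (algebraMap k F)).natDegree = m * n := by
    rw [natDegree_map, h.natDegree_comp]
  have heq : (Finset.univ.image (ee φ β : ZMod (m * n) → F)).val =
      ((D.comp g).map (algebraMap k F)).roots := by
    apply Multiset.eq_of_le_of_card_le hsub
    rw [Finset.card_val, hcard, ← hdeg]
    exact card_roots' _
  rw [← separable_map (algebraMap k F)]
  have hsp : ((D.comp g).map (algebraMap k F)).Splits := by
    rw [splits_iff_card_roots, ← heq, Finset.card_val, hcard, hdeg]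
  rw [← nodup_roots_iff_of_splits h0' hsp, ← heq]
  exact Finset.nodup _

lemma alpha_iff (h : Orb φ g D m n α β) (i : ℕ) : (φ ^ i) α = α ↔ n ∣ i := by
  classical
  have hpos := h.pos
  have hmpos := h.mpos
  have hmn0 := h.t08_mn
  set r := Function.minimalPeriod φ α with hr
  have hit : ∀ i : ℕ, (φ ^ i) α = α ↔ r ∣ i := by
    intro i
    rw [hr, ← Function.isPeriodicPt_iff_minimalPeriod_dvd, Function.IsPeriodicPt,
      Function.IsFixedPt, ← AlgEquiv.coe_pow]
  have hgβ : ∀ i : ℕ, aeval ((φ ^ i) β) g = (φ ^ i) α := by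
    intro i
    rw [aeval_autP, h.gβ]
  have hm0 : 0 < r := by
    have h1 : (φ ^ (m * n)) α = α := by
      rw [← hgβ, (h.beta_iff _).mpr dvd_rfl, h.gβ]
    rw [hit] at h1
    exact Nat.pos_of_dvd_of_pos h1 hmn0
  -- the orbit of `α` consists of roots of `D`
  have hmn : r ≤ n := by
    have hD0 : D.map (algebraMap k F) ≠ 0 := Polynomial.map_ne_zero h.ne_zero
    have hinj : Set.InjOn (fun i : ℕ => (φ ^ i) α) (Finset.range r : Set ℕ) := by
      intro a ha b hb hab
      rw [Finset.mem_coe, Finset.mem_range] at ha hb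
      have h1 := (autP_pow_inj φ hit).mp hab
      rwa [Nat.ModEq, Nat.mod_eq_of_lt ha, Nat.mod_eq_of_lt hb] at h1
    have h2 : ((Finset.range r).image fun i : ℕ => (φ ^ i) α) ⊆
        (D.map (algebraMap k F)).roots.toFinset := by
      intro y hy
      rw [Finset.mem_image] at hy
      obtain ⟨a, -, rfl⟩ := hy
      rw [Multiset.mem_toFinset, mem_roots hD0, IsRoot.def, eval_map_algebraMap, aeval_autP, h.Dα,
        map_zero]
    have h3 := Finset.card_le_card h2
    rw [Finset.card_image_of_injOn hinj, Finset.card_range] at h3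
    calc r ≤ _ := h3
      _ ≤ Multiset.card (D.map (algebraMap k F)).roots := Multiset.toFinset_card_le _
      _ ≤ (D.map (algebraMap k F)).natDegree := card_roots' _
      _ = n := by rw [natDegree_map, h.degD]
  -- the fibre of `α` has at most `m` elements
  have hnm : n ≤ r := by
    by_contra hlt
    push Not at hlt
    have hmon : (g.map (algebraMap k F) - C α).Monic := by
      apply Monic.sub_of_left (h.monic.map _)
      rw [degree_eq_natDegree (h.monic.map (algebraMap k F)).ne_zero, h.monic.natDegree_map, h.deg]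
      exact lt_of_le_of_lt degree_C_le (by exact_mod_cast hmpos)
    have hdeg : (g.map (algebraMap k F) - C α).natDegree = m := by
      rw [natDegree_sub_C, h.monic.natDegree_map, h.deg]
    have hrm : r * m < m * n := by
      rw [mul_comm m n]
      exact (Nat.mul_lt_mul_right hmpos).mpr hlt
    have hinj : Set.InjOn (fun c : ℕ => (φ ^ (r * c)) β) (Finset.range (m + 1) : Set ℕ) := by
      intro a ha b hb hab
      rw [Finset.mem_coe, Finset.mem_range] at ha hb
      have h1 := (autP_pow_inj φ h.beta_iff).mp hab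
      have ha' : r * a ≤ r * m := Nat.mul_le_mul_left r (by omega)
      have hb' : r * b ≤ r * m := Nat.mul_le_mul_left r (by omega)
      rw [Nat.ModEq, Nat.mod_eq_of_lt (by omega), Nat.mod_eq_of_lt (by omega)] at h1
      exact Nat.eq_of_mul_eq_mul_left hm0 h1
    have h2 : ((Finset.range (m + 1)).image fun c : ℕ => (φ ^ (r * c)) β) ⊆
        (g.map (algebraMap k F) - C α).roots.toFinset := by
      intro y hy
      rw [Finset.mem_image] at hy
      obtain ⟨a, -, rfl⟩ := hy
      rw [Multiset.mem_toFinset, mem_roots hmon.ne_zero, IsRoot.def, eval_sub, eval_C,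
        eval_map_algebraMap, hgβ, (hit _).mpr (dvd_mul_right _ _), sub_self]
    have h3 := Finset.card_le_card h2
    rw [Finset.card_image_of_injOn hinj, Finset.card_range] at h3
    have h4 : m + 1 ≤ m := calc
      m + 1 ≤ _ := h3
      _ ≤ Multiset.card (g.map (algebraMap k F) - C α).roots := Multiset.toFinset_card_le _
      _ ≤ (g.map (algebraMap k F) - C α).natDegree := card_roots' _
      _ = m := hdeg
    omega
  rw [hit, le_antisymm hmn hnm]

lemma g_ee (h : Orb φ g D m n α β) (u : ZMod (m * n)) : aeval (ee φ β u) g = (φ ^ u.val) α := by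
  rw [ee, aeval_autP, h.gβ]

lemma g_ee_eq_iff (h : Orb φ g D m n α β) (u v : ZMod (m * n)) :
    aeval (ee φ β u) g = aeval (ee φ β v) g ↔
      ZMod.castHom (dvd_mul_left n m) (ZMod n) (u - v) = 0 := by
  have : NeZero (m * n) := ⟨h.t08_mn.ne'⟩
  have h1 : u = (u - v) + v := by ring
  set w := u - v with hw
  have h2 : aeval (ee φ β u) g = (φ ^ v.val) (aeval (ee φ β w) g) := by
    rw [h1, h.ee_add, aeval_autP]
  have h3 : aeval (ee φ β v) g = (φ ^ v.val) α := h.g_ee v
  rw [h2, h3, (φ ^ v.val).injective.eq_iff, h.g_ee, h.alpha_iff]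
  have h4 : ZMod.castHom (dvd_mul_left n m) (ZMod n) w = ((w.val : ℕ) : ZMod n) := by
    conv_lhs => rw [← ZMod.natCast_zmod_val w]
    rw [map_natCast]
  rw [h4, ZMod.natCast_eq_zero_iff]

end Orb

end Pool.Agent.Lib.MP_89bcae_ag.Tw
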