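import Mathlib
import Pool.Agent.Lib.MP_89bcae_ag.DefsSup
import Pool.Agent.Lib.MP_89bcae_ag.Tw.T08
import Pool.Agent.Lib.MP_89bcae_ag.Tw.T10
import Pool.Agent.Lib.MP_89bcae_ag.Tw.T11

/-!
# From a relation between the differences of the roots to `ℓ`-th powers
-/

open Polynomial Finset

namespace Pool.Agent.Lib.MP_89bcae_ag.Tw

open Pool.Agent.Lib.MP_89bcae_ag

universe u

/-- an automorphism which fixes the roots fixes the field generated by them -/
lemma t12_fix {k F : Type u} [Field k] [Field F] [Algebra k F] {σ : F ≃ₐ[k] F} {S : Set F}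
    (hS : ∀ x ∈ S, σ x = x) {x : F} (hx : x ∈ IntermediateField.adjoin k S) : σ x = x := by
  induction hx using IntermediateField.adjoin_induction with
  | mem x hx => exact hS x hx
  | algebraMap x => exact AlgEquiv.commutes σ x
  | add x y _ _ hx hy => rw [map_add, hx, hy]
  | inv x _ hx => rw [map_inv₀, hx]
  | mul x y _ _ hx hy => rw [map_mul, hx, hy]

/-- the kernel of the projection `ℤ/mn → ℤ/n` -/
lemma t12_ker {m n : ℕ} [NeZero (m * n)] (w : ZMod (m * n)) :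
    ZMod.castHom (dvd_mul_left n m) (ZMod n) w = 0 ↔
      ∃ t ∈ range m, ((n * t : ℕ) : ZMod (m * n)) = w := by
  constructor
  · intro h
    have h1 : ((w.val : ℕ) : ZMod n) = 0 := by
      rw [← h]
      conv_rhs => rw [← ZMod.natCast_zmod_val w]
      rw [map_natCast]
    rw [ZMod.natCast_eq_zero_iff] at h1
    obtain ⟨t, ht⟩ := h1
    refine ⟨t, ?_, ?_⟩
    · rw [mem_range]
      have h2 : w.val < m * n := ZMod.val_lt w
      rw [ht, mul_comm] at h2
      exact Nat.lt_of_mul_lt_mul_right h2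
    · rw [← ht, ZMod.natCast_zmod_val]
  · rintro ⟨t, -, rfl⟩
    rw [map_natCast, ZMod.natCast_eq_zero_iff]
    exact dvd_mul_right n t

/-- the classes `n t`, `t < m`, are distinct modulo `mn` -/
lemma t12_inj {m n : ℕ} (hn : 0 < n) {t t' : ℕ} (ht : t < m) (ht' : t' < m)
    (h : ((n * t : ℕ) : ZMod (m * n)) = ((n * t' : ℕ) : ZMod (m * n))) : t = t' := by
  rw [ZMod.natCast_eq_natCast_iff] at h
  have h1 : n * t < m * n := by rw [mul_comm]; exact Nat.mul_lt_mul_of_pos_right ht hn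
  have h2 : n * t' < m * n := by rw [mul_comm]; exact Nat.mul_lt_mul_of_pos_right ht' hn
  have h3 := Nat.ModEq.eq_of_lt_of_lt h h1 h2
  exact Nat.eq_of_mul_eq_mul_left hn h3

theorem exists_power_of_not_indep {k F : Type u} [Field k] [Field F] [Algebra k F] [IsAlgClosed F]
    {ℓ m j : ℕ} (hℓ : ℓ.Prime) (hm : m.Prime)
    (hirr : Irreducible (cyclotomic (m ^ (j + 1)) (ZMod ℓ))) {φ : F ≃ₐ[k] F} {g D : k[X]}
    {α β : F} (ho : Orb φ g D m (m ^ j) α β) {ζ : k} (hζ : IsPrimitiveRoot ζ ℓ)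
    (hI : ¬ Superelliptic.IsIndependent ℓ k F g D) (u : ℕ) (hu : ¬ m ^ j ∣ u) :
    ∃ w : F, w ^ ℓ = ((φ ^ u) β - β) * ((φ ^ (u + m ^ j)) β - β) ^ (ℓ - 1) ∧
      (φ ^ (m * m ^ j)) w = w := by
  classical
  have : Fact ℓ.Prime := ⟨hℓ⟩
  have hmpos : 0 < m := hm.pos
  have hnpos : 0 < m ^ j := pow_pos hmpos j
  have : NeZero (m * m ^ j) := ⟨(Nat.mul_pos hmpos hnpos).ne'⟩
  have hℓ0 : 0 < ℓ := hℓ.pos
  -- the automorphism ψ
  set ψ : F ≃+* F := ((φ ^ (m * m ^ j) : F ≃ₐ[k] F) : F ≃+* F) with hψdef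
  have hψ : ∀ x, ψ x = (φ ^ (m * m ^ j)) x := fun _ => rfl
  set z : F := algebraMap k F ζ with hz
  have hzprim : IsPrimitiveRoot z ℓ := hζ.map_of_injective (algebraMap k F).injective
  have hψz : ψ z = z := AlgEquiv.commutes _ _
  have hψee : ∀ v : ZMod (m * m ^ j), ψ (ee φ β v) = ee φ β v := fun v => ho.pow_ee v
  have hβ : ee φ β (0 : ZMod (m * m ^ j)) = β := Orb.ee_zero φ _ β
  have hψβ : ψ β = β := by rw [← hβ]; exact hψee 0
  have hmemroot : ∀ x : F, x ∈ Superelliptic.roots k F g D ↔ aeval x (D.comp g) = 0 := by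
    intro x
    rw [aeval_comp]
    rfl
  have hfix : ∀ x ∈ IntermediateField.adjoin k (Superelliptic.roots k F g D), ψ x = x := by
    intro x hx
    rw [hψ]
    refine t12_fix (σ := φ ^ (m * m ^ j)) (fun y hy => ?_) hx
    rw [hmemroot] at hy
    obtain ⟨v, rfl⟩ := ho.ee_surj hy
    exact ho.pow_ee v
  -- unfold the failure of independence
  rw [Superelliptic.IsIndependent] at hI
  push Not at hI
  obtain ⟨e, κ, hκ0, hκmem, hsumdvd, hrel, b₁, hb₁, hb₁e⟩ := hI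
  set e' : ZMod (m * m ^ j) → ZMod ℓ := fun v => ((e (ee φ β v) : ℤ) : ZMod ℓ) with he'
  have he'0 : e' ≠ 0 := by
    intro h0
    rw [hmemroot] at hb₁
    obtain ⟨v, rfl⟩ := ho.ee_surj hb₁
    have h1 := congrFun h0 v
    simp only [he', Pi.zero_apply] at h1
    rw [ZMod.intCast_zmod_eq_zero_iff_dvd] at h1
    exact hb₁e h1
  -- the fibre sums
  have hsum : ∀ i : ZMod (m * m ^ j), ∑ t ∈ range m, e' (i + (m ^ j * t : ℕ)) = 0 := by
    intro i
    have h1 := hsumdvd (ee φ β i) ((hmemroot _).2 (ho.ee_root i))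
    have hset : {β' : F | aeval β' g = aeval (ee φ β i) g} =
        (fun t : ℕ => ee φ β (i + ((m ^ j * t : ℕ) : ZMod (m * m ^ j)))) '' ((range m : Finset ℕ) : Set ℕ) := by
      ext β'
      rw [Set.mem_ofPred_eq, Set.mem_image]
      constructor
      · intro hβ'
        have hroot : aeval β' (D.comp g) = 0 := by
          have h2 := ho.ee_root i
          rw [aeval_comp] at h2 ⊢
          rw [hβ', h2]
        obtain ⟨v, rfl⟩ := ho.ee_surj hroot
        rw [ho.g_ee_eq_iff, t12_ker] at hβ'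
        obtain ⟨t, ht, htv⟩ := hβ'
        refine ⟨t, by exact_mod_cast ht, ?_⟩
        rw [htv, add_sub_cancel]
      · rintro ⟨t, ht, rfl⟩
        rw [ho.g_ee_eq_iff, t12_ker]
        exact ⟨t, by exact_mod_cast ht, by rw [add_sub_cancel_left]⟩
    have hinj : Set.InjOn (fun t : ℕ => ee φ β (i + ((m ^ j * t : ℕ) : ZMod (m * m ^ j))))
        ((range m : Finset ℕ) : Set ℕ) := by
      intro t ht t' ht' htt
      have h2 := ho.ee_injective htt
      rw [mem_coe, mem_range] at ht ht'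
      exact t12_inj hnpos ht ht' (add_left_cancel h2)
    rw [hset, finsum_mem_image hinj, finsum_mem_coe_finset, ← ZMod.intCast_zmod_eq_zero_iff_dvd,
      Int.cast_sum] at h1
    exact h1
  -- the Kummer character
  have hne : ∀ {v v' : ZMod (m * m ^ j)}, v ≠ v' → ee φ β v - ee φ β v' ≠ 0 := by
    intro v v' hvv h0
    exact hvv (ho.ee_injective (sub_eq_zero.1 h0))
  have hψsub : ∀ v v' : ZMod (m * m ^ j), ψ (ee φ β v - ee φ β v') = ee φ β v - ee φ β v' := by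
    intro v v'
    rw [map_sub, hψee, hψee]
  set pr := ZMod.castHom (dvd_mul_left (m ^ j) m) (ZMod (m ^ j)) with hpr
  set r : ZMod (m * m ^ j) → ZMod ℓ := fun s => lam ℓ ψ z (β - ee φ β s) with hr
  have hs0 : ∀ s : ZMod (m * m ^ j), pr s ≠ 0 → s ≠ 0 := by
    intro s hs h0
    rw [h0, map_zero] at hs
    exact hs rfl
  have hnb : ∀ v : ZMod (m * m ^ j), pr v ≠ 0 → β - ee φ β v ≠ 0 := by
    intro v hv h0
    exact hs0 v hv (ho.ee_injective (hβ.trans (sub_eq_zero.1 h0))).symm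
  have hlam : ∀ i s : ZMod (m * m ^ j), pr s ≠ 0 →
      lam ℓ ψ z (ee φ β i - ee φ β (i + s)) = r s := by
    intro i s hs
    have h1 : ee φ β i - ee φ β (i + s) = (φ ^ i.val) (β - ee φ β s) := by
      rw [add_comm i s, ho.ee_add s i, map_sub]
      congr 1
    rw [h1]
    have h2 : β - ee φ β s ≠ 0 := hnb s hs
    have h3 : ψ (β - ee φ β s) = β - ee φ β s := by rw [map_sub, hψβ, hψee]
    exact lam_apply hℓ0 hzprim hψz ((φ ^ i.val : F ≃ₐ[k] F) : F ≃+* F) (AlgEquiv.commutes _ _)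
      (fun x => by
        change (φ ^ i.val) ((φ ^ (m * m ^ j)) x) = (φ ^ (m * m ^ j)) ((φ ^ i.val) x)
        rw [← AlgEquiv.mul_apply, ← AlgEquiv.mul_apply, ← pow_add, ← pow_add, add_comm]) h2 h3
  have heig : ∀ i, ∑ s with pr s ≠ 0, r s * (e' i - e' (i + s)) = (-lam ℓ ψ z κ) * e' i := by
    intro i
    obtain ⟨w, hwmem, hw⟩ := hrel (ee φ β i) ((hmemroot _).2 (ho.ee_root i))
    have hset : {β' ∈ Superelliptic.roots k F g D | aeval β' g ≠ aeval (ee φ β i) g} =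
        (fun s : ZMod (m * m ^ j) => ee φ β (i + s)) ''
          ((univ.filter (fun s => pr s ≠ 0) : Finset (ZMod (m * m ^ j))) : Set (ZMod (m * m ^ j))) := by
      ext β'
      rw [Set.mem_ofPred_eq, Set.mem_image]
      constructor
      · rintro ⟨hroot, hβ'⟩
        rw [hmemroot] at hroot
        obtain ⟨v, rfl⟩ := ho.ee_surj hroot
        rw [Ne, ho.g_ee_eq_iff] at hβ'
        refine ⟨v - i, ?_, ?_⟩
        · rw [mem_coe, mem_filter]
          exact ⟨mem_univ _, hβ'⟩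
        · rw [add_sub_cancel]
      · rintro ⟨s, hs, rfl⟩
        rw [mem_coe, mem_filter] at hs
        refine ⟨(hmemroot _).2 (ho.ee_root _), ?_⟩
        rw [Ne, ho.g_ee_eq_iff, add_sub_cancel_left]
        exact hs.2
    have hinj : Set.InjOn (fun s : ZMod (m * m ^ j) => ee φ β (i + s))
        ((univ.filter (fun s => pr s ≠ 0) : Finset (ZMod (m * m ^ j))) : Set (ZMod (m * m ^ j))) := by
      intro s _ s' _ hss
      exact add_left_cancel (ho.ee_injective hss)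
    rw [hset, finprod_mem_image hinj, finprod_mem_coe_finset] at hw
    have hfac : ∀ s ∈ univ.filter (fun s => pr s ≠ 0), ee φ β i - ee φ β (i + s) ≠ 0 := by
      intro s hs
      rw [mem_filter] at hs
      refine hne fun h0 => hs0 s hs.2 ?_
      have h2 : i + 0 = i + s := by rw [add_zero]; exact h0
      exact (add_left_cancel h2).symm
    have hψκ : ψ κ = κ := hfix κ hκmem
    have hne0 : ∀ s ∈ univ.filter (fun s => pr s ≠ 0),
        (ee φ β i - ee φ β (i + s)) ^ (e (ee φ β i) - e (ee φ β (i + s))) ≠ 0 :=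
      fun s hs => zpow_ne_zero _ (hfac s hs)
    have hψ0 : ∀ s ∈ univ.filter (fun s => pr s ≠ 0),
        ψ ((ee φ β i - ee φ β (i + s)) ^ (e (ee φ β i) - e (ee φ β (i + s)))) =
          (ee φ β i - ee φ β (i + s)) ^ (e (ee φ β i) - e (ee φ β (i + s))) := by
      intro s _
      rw [map_zpow₀, hψsub]
    have hκne : κ ^ e (ee φ β i) ≠ 0 := zpow_ne_zero _ hκ0
    have hprodne : ∏ s ∈ univ.filter (fun s => pr s ≠ 0),
        (ee φ β i - ee φ β (i + s)) ^ (e (ee φ β i) - e (ee φ β (i + s))) ≠ 0 :=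
      prod_ne_zero_iff.2 hne0
    have hψκe : ψ (κ ^ e (ee φ β i)) = κ ^ e (ee φ β i) := by rw [map_zpow₀, hψκ]
    have hψprod : ψ (∏ s ∈ univ.filter (fun s => pr s ≠ 0),
        (ee φ β i - ee φ β (i + s)) ^ (e (ee φ β i) - e (ee φ β (i + s)))) =
        ∏ s ∈ univ.filter (fun s => pr s ≠ 0),
        (ee φ β i - ee φ β (i + s)) ^ (e (ee φ β i) - e (ee φ β (i + s))) := by
      rw [map_prod]
      exact prod_congr rfl hψ0
    have hleft : lam ℓ ψ z (w ^ ℓ) = 0 := by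
      rw [lam_eq_zero_iff hℓ0 hzprim hψz]
      · exact ⟨w, rfl, hfix w hwmem⟩
      · rw [hw]; exact mul_ne_zero hκne hprodne
      · rw [map_pow, hfix w hwmem]
    rw [hw, lam_mul hℓ0 hzprim hψz hκne hψκe hprodne hψprod, lam_zpow hℓ0 hzprim hψz hκ0 hψκ,
      lam_prod hℓ0 hzprim hψz _ _ hne0 hψ0] at hleft
    have hterm : ∀ s ∈ univ.filter (fun s => pr s ≠ 0),
        lam ℓ ψ z ((ee φ β i - ee φ β (i + s)) ^ (e (ee φ β i) - e (ee φ β (i + s)))) =
          r s * (e' i - e' (i + s)) := by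
      intro s hs
      rw [lam_zpow hℓ0 hzprim hψz (hfac s hs) (hψsub _ _), hlam i s (mem_filter.1 hs).2,
        Int.cast_sub, mul_comm]
    rw [sum_congr rfl hterm] at hleft
    have h3 : (e (ee φ β i) : ZMod ℓ) = e' i := rfl
    rw [h3] at hleft
    linear_combination hleft
  have hT10 := scalar_of_eigenvector hm hirr r (-lam ℓ ψ z κ) e' he'0 hsum heig
  -- the conclusion
  set s : ZMod (m * m ^ j) := (u : ZMod (m * m ^ j)) with hs
  have hprs : pr s ≠ 0 := by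
    rw [hs, map_natCast, Ne, ZMod.natCast_eq_zero_iff]
    exact hu
  have hprs' : pr (s + ((m ^ j : ℕ) : ZMod (m * m ^ j))) ≠ 0 := by
    have h5 : pr ((m ^ j : ℕ) : ZMod (m * m ^ j)) = 0 := by
      rw [map_natCast, ZMod.natCast_self]
    rw [map_add, h5, add_zero]
    exact hprs
  have hX : (φ ^ u) β = ee φ β s := (ho.ee_natCast u).symm
  have hY : (φ ^ (u + m ^ j)) β = ee φ β (s + ((m ^ j : ℕ) : ZMod (m * m ^ j))) := by
    rw [← ho.ee_natCast (u + m ^ j), Nat.cast_add]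
  rw [hX, hY]
  have hm1 : ψ (-1) = -1 := by rw [map_neg, map_one]
  have hm10 : (-1 : F) ≠ 0 := neg_ne_zero.2 one_ne_zero
  have hψb : ∀ v : ZMod (m * m ^ j), ψ (β - ee φ β v) = β - ee φ β v := by
    intro v
    rw [map_sub, hψβ, hψee]
  have hneg : ∀ v : ZMod (m * m ^ j), ee φ β v - β = -1 * (β - ee φ β v) := by
    intro v; ring
  have hlneg : ∀ v : ZMod (m * m ^ j), pr v ≠ 0 →
      lam ℓ ψ z (ee φ β v - β) = lam ℓ ψ z (-1) + r v := by
    intro v hv
    rw [hneg, lam_mul hℓ0 hzprim hψz hm10 hm1 (hnb v hv) (hψb v)]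
  have hne1 : ∀ v : ZMod (m * m ^ j), pr v ≠ 0 → ee φ β v - β ≠ 0 := by
    intro v hv
    rw [hneg]
    exact mul_ne_zero hm10 (hnb v hv)
  have hψ1 : ∀ v : ZMod (m * m ^ j), ψ (ee φ β v - β) = ee φ β v - β := by
    intro v
    rw [map_sub, hψβ, hψee]
  have hψpow : ψ ((ee φ β (s + ((m ^ j : ℕ) : ZMod (m * m ^ j))) - β) ^ (ℓ - 1)) =
      (ee φ β (s + ((m ^ j : ℕ) : ZMod (m * m ^ j))) - β) ^ (ℓ - 1) := by
    rw [map_pow, hψ1]
  have hnepow : (ee φ β (s + ((m ^ j : ℕ) : ZMod (m * m ^ j))) - β) ^ (ℓ - 1) ≠ 0 := pow_ne_zero _ (hne1 _ hprs')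
  have hlampow : lam ℓ ψ z ((ee φ β (s + ((m ^ j : ℕ) : ZMod (m * m ^ j))) - β) ^ (ℓ - 1)) =
      - lam ℓ ψ z (ee φ β (s + ((m ^ j : ℕ) : ZMod (m * m ^ j))) - β) := by
    rw [← zpow_natCast, lam_zpow hℓ0 hzprim hψz (hne1 _ hprs') (hψ1 _)]
    have h4 : (((ℓ - 1 : ℕ) : ℤ) : ZMod ℓ) = -1 := by
      rw [Int.cast_natCast, Nat.cast_sub hℓ.one_lt.le, Nat.cast_one, ZMod.natCast_self, zero_sub]
    rw [h4, neg_one_mul]
  have htot : lam ℓ ψ z ((ee φ β s - β) * (ee φ β (s + ((m ^ j : ℕ) : ZMod (m * m ^ j))) - β) ^ (ℓ - 1)) = 0 := by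
    rw [lam_mul hℓ0 hzprim hψz (hne1 s hprs) (hψ1 s) hnepow hψpow, hlampow, hlneg s hprs,
      hlneg _ hprs', hT10 s hprs]
    ring
  obtain ⟨w, hw1, hw2⟩ := (lam_eq_zero_iff hℓ0 hzprim hψz (mul_ne_zero (hne1 s hprs) hnepow)
    (by rw [map_mul, hψ1, hψpow])).1 htot
  exact ⟨w, hw1, hw2⟩

end Pool.Agent.Lib.MP_89bcae_ag.Tw
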