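import Mathlib
import Pool.Agent.Lib.MP_89bcae_ag.Tw.TBase
import Pool.Agent.Lib.MP_89bcae_ag.Tw.TDefs
import Pool.Agent.Lib.MP_89bcae_ag.Tw.T08
import Pool.Agent.Lib.MP_89bcae_ag.Tw.T11

/-!
Row T13: the finite field. If `D` is not exceptional, one of the products is not an `ℓ`-th power.
-/

open Polynomial Finset

namespace Pool.Agent.Lib.MP_89bcae_ag.Tw

open Pool.Agent.Lib.MP_89bcae_ag Pool.Agent.Lib.MP_89bcae_ag.Frob14

universe u

/-- The Frobenius orbit of a root. -/
theorem orb_of_family {k F : Type*} [Field k] [Fintype k] [Field F] [Algebra k F]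
    [Algebra.IsAlgebraic k F] [IsAlgClosed F] {m n : ℕ} (hm : 0 < m) (hn : 0 < n) {g D : k[X]}
    (hg : g.Monic) (hdeg : g.natDegree = m) (hD : D.natDegree = n) (hirr : Irreducible (D.comp g))
    {β : F} (hβ : aeval β (D.comp g) = 0) : Orb (frob8 k F) g D m n (aeval β g) β := by
  refine ⟨hg, hdeg, hm, hn, hD, rfl, ?_, ?_, ?_⟩
  · rw [← aeval_comp]
    exact hβ
  · intro γ hγ
    obtain ⟨i, -, h⟩ := exists_frob8_pow hirr hβ hγ
    exact ⟨i, h⟩
  · intro i
    rw [frob8_pow_eq_iff, ← minpoly.eq_of_irreducible hirr hβ,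
      natDegree_mul_leadingCoeff_inv _ hirr.ne_zero, Polynomial.natDegree_comp, hD, hdeg,
      mul_comm n m]

section Aux

variable {k F : Type*} [Field k] [Fintype k] [Field F] [Algebra k F] [Algebra.IsAlgebraic k F]
  [IsAlgClosed F]

omit [IsAlgClosed F] in
lemma t13_aeval_frob (i : ℕ) (p : k[X]) (x : F) :
    aeval ((frob8 k F ^ i) x) p = (frob8 k F ^ i) (aeval x p) := by
  rw [← AlgEquiv.coe_toAlgHom (frob8 k F ^ _), aeval_algHom_apply]

/-- The product of the `c - x` over the elements of the field with `q ^ i` elements. -/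
lemma t13_prod_fixS {i : ℕ} (hi : 0 < i) (x : F) :
    ∏ c ∈ fixS k F i, (c - x) = x - (frob8 k F ^ i) x := by
  classical
  have hcard := card_fixS (k := k) (F := F) hi
  have h1 := one_lt_q_pow (k := k) hi
  have hne : (X ^ (Fintype.card k ^ i) - X : F[X]) ≠ 0 :=
    FiniteField.X_pow_card_sub_X_ne_zero F h1
  have hmon : (X ^ (Fintype.card k ^ i) - X : F[X]).Monic :=
    monic_X_pow_sub (by rw [degree_X]; exact_mod_cast h1)
  have hnat : (X ^ (Fintype.card k ^ i) - X : F[X]).natDegree = Fintype.card k ^ i :=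
    FiniteField.X_pow_card_sub_X_natDegree_eq F h1
  have hval : (fixS k F i).val = (X ^ (Fintype.card k ^ i) - X : F[X]).roots := by
    apply Multiset.eq_of_le_of_card_le
    · unfold fixS
      rw [Multiset.toFinset_val]
      exact Multiset.dedup_le _
    · refine (card_roots' _).trans ?_
      rw [hnat]
      exact hcard.ge
  have hprod := (IsAlgClosed.splits (X ^ (Fintype.card k ^ i) - X : F[X])).eq_prod_roots
  rw [hmon.leadingCoeff, C_1, one_mul, ← hval] at hprod
  have h3 := congrArg (eval x) hprod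
  rw [eval_sub, eval_pow, eval_X] at h3
  have h4 : eval x (Multiset.map (fun a => X - C a) (fixS k F i).val).prod =
      ∏ c ∈ fixS k F i, (x - c) := by
    change eval x (∏ c ∈ fixS k F i, (X - C c)) = _
    rw [eval_prod]
    simp only [eval_sub, eval_X, eval_C]
  rw [h4] at h3
  have h5 : ∏ c ∈ fixS k F i, (c - x) = (-1) ^ (Fintype.card k ^ i) * ∏ c ∈ fixS k F i, (x - c) := by
    rw [← hcard, ← Finset.prod_const, ← Finset.prod_mul_distrib]
    exact Finset.prod_congr rfl fun c _ => by ring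
  have h6 : ((-1 : F)) ^ (Fintype.card k ^ i) = -1 := by
    rw [← frob8_pow_apply (k := k), map_neg, map_one]
  rw [h5, h6, ← h3, frob8_pow_apply]
  ring

/-- The product of the values of `D` over the field with `q ^ i` elements. -/
lemma t13_prod_aeval {D : k[X]} (hm : D.Monic) (hirr : Irreducible D) {n : ℕ}
    (hn : D.natDegree = n) {α : F} (hα : aeval α D = 0) {i : ℕ} (hi : 0 < i) :
    ∏ c ∈ fixS k F i, aeval c D =
      ∏ t ∈ Finset.range n, (frob8 k F ^ t) (α - (frob8 k F ^ i) α) := by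
  rw [Finset.prod_congr rfl fun c _ => aeval_eq_prod hm hirr hn hα c, Finset.prod_comm]
  apply Finset.prod_congr rfl
  intro t _
  rw [t13_prod_fixS hi, map_sub]
  congr 1
  rw [← AlgEquiv.mul_apply, ← AlgEquiv.mul_apply, ← pow_add, ← pow_add, add_comm]

/-- A norm is in `k`. -/
lemma t13_norm_mem {N : ℕ} {x : F} (hx : (frob8 k F ^ N) x = x) :
    ∃ a : k, algebraMap k F a = ∏ t ∈ Finset.range N, (frob8 k F ^ t) x := by
  apply mem_range_of_frob8
  rw [map_prod]
  have h3 : ∀ t, frob8 k F ((frob8 k F ^ t) x) = (frob8 k F ^ (t + 1)) x := by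
    intro t
    rw [pow_succ', AlgEquiv.mul_apply]
  simp only [h3]
  rcases N with _ | N
  · simp
  · rw [Finset.prod_range_succ, hx, Finset.prod_range_succ', pow_zero, AlgEquiv.one_apply]

omit [IsAlgClosed F] in
/-- The norm of an element of the smaller field. -/
lemma t13_norm_pow {n : ℕ} {y : F} (hy : (frob8 k F ^ n) y = y) (m : ℕ) :
    ∏ t ∈ Finset.range (m * n), (frob8 k F ^ t) y =
      (∏ t ∈ Finset.range n, (frob8 k F ^ t) y) ^ m := by
  induction m with
  | zero => simp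
  | succ m ih =>
    rw [Nat.succ_mul, Finset.prod_range_add, ih, pow_succ]
    congr 1
    apply Finset.prod_congr rfl
    intro t _
    rw [add_comm, pow_add, AlgEquiv.mul_apply]
    congr 1
    rw [mul_comm]
    exact frob8_pow_pow n m hy

/-- The fibre of `g` over a conjugate of `α`. -/
lemma t13_fibre {g D : k[X]} {m n : ℕ} {α β : F} (h : Orb (frob8 k F) g D m n α β)
    (hα : (frob8 k F ^ n) α = α) (i : ℕ) :
    α - (frob8 k F ^ i) α = ∏ t ∈ Finset.range m, (β - (frob8 k F ^ (i + t * n)) β) := by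
  classical
  set f : F[X] := g.map (algebraMap k F) - C ((frob8 k F ^ i) α) with hf
  have hgm : (g.map (algebraMap k F)).Monic := h.monic.map _
  have hgd : (g.map (algebraMap k F)).natDegree = m := by rw [natDegree_map, h.deg]
  have hlt : (C ((frob8 k F ^ i) α)).degree < (g.map (algebraMap k F)).degree := by
    refine degree_C_le.trans_lt ?_
    rw [degree_eq_natDegree hgm.ne_zero, hgd]
    exact_mod_cast h.mpos
  have hfm : f.Monic := hgm.sub_of_left hlt
  have hfd : f.natDegree = m := by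
    rw [hf, natDegree_sub_C, hgd]
  set S : Finset F := (Finset.range m).image (fun t => (frob8 k F ^ (i + t * n)) β) with hS
  have hinj : Set.InjOn (fun t => (frob8 k F ^ (i + t * n)) β) (Finset.range m : Set ℕ) := by
    intro a ha b hb hab
    rw [Finset.mem_coe, Finset.mem_range] at ha hb
    have h1 := (frob8_pow_inj h.beta_iff).mp hab
    have h2 : a * n ≡ b * n [MOD m * n] := Nat.ModEq.add_left_cancel' i h1
    have h3 : a ≡ b [MOD m] := Nat.ModEq.mul_right_cancel' h.pos.ne' h2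
    rwa [Nat.ModEq, Nat.mod_eq_of_lt ha, Nat.mod_eq_of_lt hb] at h3
  have hcard : S.card = m := by
    rw [hS, Finset.card_image_of_injOn hinj, Finset.card_range]
  have heq : S.val = f.roots := by
    apply Multiset.eq_of_le_of_card_le
    · rw [Finset.val_le_iff_val_subset]
      intro y hy
      have hy' : y ∈ S := hy
      obtain ⟨t, -, rfl⟩ := Finset.mem_image.mp hy'
      rw [mem_roots hfm.ne_zero, IsRoot.def, hf, eval_sub, eval_C, eval_map_algebraMap]
      change aeval ((frob8 k F ^ (i + t * n)) β) g - _ = 0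
      rw [t13_aeval_frob, h.gβ, pow_add, AlgEquiv.mul_apply, mul_comm t n,
        frob8_pow_pow n t hα, sub_self]
    · refine (card_roots' _).trans ?_
      rw [hfd]
      exact hcard.ge
  have hprod := (IsAlgClosed.splits f).eq_prod_roots
  rw [hfm.leadingCoeff, C_1, one_mul, ← heq] at hprod
  have h3 := congrArg (eval β) hprod
  rw [hf, eval_sub, eval_C, eval_map_algebraMap, h.gβ] at h3
  rw [h3]
  change eval β (∏ c ∈ S, (X - C c)) = _
  rw [eval_prod, hS, Finset.prod_image hinj]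
  simp only [eval_sub, eval_X, eval_C]

end Aux

theorem exists_moves {k : Type u} {F : Type*} [Field k] [Fintype k] [Field F] [Algebra k F]
    [Algebra.IsAlgebraic k F] [IsAlgClosed F] {ℓ m n : ℕ} (hℓ : ℓ.Prime) (hm : 0 < m)
    (hcop : m.Coprime ℓ) (hn : 0 < n) (hq : ℓ ∣ Fintype.card k - 1) {g D : k[X]} (hg : g.Monic)
    (hdeg : g.natDegree = m) (hD : D ∈ family g n)
    (hexc : D ∉ Superelliptic.exceptional ℓ g n) {β : F} (hβ : aeval β (D.comp g) = 0) :
    ∃ u : ℕ, ¬ n ∣ u ∧ ∀ w : F,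
      w ^ ℓ = ((frob8 k F ^ u) β - β) * ((frob8 k F ^ (u + n)) β - β) ^ (ℓ - 1) →
        (frob8 k F ^ (m * n)) w ≠ w := by
  classical
  by_contra hcon
  push Not at hcon
  apply hexc
  refine ⟨hD, ?_⟩
  intro K _ _ _ hK
  obtain ⟨hDm, hDn, hDi⟩ := hD
  set σ := frob8 k F with hσ
  set α : F := aeval β g with hαdef
  have ho : Orb σ g D m n α β := orb_of_family hm hn hg hdeg hDn hDi hβ
  have hcm : (D.comp g).Monic := hDm.comp hg (by rw [hdeg]; exact hm.ne')
  have hcd : (D.comp g).natDegree = m * n := by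
    rw [Polynomial.natDegree_comp, hDn, hdeg, mul_comm]
  -- D itself is irreducible
  have hDirr : Irreducible D := by
    have hd0 : D ≠ 0 := hDm.ne_zero
    rw [hDm.irreducible_iff_natDegree']
    refine ⟨?_, ?_⟩
    · rintro rfl
      rw [one_comp] at hDi
      exact not_irreducible_one hDi
    · intro f h hf hh hfh hdeg2
      have h1 : f.comp g * h.comp g = D.comp g := by rw [← mul_comp, hfh]
      rw [Finset.mem_Ioc] at hdeg2
      have hfd : 0 < f.natDegree := by
        have h2 := hf.natDegree_mul hh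
        rw [hfh] at h2
        omega
      rcases hDi.isUnit_or_isUnit h1.symm with h2 | h2
      · have h3 := natDegree_eq_zero_of_isUnit h2
        rw [Polynomial.natDegree_comp, hdeg] at h3
        have : 0 < f.natDegree * m := Nat.mul_pos hfd hm
        omega
      · have h3 := natDegree_eq_zero_of_isUnit h2
        rw [Polynomial.natDegree_comp, hdeg] at h3
        have : 0 < h.natDegree * m := Nat.mul_pos hdeg2.1 hm
        omega
  have hDα : aeval α D = 0 := ho.Dα
  have hαiff : ∀ i : ℕ, (σ ^ i) α = α ↔ n ∣ i := by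
    intro i
    rw [hσ, frob8_pow_eq_iff, (minpoly.eq_of_irreducible_of_monic hDirr hDα hDm).symm, hDn]
  have hαn : (σ ^ n) α = α := (hαiff n).mpr dvd_rfl
  -- the ℓ-th powers of fixed elements
  let Pw : F → Prop := fun x => ∃ w : F, w ≠ 0 ∧ w ^ ℓ = x ∧ (σ ^ (m * n)) w = w
  have Pone : Pw 1 := ⟨1, one_ne_zero, one_pow _, map_one _⟩
  have Pmul : ∀ x y, Pw x → Pw y → Pw (x * y) := by
    rintro x y ⟨w, h1, h2, h3⟩ ⟨w', h1', h2', h3'⟩
    exact ⟨w * w', mul_ne_zero h1 h1', by rw [mul_pow, h2, h2'], by rw [map_mul, h3, h3']⟩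
  have hfixβ : ∀ s : ℕ, (σ ^ (m * n)) (β - (σ ^ s) β) = β - (σ ^ s) β := by
    intro s
    have h1 : (σ ^ (m * n)) β = β := (ho.beta_iff _).mpr dvd_rfl
    rw [map_sub, h1, ← AlgEquiv.mul_apply, ← pow_add, add_comm, pow_add, AlgEquiv.mul_apply, h1]
  have hne : ∀ s : ℕ, ¬ n ∣ s → β - (σ ^ s) β ≠ 0 := by
    intro s hs h0
    apply hs
    have h1 : (σ ^ s) β = β := (sub_eq_zero.mp h0).symm
    exact (Dvd.intro_left m rfl).trans ((ho.beta_iff s).mp h1)
  have hnadd : ∀ u t : ℕ, ¬ n ∣ u → ¬ n ∣ u + t * n := by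
    intro u t hu h
    exact hu ((Nat.dvd_add_left (Dvd.intro_left t rfl)).mp h)
  have hstep : ∀ u : ℕ, ¬ n ∣ u → Pw ((β - (σ ^ u) β) / (β - (σ ^ (u + n)) β)) := by
    intro u hu
    obtain ⟨w, hw, hfix⟩ := hcon u hu
    have hun : ¬ n ∣ u + n := by
      have := hnadd u 1 hu
      rwa [one_mul] at this
    have h1 := hne u hu
    have h2 := hne (u + n) hun
    have h3 : (σ ^ (u + n)) β - β ≠ 0 := by
      intro h; apply h2; rw [← neg_sub, h, neg_zero]
    have h4 : (σ ^ u) β - β ≠ 0 := by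
      intro h; apply h1; rw [← neg_sub, h, neg_zero]
    have hw0 : w ≠ 0 := by
      rintro rfl
      rw [zero_pow hℓ.ne_zero] at hw
      exact mul_ne_zero h4 (pow_ne_zero _ h3) hw.symm
    refine ⟨w / ((σ ^ (u + n)) β - β), div_ne_zero hw0 h3, ?_, ?_⟩
    · rw [div_pow, hw]
      have h5 : ((σ ^ (u + n)) β - β) ^ ℓ =
          ((σ ^ (u + n)) β - β) * ((σ ^ (u + n)) β - β) ^ (ℓ - 1) := by
        rw [← pow_succ', Nat.sub_add_cancel hℓ.one_le]
      rw [h5, mul_div_mul_right _ _ (pow_ne_zero _ h3), ← neg_sub β, ← neg_sub β, neg_div_neg_eq]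
    · rw [map_div₀, hfix]
      congr 1
      rw [← neg_sub, map_neg, hfixβ]
  have hstep2 : ∀ u t : ℕ, ¬ n ∣ u → Pw ((β - (σ ^ u) β) / (β - (σ ^ (u + t * n)) β)) := by
    intro u t hu
    induction t with
    | zero =>
      rw [zero_mul, add_zero, div_self (hne u hu)]
      exact Pone
    | succ t ih =>
      have h1 := Pmul _ _ ih (hstep (u + t * n) (hnadd u t hu))
      rw [div_mul_div_cancel₀ (hne _ (hnadd u t hu))] at h1
      rwa [Nat.succ_mul, ← add_assoc]
  have hfin : Module.Finite k K := Module.Finite.of_finite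
  set i := Module.finrank k K with hi_def
  have hi : 0 < i := Module.finrank_pos
  have hni : ¬ n ∣ i := fun h => absurd (Nat.le_of_dvd hi h) (not_le.mpr hK)
  have hfib := t13_fibre ho hαn i
  have hPw : Pw ((β - (σ ^ i) β) ^ m / (α - (σ ^ i) α)) := by
    rw [hfib]
    have h1 : (β - (σ ^ i) β) ^ m = ∏ t ∈ Finset.range m, (β - (σ ^ i) β) := by
      rw [Finset.prod_const, Finset.card_range]
    rw [h1, ← Finset.prod_div_distrib]
    exact Finset.prod_induction _ Pw (fun a b ha hb => Pmul a b ha hb) Pone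
      fun t _ => hstep2 i t hni
  obtain ⟨w, hw0, hwl, hwfix⟩ := hPw
  have hα0 : α - (σ ^ i) α ≠ 0 := by
    intro h0
    exact hni ((hαiff i).mp (sub_eq_zero.mp h0).symm)
  have hβ0 : β - (σ ^ i) β ≠ 0 := hne i hni
  have hαfix : (σ ^ n) (α - (σ ^ i) α) = α - (σ ^ i) α := by
    rw [map_sub, hαn, ← AlgEquiv.mul_apply, ← pow_add, add_comm, pow_add, AlgEquiv.mul_apply, hαn]
  -- the norms
  obtain ⟨W, hW⟩ := t13_norm_mem (k := k) hwfix
  obtain ⟨A, hA⟩ := t13_norm_mem (k := k) (hfixβ i)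
  obtain ⟨B, hB⟩ := t13_norm_mem (k := k) hαfix
  have hprod0 : ∀ (M : ℕ) (x : F), x ≠ 0 → ∏ t ∈ Finset.range M, (σ ^ t) x ≠ 0 := by
    intro M x hx
    rw [Finset.prod_ne_zero_iff]
    intro t _ h
    exact hx ((map_eq_zero_iff _ (σ ^ t).injective).mp h)
  have hB0 : B ≠ 0 := by
    rintro rfl
    rw [map_zero] at hB
    exact hprod0 _ _ hα0 hB.symm
  have hA0 : A ≠ 0 := by
    rintro rfl
    rw [map_zero] at hA
    exact hprod0 _ _ hβ0 hA.symm
  have hW0 : W ≠ 0 := by
    rintro rfl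
    rw [map_zero] at hW
    exact hprod0 _ _ hw0 hW.symm
  have hrel : W ^ ℓ = (A / B) ^ m := by
    apply (algebraMap k F).injective
    rw [map_pow, map_pow, map_div₀, hW, hA, hB, div_pow, ← t13_norm_pow hαfix m,
      ← Finset.prod_pow, ← Finset.prod_pow, ← Finset.prod_div_distrib]
    apply Finset.prod_congr rfl
    intro t _
    rw [← map_pow, hwl, map_div₀, map_pow]
  -- Bezout
  obtain ⟨a, ha⟩ : ∃ a : k, a ^ ℓ = A / B := by
    have hP0 : A / B ≠ 0 := div_ne_zero hA0 hB0
    have hbez : (m : ℤ) * Nat.gcdA m ℓ + (ℓ : ℤ) * Nat.gcdB m ℓ = 1 := by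
      have := Nat.gcd_eq_gcd_ab m ℓ
      rw [hcop.gcd_eq_one] at this
      exact_mod_cast this.symm
    refine ⟨W ^ (Nat.gcdA m ℓ) * (A / B) ^ (Nat.gcdB m ℓ), ?_⟩
    have h1 : (W ^ (Nat.gcdA m ℓ) * (A / B) ^ (Nat.gcdB m ℓ)) ^ ℓ =
        (W ^ ℓ) ^ (Nat.gcdA m ℓ) * ((A / B) ^ (ℓ : ℤ)) ^ (Nat.gcdB m ℓ) := by
      rw [mul_pow, ← zpow_natCast, ← zpow_natCast, ← zpow_natCast, ← zpow_mul, ← zpow_mul,
        ← zpow_mul, ← zpow_mul, mul_comm (Nat.gcdA m ℓ), mul_comm (Nat.gcdB m ℓ)]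
    rw [h1, hrel, ← zpow_natCast (A / B) m, ← zpow_mul, ← zpow_mul, ← zpow_add₀ hP0, hbez, zpow_one]
  -- the products over K
  let τ : K →ₐ[k] F := IsAlgClosed.lift
  have hD1 : ∏ c ∈ fixS k F i, aeval c D = algebraMap k F B := by
    rw [t13_prod_aeval hDm hDirr hDn hDα hi, hB]
  have hD2 : ∏ c ∈ fixS k F i, aeval c (D.comp g) = algebraMap k F A := by
    rw [t13_prod_aeval hcm hDi hcd hβ hi, hA]
  have htr : ∀ p : k[X], ∏ c ∈ fixS k F i, aeval c p = τ (∏ c : K, aeval c p) := by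
    intro p
    rw [hi_def, prod_fixS_eq (fun c => aeval c p) τ, map_prod]
    exact Finset.prod_congr rfl fun c _ => by rw [aeval_algHom_apply]
  refine ⟨a, ?_⟩
  have hinj : Function.Injective τ := τ.toRingHom.injective
  apply hinj
  rw [map_mul, τ.commutes, ← htr, ← htr, hD1, hD2, ← map_mul, ha, div_mul_cancel₀ _ hB0]

end Pool.Agent.Lib.MP_89bcae_ag.Tw
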