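import Mathlib
import Pool.Agent.Lib.MP_89bcae_ag.Tw.TBase2

/-!
# The automorphism which lifts Frobenius
-/

open Polynomial

namespace Pool.Agent.Lib.MP_89bcae_ag.Tw

open Pool.Agent.Lib.MP_89bcae_ag

open scoped Classical in
theorem frob_spec {R K F κ Fκ : Type*} [CommRing R] [IsDomain R] [IsIntegrallyClosed R] [Field K]
    [Algebra R K] [IsFractionRing R K] [Field F] [Algebra K F] [Algebra R F] [IsScalarTower R K F]
    [IsAlgClosed F] [Algebra.IsAlgebraic K F]
    [Field κ] [Fintype κ] [Field Fκ] [Algebra κ Fκ] [Algebra.IsAlgebraic κ Fκ] [IsAlgClosed Fκ]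
    {π : R →+* κ} (hπ : Function.Surjective π) {ℓ : ℕ} (hℓ : ℓ.Prime) (hℓκ : (ℓ : κ) ≠ 0)
    {f : R[X]} (hu : IsUnit f.leadingCoeff) {N : ℕ} (hN : f.natDegree = N)
    (hirr : Irreducible (f.map π)) {β' : Fκ} (hβ' : aeval β' (f.map π) = 0) :
    ∃ (φ : F ≃ₐ[K] F) (β : F), aeval β f = 0 ∧ (∀ γ : F, aeval γ f = 0 → ∃ i, (φ ^ i) β = γ) ∧
      (∀ i, (φ ^ i) β = β ↔ N ∣ i) ∧
      ∀ i j : ℕ, (∀ w : Fκ,
          w ^ ℓ = ((frob8 κ Fκ ^ i) β' - β') * ((frob8 κ Fκ ^ j) β' - β') ^ (ℓ - 1) →
            (frob8 κ Fκ ^ N) w ≠ w) →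
        ∀ w : F, w ^ ℓ = ((φ ^ i) β - β) * ((φ ^ j) β - β) ^ (ℓ - 1) → (φ ^ N) w ≠ w := by
  have hinjR : Function.Injective (algebraMap R F) := by
    rw [IsScalarTower.algebraMap_eq R K F]
    exact (algebraMap K F).injective.comp (IsFractionRing.injective R K)
  have hfaith : FaithfulSMul R F := (faithfulSMul_iff_algebraMap_injective R F).mpr hinjR
  obtain ⟨ρ, β, hi, hρ, hβ, hρβ⟩ := exists_root_red (F := F) hπ hu hirr hβ'
  have hsepκ : (f.map π).Separable := PerfectField.separable_of_irreducible hirr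
  have hsep : (f.map (algebraMap R K)).Separable := separable_of_red F hπ hu hsepκ
  have h2F : (ℓ : F) ≠ 0 := by
    intro h0
    have h1 : (ℓ : R) = 0 := hinjR (by rw [map_natCast, map_zero]; exact h0)
    apply hℓκ
    rw [← map_natCast π, h1, map_zero]
  have hf0 : f ≠ 0 := by
    rintro rfl
    rw [Polynomial.map_zero] at hirr
    exact hirr.ne_zero rfl
  have hfF0 : f.map (algebraMap R F) ≠ 0 := (Polynomial.map_ne_zero_iff hinjR).mpr hf0
  -- the roots
  set B : Finset F := (f.map (algebraMap R F)).roots.toFinset with hB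
  have hmemB : ∀ γ, γ ∈ B ↔ aeval γ f = 0 := by
    intro γ
    rw [hB, Multiset.mem_toFinset, mem_roots hfF0, IsRoot.def, eval_map_algebraMap]
  have hBsep : ∀ γ ∈ B, γ ∈ separableClosure K F := by
    intro γ hγ
    rw [mem_separableClosure_iff]
    apply Separable.of_dvd hsep
    apply minpoly.dvd
    rw [aeval_map_algebraMap]
    exact (hmemB γ).mp hγ
  have hBint : ∀ γ ∈ B, IsIntegral R γ := fun γ hγ => integral_root hu ((hmemB γ).mp hγ)
  -- the roots of the products
  let T : Finset F := (B ×ˢ (B ×ˢ B)).biUnion fun p =>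
    (nthRoots ℓ ((p.1 - p.2.1) * (p.2.2 - p.2.1) ^ (ℓ - 1))).toFinset
  obtain ⟨φ, M, hSM, hM⟩ := exists_frob_lift14 (κ := κ) π hπ ρ hρ (B ∪ T) (by
    intro x hx
    rw [Finset.mem_union] at hx
    rcases hx with hx | hx
    · exact mem_separableClosure_iff.mp (hBsep x hx)
    · rw [Finset.mem_biUnion] at hx
      obtain ⟨⟨a, b, c⟩, hp, hw⟩ := hx
      rw [Finset.mem_product, Finset.mem_product] at hp
      obtain ⟨ha, hb, hc⟩ := hp
      rw [Multiset.mem_toFinset, mem_nthRoots hℓ.pos] at hw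
      set y := (a - b) * (c - b) ^ (ℓ - 1) with hy
      change x ^ ℓ = y at hw
      have hxs : y ∈ separableClosure K F :=
        mul_mem (sub_mem (hBsep a ha) (hBsep b hb))
          (pow_mem (sub_mem (hBsep c hc) (hBsep b hb)) _)
      by_cases hx0 : y = 0
      · have h3 : x = 0 := by
          rw [hx0] at hw
          exact pow_eq_zero_iff hℓ.ne_zero |>.mp hw
        rw [h3]
        exact mem_separableClosure_iff.mp (zero_mem _)
      · apply IsSeparable.of_algebra_isSeparable_of_isSeparable K (E := separableClosure K F)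
        have h3 : (X ^ ℓ - C (⟨y, hxs⟩ : separableClosure K F)).Separable := by
          apply separable_X_pow_sub_C
          · intro h4
            apply h2F
            have h5 := congrArg (algebraMap (separableClosure K F) F) h4
            rw [map_natCast, map_zero] at h5
            exact h5
          · intro h4
            exact hx0 (congrArg Subtype.val h4)
        apply Separable.of_dvd h3
        apply minpoly.dvd
        rw [map_sub, map_pow, aeval_X, aeval_C, hw]
        exact sub_self _)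
  have hMi : ∀ (i : ℕ) (x : F), x ∈ M → ∀ hx : IsIntegral R x, (φ ^ i) x ∈ M ∧
      ∃ hx' : IsIntegral R ((φ ^ i) x), ρ ⟨(φ ^ i) x, hx'⟩ = (frob8 κ Fκ ^ i) (ρ ⟨x, hx⟩) := by
    intro i
    induction i with
    | zero => exact fun x hxM hx => ⟨hxM, hx, rfl⟩
    | succ i ih =>
      intro x hxM hx
      obtain ⟨h3, h4, h5⟩ := ih x hxM hx
      obtain ⟨h6, h7⟩ := hM _ h3
      obtain ⟨h8, h9⟩ := h7 h4
      have h10 : (φ ^ (i + 1)) x = φ ((φ ^ i) x) := by rw [pow_succ', AlgEquiv.mul_apply]
      refine ⟨by rw [h10]; exact h6, by rw [h10]; exact h8, ?_⟩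
      have h11 : ρ ⟨(φ ^ (i + 1)) x, by rw [h10]; exact h8⟩ = ρ ⟨φ ((φ ^ i) x), h8⟩ := by
        congr 1
        exact Subtype.ext h10
      rw [h11, h9, h5, pow_succ' (frob8 κ Fκ), AlgEquiv.mul_apply, frob8_apply,
        Nat.card_eq_fintype_card]
  have hβB : β ∈ B := (hmemB β).mpr hβ
  have hβM : β ∈ M := hSM β (Finset.mem_union_left _ hβB)
  have hroot : ∀ i, (φ ^ i) β ∈ B := by
    intro i
    rw [hmemB]
    have h3 : aeval ((φ ^ i) β) (f.map (algebraMap R K)) = 0 := by
      rw [← AlgEquiv.coe_toAlgHom (φ ^ i), aeval_algHom_apply, aeval_map_algebraMap, hβ, map_zero]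
    rwa [aeval_map_algebraMap] at h3
  have hred : ∀ i, ρ ⟨(φ ^ i) β, hBint _ (hroot i)⟩ = (frob8 κ Fκ ^ i) β' := by
    intro i
    obtain ⟨-, h4, h5⟩ := hMi i β hβM hi
    rw [h5, hρβ]
  have hdegκ : (f.map π).natDegree = N := by
    rw [← hN]
    exact natDegree_map_of_leadingCoeff_ne_zero π (hu.map π).ne_zero
  have hmin : (minpoly κ β').natDegree = N := by
    rw [← minpoly.eq_of_irreducible hirr hβ', natDegree_mul_leadingCoeff_inv _ hirr.ne_zero, hdegκ]
  have hiff : ∀ i, (frob8 κ Fκ ^ i) β' = β' ↔ N ∣ i := fun i => by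
    rw [frob8_pow_eq_iff, hmin]
  have hBcard : B.card ≤ N := by
    rw [← hN, ← natDegree_map_eq_of_injective hinjR f]
    exact (Multiset.toFinset_card_le _).trans (card_roots' _)
  -- the orbit
  have horb : ∀ γ ∈ B, ∃ i < N, (φ ^ i) β = γ := by
    have h3 : ((Finset.range N).image fun i => (φ ^ i) β) = B := by
      apply Finset.eq_of_subset_of_card_le
      · intro γ hγ
        rw [Finset.mem_image] at hγ
        obtain ⟨i, -, rfl⟩ := hγ
        exact hroot i
      · rw [Finset.card_image_of_injOn, Finset.card_range]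
        · exact hBcard
        · intro a ha b hb hab
          have ha' := Finset.mem_range.mp ha
          have hb' := Finset.mem_range.mp hb
          have h4 : (frob8 κ Fκ ^ a) β' = (frob8 κ Fκ ^ b) β' := by
            rw [← hred, ← hred]
            congr 1
            exact Subtype.ext hab
          wlog hle : a ≤ b generalizing a b
          · exact (this hb ha hab.symm hb' ha' h4.symm (by omega)).symm
          have h5 : (frob8 κ Fκ ^ (b - a)) β' = β' := by
            apply (frob8 κ Fκ ^ a).injective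
            rw [← AlgEquiv.mul_apply, ← pow_add, Nat.add_sub_cancel' hle]
            exact h4.symm
          rw [hiff] at h5
          have := Nat.eq_zero_of_dvd_of_lt h5 (by omega)
          omega
    intro γ hγ
    rw [← h3, Finset.mem_image] at hγ
    obtain ⟨i, hi, hiγ⟩ := hγ
    exact ⟨i, Finset.mem_range.mp hi, hiγ⟩
  refine ⟨φ, β, hβ, fun γ hγ => ?_, fun i => ?_, fun i j hm w hw hwφ => ?_⟩
  · obtain ⟨i, -, hi⟩ := horb γ ((hmemB γ).mpr hγ)
    exact ⟨i, hi⟩
  · have hper : (φ ^ N) β = β := by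
      obtain ⟨i, hiN, hi'⟩ := horb _ (hroot N)
      have h3 : (frob8 κ Fκ ^ i) β' = (frob8 κ Fκ ^ N) β' := by
        rw [← hred, ← hred]
        congr 1
        exact Subtype.ext hi'
      rw [(hiff N).mpr dvd_rfl, hiff] at h3
      have h4 := Nat.eq_zero_of_dvd_of_lt h3 hiN
      rw [h4, pow_zero] at hi'
      exact hi'.symm
    constructor
    · intro h3
      rw [← hiff, ← hred, ← hρβ]
      congr 1
      exact Subtype.ext h3
    · rintro ⟨m, rfl⟩
      induction m with
      | zero => rfl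
      | succ m ih => rw [Nat.mul_succ, pow_add, AlgEquiv.mul_apply, hper, ih]
  · -- the roots
    have h4 : w ∈ M := by
      apply hSM
      apply Finset.mem_union_right
      rw [Finset.mem_biUnion]
      refine ⟨((φ ^ i) β, β, (φ ^ j) β), ?_, ?_⟩
      · rw [Finset.mem_product, Finset.mem_product]
        exact ⟨hroot i, hβB, hroot j⟩
      · rw [Multiset.mem_toFinset, mem_nthRoots hℓ.pos]
        exact hw
    have h5 : IsIntegral R w := by
      apply IsIntegral.of_pow (n := ℓ) hℓ.pos
      rw [hw]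
      exact ((hBint _ (hroot i)).sub hi).mul (((hBint _ (hroot j)).sub hi).pow _)
    obtain ⟨-, h6, h7⟩ := hMi N _ h4 h5
    refine hm (ρ ⟨w, h5⟩) ?_ ?_
    · rw [← map_pow, ← hred i, ← hred j, ← hρβ, ← map_sub, ← map_sub, ← map_pow, ← map_mul]
      congr 1
      exact Subtype.ext hw
    · rw [← h7]
      congr 1
      exact Subtype.ext hwφ

end Pool.Agent.Lib.MP_89bcae_ag.Tw
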