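import Mathlib
import Pool.Agent.Lib.MP_89bcae_ag.Tw.TBase
import Pool.Agent.Lib.MP_89bcae_ag.Tw.TDefs

/-!
# The exceptional polynomials in terms of their roots
-/

open Polynomial Finset

namespace Pool.Agent.Lib.MP_89bcae_ag.Tw

open Pool.Agent.Lib.MP_89bcae_ag

universe u

lemma irreducible_of_comp {k : Type*} [Field k] {g D : k[X]} (hdeg : g.natDegree ≠ 0)
    (h : Irreducible (D.comp g)) : Irreducible D := by
  refine ⟨fun hu => ?_, fun a b hab => ?_⟩
  · have h1 := h.natDegree_pos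
    rw [natDegree_comp, natDegree_eq_zero_of_isUnit hu] at h1
    omega
  · have h1 : IsUnit (a.comp g) ∨ IsUnit (b.comp g) := h.isUnit_or_isUnit (by rw [hab, mul_comp])
    have key : ∀ c : k[X], c ≠ 0 → IsUnit (c.comp g) → IsUnit c := by
      intro c hc hu
      have h2 := natDegree_eq_zero_of_isUnit hu
      rw [natDegree_comp] at h2
      have h3 : c.natDegree = 0 := (Nat.mul_eq_zero.mp h2).resolve_right hdeg
      obtain ⟨r, hr⟩ := natDegree_eq_zero.mp h3
      rw [← hr] at hc ⊢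
      rw [isUnit_C]
      exact (isUnit_iff_ne_zero).mpr (fun h0 => hc (by rw [h0, C_0]))
    have hD0 : D ≠ 0 := by
      rintro rfl
      exact h.ne_zero zero_comp
    rcases h1 with h1 | h1
    · exact Or.inl (key a (by rintro rfl; exact hD0 (by rw [hab, zero_mul])) h1)
    · exact Or.inr (key b (by rintro rfl; exact hD0 (by rw [hab, mul_zero])) h1)

section

set_option linter.unusedSectionVars false

variable {k F : Type*} [Field k] [Fintype k] [Field F] [Algebra k F] [Algebra.IsAlgebraic k F]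
  [IsAlgClosed F]

/-- a product over the fixed points can be permuted by the Frobenius -/
lemma t16_prod_perm {i : ℕ} (hi : 0 < i) (m : ℕ) (f f' : F → F)
    (h : ∀ c, (frob8 k F ^ m) (f c) = f' ((frob8 k F ^ m) c)) :
    (frob8 k F ^ m) (∏ c ∈ Frob14.fixS k F i, f c) = ∏ c ∈ Frob14.fixS k F i, f' c := by
  rw [map_prod]
  apply Finset.prod_bij (fun c _ => (frob8 k F ^ m) c)
  · intro c hc
    exact (frob8_mem_fixS hi m).mpr hc
  · intro a _ b _ hab
    exact (frob8 k F ^ m).injective hab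
  · intro b hb
    refine ⟨(frob8 k F ^ m).symm b, ?_, (frob8 k F ^ m).apply_symm_apply b⟩
    rw [← frob8_mem_fixS hi m, (frob8 k F ^ m).apply_symm_apply]
    exact hb
  · intro c _
    exact h c

/-- an element of the field with `q ^ n` elements whose norm is an `ℓ`-th power is an `ℓ`-th power
in this field -/
lemma t16_root {ℓ n : ℕ} (hℓ : ℓ.Prime) (hq : ℓ ∣ Fintype.card k - 1) {H : F} {b : k}
    (hb : algebraMap k F (b ^ ℓ) = ∏ m ∈ Finset.range n, (frob8 k F ^ m) H) :
    ∃ u : F, u ^ (Fintype.card k ^ n) = u ∧ u ^ ℓ = H := by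
  have hq1 : 1 < Fintype.card k := Fintype.one_lt_card
  by_cases h0 : H = 0
  · refine ⟨0, zero_pow (pow_ne_zero _ (by omega)), ?_⟩
    rw [h0, zero_pow hℓ.ne_zero]
  · have hprod : ∏ m ∈ Finset.range n, (frob8 k F ^ m) H =
        H ^ (∑ m ∈ Finset.range n, Fintype.card k ^ m) := by
      rw [← Finset.prod_pow_eq_pow_sum]
      exact Finset.prod_congr rfl fun m _ => frob8_pow_apply m H
    rw [hprod] at hb
    have hb0 : b ≠ 0 := by
      rintro rfl
      rw [zero_pow hℓ.ne_zero, map_zero] at hb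
      exact pow_ne_zero _ h0 hb.symm
    obtain ⟨e, he⟩ := hq
    have hgeo : (∑ m ∈ Finset.range n, Fintype.card k ^ m) * (ℓ * e) = Fintype.card k ^ n - 1 := by
      have h4 := Nat.geomSum_eq (m := Fintype.card k) Fintype.one_lt_card n
      have h5 : Fintype.card k - 1 ∣ Fintype.card k ^ n - 1 := by
        simpa using Nat.sub_dvd_pow_sub_pow (Fintype.card k) 1 n
      rw [h4, ← he]
      exact Nat.div_mul_cancel h5
    obtain ⟨u, hu⟩ := IsAlgClosed.exists_pow_nat_eq H hℓ.pos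
    refine ⟨u, ?_, hu⟩
    have hpos : 1 ≤ Fintype.card k ^ n := Nat.one_le_pow _ _ (by omega)
    have h6 : Fintype.card k ^ n =
        ℓ * ((∑ m ∈ Finset.range n, Fintype.card k ^ m) * e) + 1 := by
      have h7 : ℓ * ((∑ m ∈ Finset.range n, Fintype.card k ^ m) * e) = Fintype.card k ^ n - 1 := by
        rw [← hgeo]
        ring
      omega
    rw [h6, pow_succ, pow_mul, hu, pow_mul, ← hb, ← map_pow, ← pow_mul, ← he,
      FiniteField.pow_card_sub_one_eq_one b hb0, map_one, one_mul]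

/-- the norm of the product -/
lemma t16_norm {g D : k[X]} (hm : D.Monic) (hirr : Irreducible D) {n : ℕ}
    (hn : D.natDegree = n) {α : F} (hα : aeval α D = 0) {i : ℕ} (hi : 0 < i) {ℓ : ℕ}
    (hℓ : 0 < ℓ) :
    ∏ m ∈ Finset.range n, (frob8 k F ^ m)
        (∏ c ∈ Frob14.fixS k F i, ((α - aeval c g) * (α - c) ^ (ℓ - 1))) =
      (∏ _c ∈ Frob14.fixS k F i, ((-1 : F) ^ n)) ^ ℓ *
        ((∏ c ∈ Frob14.fixS k F i, aeval c (D.comp g)) *
          (∏ c ∈ Frob14.fixS k F i, aeval c D) ^ (ℓ - 1)) := by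
  have h1 : ∀ m, (frob8 k F ^ m)
        (∏ c ∈ Frob14.fixS k F i, ((α - aeval c g) * (α - c) ^ (ℓ - 1))) =
      ∏ c ∈ Frob14.fixS k F i,
        (((frob8 k F ^ m) α - aeval c g) * ((frob8 k F ^ m) α - c) ^ (ℓ - 1)) := by
    intro m
    apply t16_prod_perm hi m
    intro c
    rw [map_mul, map_pow, map_sub, map_sub, ← aeval_algHom_apply (frob8 k F ^ m : F ≃ₐ[k] F)]
  simp only [h1]
  rw [Finset.prod_comm, ← Finset.prod_pow, ← Finset.prod_pow, ← Finset.prod_mul_distrib,
    ← Finset.prod_mul_distrib]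
  apply Finset.prod_congr rfl
  intro c _
  have h2 : ∀ x : F, ∏ m ∈ Finset.range n, ((frob8 k F ^ m) α - x) = (-1) ^ n * aeval x D := by
    intro x
    rw [aeval_eq_prod hm hirr hn hα x]
    have h3 : ∀ m ∈ Finset.range n, ((frob8 k F ^ m) α - x) =
        (-1) * (x - (frob8 k F ^ m) α) := fun m _ => by ring
    rw [Finset.prod_congr rfl h3, Finset.prod_mul_distrib, Finset.prod_const, Finset.card_range]
  rw [Finset.prod_mul_distrib, Finset.prod_pow, h2, h2, aeval_comp]
  obtain ⟨r, rfl⟩ : ∃ r, ℓ = r + 1 := ⟨ℓ - 1, by omega⟩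
  simp only [Nat.add_sub_cancel]
  rw [mul_pow, pow_succ]
  ring

end

theorem exists_root_of_exceptional {k : Type u} {F : Type*} [Field k] [Fintype k] [Field F]
    [Algebra k F] [Algebra.IsAlgebraic k F] [IsAlgClosed F] {ℓ n : ℕ} (hℓ : ℓ.Prime)
    (hq : ℓ ∣ Fintype.card k - 1) {g D : k[X]} (hg : g.Monic) (hdeg : g.natDegree ≠ 0)
    (hD : D ∈ Superelliptic.exceptional ℓ g n) {α : F} (hα : aeval α D = 0) {i : ℕ} (hi : 0 < i)
    (hin : i < n) :
    ∃ u : F, u ^ (Fintype.card k ^ n) = u ∧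
      u ^ ℓ = ∏ c ∈ Frob14.fixS k F i, ((α - aeval c g) * (α - c) ^ (ℓ - 1)) := by
  obtain ⟨⟨hm, hn, hirr'⟩, hK⟩ := hD
  have hirr := irreducible_of_comp hdeg hirr'
  obtain ⟨p, hp⟩ := CharP.exists k
  have hpp : Fact p.Prime := ⟨CharP.char_is_prime k p⟩
  have hi' : NeZero i := ⟨hi.ne'⟩
  let K := FiniteField.Extension k p i
  have hfin : Finite K := Module.finite_of_finite k
  let _ : Fintype K := Fintype.ofFinite K
  have hrank : Module.finrank k K = i := FiniteField.finrank_extension k p i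
  obtain ⟨a, ha⟩ := hK K (by rw [hrank]; exact hin)
  let σ : K →ₐ[k] F := IsAlgClosed.lift
  have h1 : algebraMap k F (a ^ ℓ) * ∏ c ∈ Frob14.fixS k F i, aeval c D =
      ∏ c ∈ Frob14.fixS k F i, aeval c (D.comp g) := by
    have h2 := prod_fixS_eq (K := K) (fun c : F => aeval c D) σ
    have h3 := prod_fixS_eq (K := K) (fun c : F => aeval c (D.comp g)) σ
    rw [hrank] at h2 h3
    rw [h2, h3]
    have h4 := congrArg σ ha
    rw [map_mul, AlgHom.commutes, map_prod, map_prod] at h4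
    simpa only [aeval_algHom_apply] using h4
  -- the product over the fixed points is in `k`
  have h5 : frob8 k F (∏ c ∈ Frob14.fixS k F i, aeval c D) =
      ∏ c ∈ Frob14.fixS k F i, aeval c D := by
    have h6 := t16_prod_perm (k := k) (F := F) hi 1 (fun c => aeval c D) (fun c => aeval c D)
      (fun c => (aeval_algHom_apply (frob8 k F ^ 1 : F ≃ₐ[k] F) c D).symm)
    rwa [pow_one] at h6
  obtain ⟨d, hd⟩ := mem_range_of_frob8 h5
  have h7 := t16_norm (g := g) hm hirr hn hα hi hℓ.pos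
  apply t16_root hℓ hq (b := (∏ _c ∈ Frob14.fixS k F i, ((-1 : k) ^ n)) * a * d)
  rw [h7, ← h1, ← hd]
  have h8 : (∏ _c ∈ Frob14.fixS k F i, ((-1 : F) ^ n)) =
      algebraMap k F (∏ _c ∈ Frob14.fixS k F i, ((-1 : k) ^ n)) := by
    rw [map_prod]
    simp only [map_pow, map_neg, map_one]
  rw [h8]
  obtain ⟨r, rfl⟩ : ∃ r, ℓ = r + 1 := ⟨ℓ - 1, by have := hℓ.pos; omega⟩
  simp only [Nat.add_sub_cancel, map_mul, map_pow]
  ring

end Pool.Agent.Lib.MP_89bcae_ag.Tw
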