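import Mathlib
import Pool.Agent.Lib.MP_89bcae_ag.SupConv
import Pool.Agent.Lib.MP_89bcae_ag.Sup.G20
import Pool.Agent.Lib.MP_89bcae_ag.Tw.T15
import Pool.Agent.Lib.MP_89bcae_ag.Tw.T17

/-!
# The final theorem
-/

open Polynomial

namespace Pool.Agent.Lib.MP_89bcae_ag.Tw

open Pool.Agent.Lib.MP_89bcae_ag

universe u

theorem superTwist (ℓ m : ℕ) (hℓ : ℓ.Prime) (hm : m.Prime) (hm2 : m ≠ 2)
    (hgen : orderOf (ℓ : ZMod (m ^ 2)) = m * (m - 1)) (κ : Type u) [Field κ] [Fintype κ]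
    (hmκ : (m : κ) ≠ 0) (hq : ℓ ∣ Fintype.card κ - 1) (g₀ : κ[X]) (hg₀ : g₀.Monic)
    (hdeg : g₀.natDegree = m) (j : ℕ) :
    (∀ D₀ ∈ family g₀ (m ^ j), D₀ ∉ Superelliptic.exceptional ℓ g₀ (m ^ j) →
      ∀ (R : Type u) [CommRing R] [IsDomain R] [IsIntegrallyClosed R] (π : R →+* κ),
        Function.Surjective π → ∀ g D : R[X], g.Monic → g.map π = g₀ → D.natDegree = m ^ j →
        D.map π = D₀ →
      ∀ (k F L Ω : Type u) [Field k] [Algebra R k] [IsFractionRing R k] [Field F] [Algebra k F]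
        [IsAlgClosure k F] [Field L] [Algebra F[X] L] [IsFractionRing F[X] L] [Field Ω]
        [Algebra L Ω] [IsAlgClosure L Ω], (∃ ζ : k, IsPrimitiveRoot ζ ℓ) →
        ∀ (k' : IntermediateField k F) (_ : FiniteDimensional k k'),
          Superelliptic.NoTateClass ℓ L Ω (g.map (algebraMap R k)) (D.map (algebraMap R k)) k') ∧
    (m ^ j : ℝ) * ((Superelliptic.exceptional ℓ g₀ (m ^ j)).ncard : ℝ) ≤
      4 * (Fintype.card κ : ℝ) ^ 4 * (ℓ : ℝ) ^ (-(m ^ j : ℝ) / (4 * m)) *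
        (Fintype.card κ : ℝ) ^ (m ^ j) := by
  refine ⟨?_, exceptional_card hℓ hm hm2 hmκ hq hg₀ hdeg⟩
  intro D₀ hD₀ hexc R _ _ _ π hπ g D hg hgπ hDn hDπ k F L Ω _ _ _ _ _ _ _ _ _ _ _ _ hζ k' _
  obtain ⟨ζ, hζ⟩ := hζ
  subst hgπ hDπ
  have hgd : g.natDegree = m := by rw [← hg.natDegree_map π, hdeg]
  obtain ⟨hs, hI⟩ := isIndependent_of_spec hℓ hm hm2 hgen hq hπ hg hgd hDn hD₀ hexc k F hζ
  have hinj : Function.Injective (algebraMap R k) := IsFractionRing.injective R k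
  have hℓκ : (ℓ : κ) ≠ 0 := by
    obtain ⟨p, hp⟩ := CharP.exists κ
    intro h0
    have hpp : p.Prime := CharP.char_is_prime κ p
    have h1 : p ∣ ℓ := (CharP.cast_eq_zero_iff κ p ℓ).mp h0
    have h2 : p = ℓ := (Nat.prime_dvd_prime_iff_eq hpp hℓ).mp h1
    have h3 : p ∣ Fintype.card κ := (CharP.cast_eq_zero_iff κ p _).mp (FiniteField.cast_card_eq_zero κ)
    have h4 : 1 < Fintype.card κ := Fintype.one_lt_card
    rw [← h2] at hq
    have h5 : p ∣ 1 := by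
      have h6 := (Nat.dvd_sub_iff_right (by omega) h3).mp hq
      exact h6
    exact hpp.one_lt.ne' (Nat.dvd_one.mp h5)
  have hℓk : (ℓ : k) ≠ 0 := by
    intro h0
    apply hℓκ
    have h1 : (ℓ : R) = 0 := hinj (by rw [map_natCast, map_zero, h0])
    rw [← map_natCast π, h1, map_zero]
  have hcop : (g.map (algebraMap R k)).natDegree.Coprime ℓ := by
    rw [hg.natDegree_map, hgd]
    exact ne_of_orderOf hℓ hm hgen
  have hDk : (D.map (algebraMap R k)).natDegree ≠ 0 := by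
    rw [natDegree_map_eq_of_injective hinj, hDn]
    exact (pow_pos hm.pos j).ne'
  exact Superelliptic.NoTateClass.ofSup
    (Sup.main k F L Ω _ _ ζ ⟨hℓ, hℓk, hζ, hg.map _, hcop, hs, hDk⟩ hI.toSup k')

end Pool.Agent.Lib.MP_89bcae_ag.Tw
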