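import Mathlib
import Pool.Agent.Lib.MP_89bcae_ag.Tw.T10

/-!
# An eigenvector up to constants on the fibres forces a scalar
-/

open Polynomial Finset

namespace Pool.Agent.Lib.MP_89bcae_ag.Tw

theorem scalar_of_eigenvector_all {ℓ m j : ℕ} [Fact ℓ.Prime] (hm : m.Prime)
    (hirr : Irreducible (cyclotomic (m ^ (j + 1)) (ZMod ℓ)))
    (r : ZMod (m * m ^ j) → ZMod ℓ) (c : ZMod ℓ) (e : ZMod (m * m ^ j) → ZMod ℓ) (he : e ≠ 0)
    (hsum : ∀ i : ZMod (m * m ^ j), ∑ t ∈ range m, e (i + (m ^ j * t : ℕ)) = 0)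
    [NeZero (m * m ^ j)]
    (heig : ∀ i, ∑ s, r s * (e i - e (i + s)) = c * e i) :
    ∀ s : ZMod (m * m ^ j), ZMod.castHom (dvd_mul_left (m ^ j) m) (ZMod (m ^ j)) s ≠ 0 →
      r s = r (s + (m ^ j : ℕ)) := by
  classical
  intro s hs
  set T : Module.End (ZMod ℓ) (ZMod (m * m ^ j) → ZMod ℓ) := t10_T (m * m ^ j) with hT
  set P : (ZMod ℓ)[X] := C (∑ s, r s - c) - ∑ s, C (r s) * X ^ s.val with hP
  have hPe : ∀ (v : ZMod (m * m ^ j) → ZMod ℓ) (i : ZMod (m * m ^ j)), (aeval T P) v i =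
      (∑ s, r s - c) * v i - ∑ s, r s * v (i + s) := by
    intro v i
    rw [hP, map_sub, map_sum, aeval_C, LinearMap.sub_apply, Pi.sub_apply, LinearMap.sum_apply,
      Finset.sum_apply, Module.algebraMap_end_apply, Pi.smul_apply, smul_eq_mul]
    congr 1
    refine Finset.sum_congr rfl fun s _ => ?_
    rw [map_mul, aeval_C, map_pow, aeval_X, Module.End.mul_apply, Module.algebraMap_end_apply,
      Pi.smul_apply, smul_eq_mul, hT, t10_T_pow, ZMod.natCast_zmod_val]
  have hΦ : ∀ (v : ZMod (m * m ^ j) → ZMod ℓ) (i : ZMod (m * m ^ j)),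
      (aeval T (cyclotomic (m ^ (j + 1)) (ZMod ℓ))) v i =
      ∑ t ∈ range m, v (i + (m ^ j * t : ℕ)) := by
    intro v i
    have : Fact m.Prime := ⟨hm⟩
    rw [cyclotomic_prime_pow_eq_geom_sum hm, map_sum, LinearMap.sum_apply, Finset.sum_apply]
    refine Finset.sum_congr rfl fun t _ => ?_
    rw [map_pow, map_pow, aeval_X, ← pow_mul, hT, t10_T_pow]
  have hPe0 : (aeval T P) e = 0 := by
    funext i
    rw [hPe, Pi.zero_apply]
    have h1 := heig i
    have h2 : ∑ s, r s * (e i - e (i + s)) = (∑ s, r s) * e i - ∑ s, r s * e (i + s) := by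
      rw [Finset.sum_mul, ← Finset.sum_sub_distrib]
      refine Finset.sum_congr rfl fun s _ => ?_
      ring
    rw [h2] at h1
    linear_combination h1
  have hΦe0 : (aeval T (cyclotomic (m ^ (j + 1)) (ZMod ℓ))) e = 0 := by
    funext i
    rw [hΦ, Pi.zero_apply]
    exact hsum i
  have hdvd : cyclotomic (m ^ (j + 1)) (ZMod ℓ) ∣ P := by
    by_contra hnd
    obtain ⟨a, b, hab⟩ := (hirr.coprime_iff_not_dvd).2 hnd
    apply he
    have h1 := congrArg (fun q => (aeval T q) e) hab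
    simp only [map_add, map_mul, map_one, LinearMap.add_apply, Module.End.mul_apply, hPe0, hΦe0,
      map_zero, add_zero, Module.End.one_apply] at h1
    exact h1.symm
  obtain ⟨Q, hQ⟩ := hdvd
  set v : ZMod (m * m ^ j) → ZMod ℓ :=
    Pi.single 0 1 - Pi.single ((m ^ j : ℕ) : ZMod (m * m ^ j)) 1 with hv
  have hΦv : (aeval T (cyclotomic (m ^ (j + 1)) (ZMod ℓ))) v = 0 := by
    funext i
    rw [hΦ, Pi.zero_apply]
    exact t10_telescope rfl i
  have hPv : (aeval T P) v = 0 := by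
    rw [hQ, mul_comm (cyclotomic (m ^ (j + 1)) (ZMod ℓ)) Q, map_mul, Module.End.mul_apply, hΦv,
      map_zero]
  have h3 := congrFun hPv (-s)
  rw [hPe, Pi.zero_apply] at h3
  have hpn : ZMod.castHom (dvd_mul_left (m ^ j) m) (ZMod (m ^ j))
      (((m ^ j : ℕ) : ZMod (m * m ^ j))) = 0 := by
    rw [map_natCast, ZMod.natCast_self]
  have hv1 : v (-s) = 0 := by
    rw [hv, Pi.sub_apply, Pi.single_apply, Pi.single_apply, if_neg, if_neg, sub_zero]
    · intro h4
      apply hs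
      have h5 := congrArg (ZMod.castHom (dvd_mul_left (m ^ j) m) (ZMod (m ^ j))) h4
      rw [hpn, map_neg, neg_eq_zero] at h5
      exact h5
    · intro h4
      apply hs
      rw [neg_eq_zero] at h4
      rw [h4, map_zero]
  have hsum2 : ∑ s', r s' * v (-s + s') = r s - r (s + ((m ^ j : ℕ) : ZMod (m * m ^ j))) := by
    have h4 : ∀ s' ∈ (Finset.univ : Finset (ZMod (m * m ^ j))),
        r s' * v (-s + s') = (if s' = s then r s' else 0) -
        (if s' = s + ((m ^ j : ℕ) : ZMod (m * m ^ j)) then r s' else 0) := by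
      intro s' _
      rw [hv, Pi.sub_apply, Pi.single_apply, Pi.single_apply]
      have e1 : (-s + s' = 0) ↔ (s' = s) := by
        rw [neg_add_eq_zero]; exact eq_comm
      have e2 : (-s + s' = ((m ^ j : ℕ) : ZMod (m * m ^ j))) ↔
          (s' = s + ((m ^ j : ℕ) : ZMod (m * m ^ j))) := by
        rw [neg_add_eq_iff_eq_add]
      simp only [e1, e2]
      split_ifs <;> ring
    rw [Finset.sum_congr rfl h4, Finset.sum_sub_distrib, Finset.sum_ite_eq', Finset.sum_ite_eq',
      if_pos (Finset.mem_univ _), if_pos (Finset.mem_univ _)]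
  rw [hv1, hsum2, mul_zero, zero_sub, neg_eq_zero, sub_eq_zero] at h3
  exact h3

/-- The same up to constants on the fibres. -/
theorem scalar_of_eigenvector_cst {ℓ m j : ℕ} [Fact ℓ.Prime] (hm : m.Prime)
    (hmℓ : (m : ZMod ℓ) ≠ 0)
    (hirr : Irreducible (cyclotomic (m ^ (j + 1)) (ZMod ℓ)))
    (r : ZMod (m * m ^ j) → ZMod ℓ) (c : ZMod ℓ) (e : ZMod (m * m ^ j) → ZMod ℓ) (he : e ≠ 0)
    (hsum : ∀ i : ZMod (m * m ^ j), ∑ t ∈ range m, e (i + (m ^ j * t : ℕ)) = 0)
    [NeZero (m * m ^ j)] (cst : ZMod (m * m ^ j) → ZMod ℓ)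
    (hcst : ∀ i, cst (i + (m ^ j : ℕ)) = cst i)
    (heig : ∀ i, ∑ s, r s * (e i - e (i + s)) = c * e i + cst i) :
    ∀ s : ZMod (m * m ^ j), ZMod.castHom (dvd_mul_left (m ^ j) m) (ZMod (m ^ j)) s ≠ 0 →
      r s = r (s + (m ^ j : ℕ)) := by
  classical
  have hcst2 : ∀ (t : ℕ) (i : ZMod (m * m ^ j)), cst (i + (m ^ j * t : ℕ)) = cst i := by
    intro t
    induction t with
    | zero => intro i; simp
    | succ t ih =>
      intro i
      have h1 : i + ((m ^ j * (t + 1) : ℕ) : ZMod (m * m ^ j)) =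
          (i + (m ^ j * t : ℕ)) + (m ^ j : ℕ) := by
        push_cast
        ring
      rw [h1, hcst, ih]
  refine scalar_of_eigenvector_all hm hirr r c e he hsum fun i => ?_
  have h2 : cst i = 0 := by
    have h3 : ∑ t ∈ range m, (∑ s, r s * (e (i + (m ^ j * t : ℕ)) - e (i + (m ^ j * t : ℕ) + s))) =
        ∑ t ∈ range m, (c * e (i + (m ^ j * t : ℕ)) + cst i) := by
      refine Finset.sum_congr rfl fun t _ => ?_
      rw [heig, hcst2]
    rw [Finset.sum_comm, Finset.sum_add_distrib, ← Finset.mul_sum, hsum, mul_zero, zero_add,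
      Finset.sum_const, card_range, nsmul_eq_mul] at h3
    have h4 : ∑ s, ∑ t ∈ range m,
        r s * (e (i + (m ^ j * t : ℕ)) - e (i + (m ^ j * t : ℕ) + s)) = 0 := by
      refine Finset.sum_eq_zero fun s _ => ?_
      rw [← Finset.mul_sum, Finset.sum_sub_distrib, hsum]
      have h5 : ∑ t ∈ range m, e (i + (m ^ j * t : ℕ) + s) = 0 := by
        rw [← hsum (i + s)]
        exact Finset.sum_congr rfl fun t _ => by rw [add_right_comm]
      rw [h5, sub_zero, mul_zero]
    rw [h4] at h3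
    exact (mul_eq_zero.mp h3.symm).resolve_left hmℓ
  rw [heig, h2, add_zero]

end Pool.Agent.Lib.MP_89bcae_ag.Tw
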