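import Mathlib
import Pool.Agent.Lib.MP_89bcae_ag.Tow.M11
import Pool.Agent.Lib.MP_89bcae_ag.Tw.U10
import Pool.Agent.Lib.MP_89bcae_ag.Tw.T12

/-!
# The separation condition for a power of the automorphism
-/

open Polynomial Finset

namespace Pool.Agent.Lib.MP_89bcae_ag.Tw

open Pool.Agent.Lib.MP_89bcae_ag

universe u

lemma kap_eq_lam {F : Type u} [Field F] [IsAlgClosed F] {ℓ : ℕ} {ζ : F} (ψ : F ≃+* F)
    (hℓ : ℓ.Prime) (hζ : IsPrimitiveRoot ζ ℓ) (hψ : ψ ζ = ζ) {x : F} (hx0 : x ≠ 0)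
    (hx : ψ x = x) : Sup.kap ℓ ζ ψ x = lam ℓ ψ ζ x := by
  have : NeZero ℓ := ⟨hℓ.ne_zero⟩
  obtain ⟨w, hw⟩ := IsAlgClosed.exists_pow_nat_eq x hℓ.pos
  have h1 := Sup.kap_spec ψ hℓ hζ hψ hx0 hx hw
  have h2 := (lam_spec hℓ.pos hζ hx0 hx hw hψ _).2 h1
  rw [← h2, ZMod.natCast_zmod_val]

section

variable {k F : Type u} [Field k] [Field F] [Algebra k F] [IsAlgClosed F]
  {ℓ m j : ℕ} {φ : F ≃ₐ[k] F} {g D : k[X]} {α β : F}

/-- The last step. -/
theorem exists_power_of_lam (hℓ : ℓ.Prime) (hm : m.Prime) (ho : Orb φ g D m (m ^ j) α β) {ζ : k}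
    (hζ : IsPrimitiveRoot ζ ℓ) (u : ℕ) (hu : ¬ m ^ j ∣ u)
    (hT10 : lam ℓ ((φ ^ (m * m ^ j) : F ≃ₐ[k] F) : F ≃+* F) (algebraMap k F ζ)
        (β - ee φ β (u : ZMod (m * m ^ j))) =
      lam ℓ ((φ ^ (m * m ^ j) : F ≃ₐ[k] F) : F ≃+* F) (algebraMap k F ζ)
        (β - ee φ β ((u : ZMod (m * m ^ j)) + ((m ^ j : ℕ) : ZMod (m * m ^ j))))) :
    ∃ w : F, w ^ ℓ = ((φ ^ u) β - β) * ((φ ^ (u + m ^ j)) β - β) ^ (ℓ - 1) ∧
      (φ ^ (m * m ^ j)) w = w := by
  classical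
  have : Fact ℓ.Prime := ⟨hℓ⟩
  have hmpos : 0 < m := hm.pos
  have hnpos : 0 < m ^ j := pow_pos hmpos j
  have : NeZero (m * m ^ j) := ⟨(Nat.mul_pos hmpos hnpos).ne'⟩
  have hℓ0 : 0 < ℓ := hℓ.pos
  set ψ : F ≃+* F := ((φ ^ (m * m ^ j) : F ≃ₐ[k] F) : F ≃+* F) with hψdef
  have hψ : ∀ x, ψ x = (φ ^ (m * m ^ j)) x := fun _ => rfl
  set z : F := algebraMap k F ζ with hz
  have hzprim : IsPrimitiveRoot z ℓ := hζ.map_of_injective (algebraMap k F).injective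
  have hψz : ψ z = z := AlgEquiv.commutes _ _
  have hψee : ∀ v : ZMod (m * m ^ j), ψ (ee φ β v) = ee φ β v := fun v => ho.pow_ee v
  have hβ : ee φ β (0 : ZMod (m * m ^ j)) = β := Orb.ee_zero φ _ β
  have hψβ : ψ β = β := by rw [← hβ]; exact hψee 0
  set pr := ZMod.castHom (dvd_mul_left (m ^ j) m) (ZMod (m ^ j)) with hpr
  have hs0 : ∀ s : ZMod (m * m ^ j), pr s ≠ 0 → s ≠ 0 := by
    intro s hs h0
    rw [h0, map_zero] at hs
    exact hs rfl
  have hnb : ∀ v : ZMod (m * m ^ j), pr v ≠ 0 → β - ee φ β v ≠ 0 := by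
    intro v hv h0
    exact hs0 v hv (ho.ee_injective (hβ.trans (sub_eq_zero.1 h0))).symm
  set s : ZMod (m * m ^ j) := (u : ZMod (m * m ^ j)) with hs
  have hprs : pr s ≠ 0 := by
    rw [hs, map_natCast, Ne, ZMod.natCast_eq_zero_iff]
    exact hu
  have hprs' : pr (s + ((m ^ j : ℕ) : ZMod (m * m ^ j))) ≠ 0 := by
    have h5 : pr ((m ^ j : ℕ) : ZMod (m * m ^ j)) = 0 := by
      rw [map_natCast, ZMod.natCast_self]
    rw [map_add, h5, add_zero]
    exact hprs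
  have hX : (φ ^ u) β = ee φ β s := (ho.ee_natCast u).symm
  have hY : (φ ^ (u + m ^ j)) β = ee φ β (s + ((m ^ j : ℕ) : ZMod (m * m ^ j))) := by
    rw [← ho.ee_natCast (u + m ^ j), Nat.cast_add]
  rw [hX, hY]
  have hm1 : ψ (-1) = -1 := by rw [map_neg, map_one]
  have hm10 : (-1 : F) ≠ 0 := neg_ne_zero.2 one_ne_zero
  have hψb : ∀ v : ZMod (m * m ^ j), ψ (β - ee φ β v) = β - ee φ β v := by
    intro v
    rw [map_sub, hψβ, hψee]
  have hneg : ∀ v : ZMod (m * m ^ j), ee φ β v - β = -1 * (β - ee φ β v) := by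
    intro v; ring
  have hlneg : ∀ v : ZMod (m * m ^ j), pr v ≠ 0 →
      lam ℓ ψ z (ee φ β v - β) = lam ℓ ψ z (-1) + lam ℓ ψ z (β - ee φ β v) := by
    intro v hv
    rw [hneg, lam_mul hℓ0 hzprim hψz hm10 hm1 (hnb v hv) (hψb v)]
  have hne1 : ∀ v : ZMod (m * m ^ j), pr v ≠ 0 → ee φ β v - β ≠ 0 := by
    intro v hv
    rw [hneg]
    exact mul_ne_zero hm10 (hnb v hv)
  have hψ1 : ∀ v : ZMod (m * m ^ j), ψ (ee φ β v - β) = ee φ β v - β := by
    intro v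
    rw [map_sub, hψβ, hψee]
  have hψpow : ψ ((ee φ β (s + ((m ^ j : ℕ) : ZMod (m * m ^ j))) - β) ^ (ℓ - 1)) =
      (ee φ β (s + ((m ^ j : ℕ) : ZMod (m * m ^ j))) - β) ^ (ℓ - 1) := by
    rw [map_pow, hψ1]
  have hnepow : (ee φ β (s + ((m ^ j : ℕ) : ZMod (m * m ^ j))) - β) ^ (ℓ - 1) ≠ 0 :=
    pow_ne_zero _ (hne1 _ hprs')
  have hlampow : lam ℓ ψ z ((ee φ β (s + ((m ^ j : ℕ) : ZMod (m * m ^ j))) - β) ^ (ℓ - 1)) =
      - lam ℓ ψ z (ee φ β (s + ((m ^ j : ℕ) : ZMod (m * m ^ j))) - β) := by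
    rw [← zpow_natCast, lam_zpow hℓ0 hzprim hψz (hne1 _ hprs') (hψ1 _)]
    have h4 : (((ℓ - 1 : ℕ) : ℤ) : ZMod ℓ) = -1 := by
      rw [Int.cast_natCast, Nat.cast_sub hℓ.one_lt.le, Nat.cast_one, ZMod.natCast_self, zero_sub]
    rw [h4, neg_one_mul]
  have htot : lam ℓ ψ z ((ee φ β s - β) *
      (ee φ β (s + ((m ^ j : ℕ) : ZMod (m * m ^ j))) - β) ^ (ℓ - 1)) = 0 := by
    rw [lam_mul hℓ0 hzprim hψz (hne1 s hprs) (hψ1 s) hnepow hψpow, hlampow, hlneg s hprs,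
      hlneg _ hprs', hT10]
    ring
  obtain ⟨w, hw1, hw2⟩ := (lam_eq_zero_iff hℓ0 hzprim hψz (mul_ne_zero (hne1 s hprs) hnepow)
    (by rw [map_mul, hψ1, hψpow])).1 htot
  exact ⟨w, hw1, hw2⟩

theorem exists_power_of_not_sepU (hℓ : ℓ.Prime) (hm : m.Prime) (hmℓ : (m : ZMod ℓ) ≠ 0)
    (hirr : Irreducible (cyclotomic (m ^ (j + 1)) (ZMod ℓ)))
    (ho : Orb φ g D m (m ^ j) α β) {ζ : k} (hζ : IsPrimitiveRoot ζ ℓ) (μ : ZMod ℓ)
    (hS : ¬ Sup.SepU g D (Sup.kap ℓ (algebraMap k F ζ) (φ ^ (m * m ^ j) : F ≃ₐ[k] F)) μ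
      (Set.univ : Set F)) (u : ℕ) (hu : ¬ m ^ j ∣ u) :
    ∃ w : F, w ^ ℓ = ((φ ^ u) β - β) * ((φ ^ (u + m ^ j)) β - β) ^ (ℓ - 1) ∧
      (φ ^ (m * m ^ j)) w = w := by
  classical
  have : Fact ℓ.Prime := ⟨hℓ⟩
  have hmpos : 0 < m := hm.pos
  have hnpos : 0 < m ^ j := pow_pos hmpos j
  have : NeZero (m * m ^ j) := ⟨(Nat.mul_pos hmpos hnpos).ne'⟩
  have hℓ0 : 0 < ℓ := hℓ.pos
  set ψ : F ≃+* F := ((φ ^ (m * m ^ j) : F ≃ₐ[k] F) : F ≃+* F) with hψdef
  have hψ : ∀ x, ψ x = (φ ^ (m * m ^ j)) x := fun _ => rfl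
  set z : F := algebraMap k F ζ with hz
  have hzprim : IsPrimitiveRoot z ℓ := hζ.map_of_injective (algebraMap k F).injective
  have hψz : ψ z = z := AlgEquiv.commutes _ _
  have hψee : ∀ v : ZMod (m * m ^ j), ψ (ee φ β v) = ee φ β v := fun v => ho.pow_ee v
  have hβ : ee φ β (0 : ZMod (m * m ^ j)) = β := Orb.ee_zero φ _ β
  have hψβ : ψ β = β := by rw [← hβ]; exact hψee 0
  have hkapψ : Sup.kap ℓ z (φ ^ (m * m ^ j) : F ≃ₐ[k] F) = Sup.kap ℓ z ψ := rfl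
  rw [hkapψ] at hS
  -- the roots
  have hRR : Sup.RR F g D = univ.image (ee φ β : ZMod (m * m ^ j) → F) := by
    ext x
    rw [Sup.RR, Multiset.mem_toFinset, mem_roots
      ((Polynomial.map_ne_zero_iff (algebraMap k F).injective).2 ho.comp_ne), IsRoot.def,
      eval_map_algebraMap, Finset.mem_image]
    constructor
    · intro hx
      obtain ⟨v, hv⟩ := ho.ee_surj hx
      exact ⟨v, mem_univ _, hv⟩
    · rintro ⟨v, -, rfl⟩
      exact ho.ee_root v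
  have hsumRR : ∀ (P : F → Prop) [DecidablePred P] (f : F → ZMod ℓ) (i : ZMod (m * m ^ j)),
      ∑ β' ∈ (Sup.RR F g D).filter P, f β' =
        ∑ s : ZMod (m * m ^ j), if P (ee φ β (i + s)) then f (ee φ β (i + s)) else 0 := by
    intro P _ f i
    rw [Finset.sum_filter, hRR, Finset.sum_image fun a _ b _ h => ho.ee_injective h]
    exact (Equiv.sum_comp (Equiv.addLeft i)
      (fun v : ZMod (m * m ^ j) => if P (ee φ β v) then f (ee φ β v) else 0)).symm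
  set pr := ZMod.castHom (dvd_mul_left (m ^ j) m) (ZMod (m ^ j)) with hpr
  have hgee : ∀ i s : ZMod (m * m ^ j),
      (aeval (ee φ β (i + s)) g = aeval (ee φ β i) g) ↔ pr s = 0 := by
    intro i s
    rw [ho.g_ee_eq_iff, add_sub_cancel_left]
  -- the negation of the separation condition
  rw [Sup.SepU] at hS
  push Not at hS
  obtain ⟨e, n, cst, hsumE, heq, b₁, hb₁, -, hb₁e⟩ := hS
  set e' : ZMod (m * m ^ j) → ZMod ℓ := fun v => e (ee φ β v) with he'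
  have hmemee : ∀ v : ZMod (m * m ^ j), ee φ β v ∈ Sup.RR F g D := by
    intro v
    rw [hRR]
    exact mem_image_of_mem _ (mem_univ _)
  have he'0 : e' ≠ 0 := by
    intro h0
    rw [hRR, Finset.mem_image] at hb₁
    obtain ⟨v, -, rfl⟩ := hb₁
    exact hb₁e (congrFun h0 v)
  -- the fibre sums
  have hsum : ∀ i : ZMod (m * m ^ j), ∑ t ∈ range m, e' (i + (m ^ j * t : ℕ)) = 0 := by
    intro i
    have h1 := hsumE (ee φ β i) (hmemee i)
    rw [hsumRR _ _ i] at h1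
    rw [← h1]
    simp only [hgee]
    rw [← Finset.sum_filter]
    have h2 : univ.filter (fun s : ZMod (m * m ^ j) => pr s = 0) =
        (range m).image (fun t : ℕ => ((m ^ j * t : ℕ) : ZMod (m * m ^ j))) := by
      ext s
      rw [mem_filter, hpr, t12_ker, Finset.mem_image]
      constructor
      · rintro ⟨-, t, ht, h⟩
        exact ⟨t, ht, h⟩
      · rintro ⟨t, ht, h⟩
        exact ⟨mem_univ _, t, ht, h⟩
    rw [h2, Finset.sum_image]
    intro t ht t' ht' htt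
    rw [mem_coe, mem_range] at ht ht'
    exact t12_inj hnpos ht ht' htt
  -- the symbol
  have hne : ∀ {v v' : ZMod (m * m ^ j)}, v ≠ v' → ee φ β v - ee φ β v' ≠ 0 := by
    intro v v' hvv h0
    exact hvv (ho.ee_injective (sub_eq_zero.1 h0))
  have hψsub : ∀ v v' : ZMod (m * m ^ j), ψ (ee φ β v - ee φ β v') = ee φ β v - ee φ β v' := by
    intro v v'
    rw [map_sub, hψee, hψee]
  have hlam : ∀ i s : ZMod (m * m ^ j), s ≠ 0 →
      Sup.kap ℓ z ψ (ee φ β i - ee φ β (i + s)) = lam ℓ ψ z (β - ee φ β s) := by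
    intro i s hs
    have h1 : ee φ β i - ee φ β (i + s) = (φ ^ i.val) (β - ee φ β s) := by
      rw [add_comm i s, ho.ee_add s i, map_sub]
      congr 1
    have h2 : β - ee φ β s ≠ 0 := by
      have := hne (v := 0) (v' := s) hs.symm
      rwa [hβ] at this
    have h3 : ψ (β - ee φ β s) = β - ee φ β s := by rw [map_sub, hψβ, hψee]
    have h4 : ee φ β i - ee φ β (i + s) ≠ 0 := by
      rw [h1]
      exact (map_ne_zero_iff _ (φ ^ i.val).injective).2 h2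
    rw [kap_eq_lam ψ hℓ hzprim hψz h4 (hψsub _ _), h1]
    exact lam_apply hℓ0 hzprim hψz ((φ ^ i.val : F ≃ₐ[k] F) : F ≃+* F) (AlgEquiv.commutes _ _)
      (fun x => by
        change (φ ^ i.val) ((φ ^ (m * m ^ j)) x) = (φ ^ (m * m ^ j)) ((φ ^ i.val) x)
        rw [← AlgEquiv.mul_apply, ← AlgEquiv.mul_apply, ← pow_add, ← pow_add, add_comm]) h2 h3
  set r : ZMod (m * m ^ j) → ZMod ℓ := fun s =>
    if pr s = 0 then μ * lam ℓ ψ z (β - ee φ β s) else lam ℓ ψ z (β - ee φ β s) with hr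
  set cst' : ZMod (m * m ^ j) → ZMod ℓ := fun i => cst (aeval (ee φ β i) g) with hcst'
  have hcst : ∀ i, cst' (i + (m ^ j : ℕ)) = cst' i := by
    intro i
    have h1 : aeval (ee φ β (i + ((m ^ j : ℕ) : ZMod (m * m ^ j)))) g = aeval (ee φ β i) g := by
      rw [hgee, map_natCast, ZMod.natCast_self]
    simp only [hcst', h1]
  have heig : ∀ i, ∑ s, r s * (e' i - e' (i + s)) = (-n) * e' i + cst' i := by
    intro i
    have h1 := heq (ee φ β i) (hmemee i) (Set.mem_univ _)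
    rw [Sup.sumO, Sup.sumS, hsumRR _ _ i, hsumRR _ _ i, Finset.mul_sum, ← Finset.sum_add_distrib]
      at h1
    have h2 : ∀ s ∈ (univ : Finset (ZMod (m * m ^ j))), r s * (e' i - e' (i + s)) =
        (if aeval (ee φ β (i + s)) g ≠ aeval (ee φ β i) g then
          Sup.kap ℓ z ψ (ee φ β i - ee φ β (i + s)) * (e (ee φ β i) - e (ee φ β (i + s))) else 0) +
        μ * (if aeval (ee φ β (i + s)) g = aeval (ee φ β i) g then
          Sup.kap ℓ z ψ (ee φ β i - ee φ β (i + s)) * (e (ee φ β i) - e (ee φ β (i + s)))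
            else 0) := by
      intro s _
      simp only [he', hr, hgee, ne_eq]
      by_cases h0 : s = 0
      · subst h0
        rw [add_zero, sub_self]
        simp
      · rw [hlam i s h0]
        by_cases h3 : pr s = 0
        · simp only [h3, not_true_eq_false, if_false, if_pos, zero_add]
          ring
        · simp only [h3, not_false_eq_true, if_false, if_true, mul_zero, add_zero]
    rw [Finset.sum_congr rfl h2]
    linear_combination h1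
  have hT10 := scalar_of_eigenvector_cst hm hmℓ hirr r (-n) e' he'0 hsum cst' hcst heig
  -- the conclusion
  have hprs : pr (u : ZMod (m * m ^ j)) ≠ 0 := by
    rw [map_natCast, Ne, ZMod.natCast_eq_zero_iff]
    exact hu
  have hprs' : pr ((u : ZMod (m * m ^ j)) + ((m ^ j : ℕ) : ZMod (m * m ^ j))) ≠ 0 := by
    have h5 : pr ((m ^ j : ℕ) : ZMod (m * m ^ j)) = 0 := by
      rw [map_natCast, ZMod.natCast_self]
    rw [map_add, h5, add_zero]
    exact hprs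
  have h6 := hT10 u hprs
  simp only [hr, if_neg hprs, if_neg hprs'] at h6
  exact exists_power_of_lam hℓ hm ho hζ u hu h6

end

end Pool.Agent.Lib.MP_89bcae_ag.Tw
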