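import Mathlib
import Pool.Agent.Lib.MP_89bcae_ag.Tow.M15
import Pool.Agent.Lib.MP_89bcae_ag.Tw.U15
import Pool.Agent.Lib.MP_89bcae_ag.Tw.T17

/-!
# The final theorem for all towers
-/

open Polynomial

namespace Pool.Agent.Lib.MP_89bcae_ag.Tw

open Pool.Agent.Lib.MP_89bcae_ag

universe u

theorem superTwistTower (ℓ m : ℕ) (hℓ : ℓ.Prime) (hm : m.Prime) (hm2 : m ≠ 2)
    (hgen : orderOf (ℓ : ZMod (m ^ 2)) = m * (m - 1)) (κ : Type u) [Field κ] [Fintype κ]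
    (hmκ : (m : κ) ≠ 0) (hq : ℓ ∣ Fintype.card κ - 1) (hneg : ∃ a : κ, a ^ ℓ = -1) (g₀ : κ[X])
    (hg₀ : g₀.Monic) (hdeg : g₀.natDegree = m) (j : ℕ) :
    (∀ D₀ ∈ family g₀ (m ^ j), D₀ ∉ Superelliptic.exceptional ℓ g₀ (m ^ j) →
      ∀ (R : Type u) [CommRing R] [IsDomain R] [IsIntegrallyClosed R] (π : R →+* κ),
        Function.Surjective π → ∀ g D : R[X], g.Monic → g.map π = g₀ → D.natDegree = m ^ j →
        D.map π = D₀ →
      ∀ (k F L Ω : Type u) [Field k] [Algebra R k] [IsFractionRing R k] [Field F] [Algebra k F]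
        [IsAlgClosure k F] [Field L] [Algebra F[X] L] [IsFractionRing F[X] L] [Field Ω]
        [Algebra L Ω] [IsAlgClosure L Ω], (∃ ζ : k, IsPrimitiveRoot ζ ℓ) →
        ∀ (k' : IntermediateField k F) (_ : FiniteDimensional k k') (r : ℕ) (s : Ω),
          s ^ ℓ ^ r = base k F L Ω (D.map (algebraMap R k)) →
          Superelliptic.NoTateClassOver ℓ k F L (g.map (algebraMap R k)) 1 (cover k' F L s)) ∧
    (m ^ j : ℝ) * ((Superelliptic.exceptional ℓ g₀ (m ^ j)).ncard : ℝ) ≤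
      4 * (Fintype.card κ : ℝ) ^ 4 * (ℓ : ℝ) ^ (-(m ^ j : ℝ) / (4 * m)) *
        (Fintype.card κ : ℝ) ^ (m ^ j) := by
  refine ⟨?_, exceptional_card hℓ hm hm2 hmκ hq hg₀ hdeg⟩
  intro D₀ hD₀ hexc R _ _ _ π hπ g D hg hgπ hDn hDπ k F L Ω _ _ _ _ _ _ _ _ _ _ _ _ hζ k' _ r s hs
  obtain ⟨ζ, hζ⟩ := hζ
  subst hgπ hDπ
  have hgd : g.natDegree = m := by rw [← hg.natDegree_map π, hdeg]
  obtain ⟨hsep, U, hU⟩ :=
    crall_of_spec hℓ hm hm2 hgen hq hneg hπ hg hgd hDn hD₀ hexc k F hζ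
  have hinj : Function.Injective (algebraMap R k) := IsFractionRing.injective R k
  have hℓκ : (ℓ : κ) ≠ 0 := t15_ne_zero hq
  have hℓk : (ℓ : k) ≠ 0 := by
    intro h0
    apply hℓκ
    have h1 : (ℓ : R) = 0 := hinj (by rw [map_natCast, map_zero, h0])
    rw [← map_natCast π, h1, map_zero]
  have hcop : (g.map (algebraMap R k)).natDegree.Coprime ℓ := by
    rw [hg.natDegree_map, hgd]
    exact ne_of_orderOf hℓ hm hgen
  have hDk : (D.map (algebraMap R k)).natDegree ≠ 0 := by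
    rw [natDegree_map_eq_of_injective hinj, hDn]
    exact (pow_pos hm.pos j).ne'
  exact Superelliptic.NoTateClassOver.ofSup
    (Sup.main_tower k F L Ω ⟨hℓ, hℓk, hζ, hg.map _, hcop, hsep, hDk⟩
      (fun a _ => ⟨U, Set.univ, Set.mem_univ a, hU⟩) k' r s hs)

end Pool.Agent.Lib.MP_89bcae_ag.Tw
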